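import Mathlib

/-!
# Representations of finite groups: divisibility of dimensions
-/

set_option autoImplicit false
set_option linter.unusedSectionVars false

namespace Pool.Agent.X156.LD

open Module

section basic

variable {K : Type*} [Field K] {G : Type*} [Group G] {V : Type*} [AddCommGroup V] [Module K V]

/-- invariant subspaces -/
def Stable (ρ : Representation K G V) (X : Submodule K V) : Prop := ∀ g : G, ∀ x ∈ X, ρ g x ∈ X

/-- the vectors fixed by a subgroup -/
def fixed (ρ : Representation K G V) (H : Subgroup G) : Submodule K V where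
  carrier := {x | ∀ h ∈ H, ρ h x = x}
  add_mem' := by
    intro a b ha hb h hh
    rw [map_add, ha h hh, hb h hh]
  zero_mem' := by
    intro h _
    rw [map_zero]
  smul_mem' := by
    intro c a ha h hh
    rw [map_smul, ha h hh]

lemma mem_fixed {ρ : Representation K G V} {H : Subgroup G} {x : V} :
    x ∈ fixed ρ H ↔ ∀ h ∈ H, ρ h x = x := Iff.rfl

theorem exists_compl [CharZero K] [Finite G] (ρ : Representation K G V) {S X : Submodule K V}
    (hS : Stable ρ S) (hX : Stable ρ X) (hSX : S ≤ X) :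
    ∃ C : Submodule K V, Stable ρ C ∧ C ≤ X ∧ S ⊓ C = ⊥ ∧ S ⊔ C = X := by
  have : NeZero (Nat.card G : K) := ⟨by exact_mod_cast Nat.card_pos.ne'⟩
  have h1 : ρ.IsSemisimpleRepresentation := by
    rw [Representation.isSemisimpleRepresentation_iff_isSemisimpleModule_asModule]
    infer_instance
  obtain ⟨C, hC⟩ := h1.exists_isCompl (⟨S, fun g v hv => hS g v hv⟩ : Subrepresentation ρ)
  have h2 : S ⊓ C.toSubmodule = ⊥ := by
    have h3 := hC.inf_eq_bot
    exact congrArg Subrepresentation.toSubmodule h3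
  have h3 : S ⊔ C.toSubmodule = ⊤ := by
    have h3 := hC.sup_eq_top
    exact congrArg Subrepresentation.toSubmodule h3
  refine ⟨C.toSubmodule ⊓ X, ?_, inf_le_right, ?_, ?_⟩
  · intro g x hx
    exact ⟨C.apply_mem_toSubmodule g hx.1, hX g x hx.2⟩
  · rw [← inf_assoc, h2, bot_inf_eq]
  · rw [← sup_inf_assoc_of_le _ hSX, h3, top_inf_eq]

/-- **The dimension of the fixed vectors**, from the irreducible parts. -/
theorem mem_of_irr [CharZero K] [Finite G] [FiniteDimensional K V] (ρ : Representation K G V)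
    (H : Subgroup G) (M : AddSubmonoid ℕ) : ∀ (n : ℕ) (X : Submodule K V), finrank K X = n → Stable ρ X →
    (∀ S ≤ X, Stable ρ S → S ≠ ⊥ → (∀ T ≤ S, Stable ρ T → T = ⊥ ∨ T = S) →
      finrank K (S ⊓ fixed ρ H : Submodule K V) ∈ M) →
    finrank K (X ⊓ fixed ρ H : Submodule K V) ∈ M := by
  classical
  intro n
  induction n using Nat.strong_induction_on with
  | _ n ih =>
    intro X hn hX h
    by_cases h0 : X = ⊥
    · rw [h0, bot_inf_eq, finrank_bot]
      exact M.zero_mem
    -- a minimal subspace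
    have hex : ∃ m : ℕ, ∃ S : Submodule K V, S ≤ X ∧ Stable ρ S ∧ S ≠ ⊥ ∧ finrank K S = m :=
      ⟨_, X, le_rfl, hX, h0, rfl⟩
    obtain ⟨S, hSX, hS, hS0, hSm⟩ := Nat.find_spec hex
    have hmin : ∀ T ≤ S, Stable ρ T → T = ⊥ ∨ T = S := by
      intro T hT hTs
      by_cases hT0 : T = ⊥
      · exact Or.inl hT0
      · refine Or.inr (Submodule.eq_of_le_of_finrank_le hT ?_)
        rw [hSm]
        exact Nat.find_min' hex ⟨T, hT.trans hSX, hTs, hT0, rfl⟩
    obtain ⟨C, hC, hCX, hSC, hSC'⟩ := exists_compl ρ hS hX hSX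
    have h1 := Submodule.finrank_sup_add_finrank_inf_eq S C
    rw [hSC, hSC', finrank_bot, add_zero, hn] at h1
    have h2 : 0 < finrank K S := by
      rw [Nat.pos_iff_ne_zero, Ne, Submodule.finrank_eq_zero]
      exact hS0
    have h3 := ih (finrank K C) (by omega) C rfl hC fun T hT => h T (hT.trans hCX)
    have h4 := h S hSX hS hS0 hmin
    have h5 : (X ⊓ fixed ρ H : Submodule K V) = (S ⊓ fixed ρ H) ⊔ (C ⊓ fixed ρ H) := by
      apply le_antisymm
      · rintro x ⟨hx, hxf⟩
        have hx' : x ∈ S ⊔ C := by rw [hSC']; exact hx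
        obtain ⟨s, hs, c, hc, rfl⟩ := Submodule.mem_sup.1 hx'
        have h6 : ∀ g ∈ H, ρ g s = s ∧ ρ g c = c := by
          intro g hg
          have h7 := hxf g hg
          rw [map_add] at h7
          have h8 : ρ g s - s ∈ S ⊓ C := by
            refine ⟨S.sub_mem (hS g s hs) hs, ?_⟩
            have h9 : ρ g s - s = c - ρ g c := by
              rw [sub_eq_sub_iff_add_eq_add, h7, add_comm]
            rw [h9]
            exact C.sub_mem hc (hC g c hc)
          rw [hSC, Submodule.mem_bot, sub_eq_zero] at h8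
          refine ⟨h8, ?_⟩
          rw [h8] at h7
          exact add_left_cancel h7
        exact Submodule.add_mem_sup ⟨hs, fun g hg => (h6 g hg).1⟩ ⟨hc, fun g hg => (h6 g hg).2⟩
      · exact sup_le (inf_le_inf_right _ hSX) (inf_le_inf_right _ hCX)
    have h6 : ((S ⊓ fixed ρ H) ⊓ (C ⊓ fixed ρ H) : Submodule K V) = ⊥ := by
      rw [eq_bot_iff, ← hSC]
      exact le_inf (inf_le_left.trans inf_le_left) (inf_le_right.trans inf_le_left)
    have h7 := Submodule.finrank_sup_add_finrank_inf_eq (S ⊓ fixed ρ H) (C ⊓ fixed ρ H)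
    rw [← h5, h6, finrank_bot, add_zero] at h7
    rw [h7]
    exact M.add_mem h4 h3

/-- the multiples of `d` -/
def mults (d : ℕ) : AddSubmonoid ℕ where
  carrier := {n | d ∣ n}
  add_mem' := fun ha hb => Nat.dvd_add ha hb
  zero_mem' := dvd_zero d

end basic

section pgroup

variable {K : Type*} [Field K] {G : Type*} [Group G] {W : Type*} [AddCommGroup W] [Module K W]

theorem exists_central_elt [Finite G] {q : ℕ} [Fact q.Prime] (hG : IsPGroup q G)
    (τ : Representation K G W) (hnt : ∃ g ∈ commutator G, τ g ≠ 1) :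
    ∃ z ∈ commutator G, τ z ≠ 1 ∧ (∀ g, τ z * τ g = τ g * τ z) ∧ τ z ^ q = 1 := by
  classical
  have hn := hG.isNilpotent
  obtain ⟨n0, hn0⟩ := Subgroup.nilpotent_iff_lowerCentralSeries.1 hn
  have hex : ∃ n, ∀ x ∈ (⊤ : Subgroup G).lowerCentralSeries n, τ x = 1 := by
    refine ⟨n0, fun x hx => ?_⟩
    rw [hn0, Subgroup.mem_bot] at hx
    rw [hx, map_one]
  have hP1 : ¬ ∀ x ∈ (⊤ : Subgroup G).lowerCentralSeries 1, τ x = 1 := by
    obtain ⟨g, hg, hg1⟩ := hnt
    intro h
    apply hg1
    apply h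
    rwa [Subgroup.top_lowerCentralSeries_one]
  have hanti := Subgroup.lowerCentralSeries_antitone (⊤ : Subgroup G)
  have hgt : 2 ≤ Nat.find hex := by
    by_contra hlt
    push Not at hlt
    apply hP1
    intro x hx
    have h1 := Nat.find_spec hex
    exact h1 x (hanti (show Nat.find hex ≤ 1 by omega) hx)
  obtain ⟨m, hm⟩ : ∃ m, Nat.find hex = m + 1 := ⟨Nat.find hex - 1, by omega⟩
  have h2 : ¬ ∀ x ∈ (⊤ : Subgroup G).lowerCentralSeries m, τ x = 1 := Nat.find_min hex (by omega)
  push Not at h2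
  obtain ⟨x, hx, hx1⟩ := h2
  have h3 : ∀ x ∈ (⊤ : Subgroup G).lowerCentralSeries (m + 1), τ x = 1 := by
    rw [← hm]
    exact Nat.find_spec hex
  have hxc : x ∈ commutator G := by
    rw [← Subgroup.top_lowerCentralSeries_one]
    exact hanti (show 1 ≤ m by omega) hx
  have hcomm : ∀ g, τ x * τ g = τ g * τ x := by
    intro g
    have h4 : x * g * x⁻¹ * g⁻¹ ∈ (⊤ : Subgroup G).lowerCentralSeries (m + 1) := by
      rw [Subgroup.lowerCentralSeries_succ]
      exact Subgroup.commutator_mem_commutator hx (Subgroup.mem_top g)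
    have h5 := h3 _ h4
    have h6 : x * g = (x * g * x⁻¹ * g⁻¹) * (g * x) := by group
    rw [← map_mul, h6, map_mul, h5, one_mul, map_mul]
  -- the order
  obtain ⟨k0, hk0⟩ := hG x
  have hex' : ∃ s, τ x ^ q ^ s = 1 := ⟨k0, by rw [← map_pow, hk0, map_one]⟩
  have hs0 : Nat.find hex' ≠ 0 := by
    intro h0
    have h1 := Nat.find_spec hex'
    rw [h0, pow_zero, pow_one] at h1
    exact hx1 h1
  obtain ⟨s, hs⟩ := Nat.exists_eq_succ_of_ne_zero hs0
  refine ⟨x ^ q ^ s, Subgroup.pow_mem _ hxc _, ?_, ?_, ?_⟩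
  · rw [map_pow]
    exact Nat.find_min hex' (by omega)
  · intro g
    rw [map_pow]
    exact (show Commute (τ x) (τ g) from hcomm g).pow_left _
  · have h1 := Nat.find_spec hex'
    rw [hs] at h1
    rw [map_pow, ← pow_mul, ← pow_succ]
    exact h1

end pgroup

end Pool.Agent.X156.LD
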