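import Pool.Agent.X156.LD.Alg

/-!
# Irreducible representations of groups of prime power order
-/

set_option autoImplicit false
set_option linter.unusedSectionVars false

namespace Pool.Agent.X156.LD

open Module Polynomial

section degree

lemma isIntegral_of_root {K L : Type*} [Field K] [Field L] [Algebra K L] {q : ℕ} (hq : 0 < q)
    {z : L} (hz : IsPrimitiveRoot z q) : IsIntegral K z := by
  refine ⟨X ^ q - C 1, monic_X_pow_sub_C 1 hq.ne', ?_⟩
  rw [eval₂_sub, eval₂_X_pow, hz.pow_eq_one, eval₂_C, map_one, sub_self]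

variable {K : Type*} [Field K] [CharZero K]

theorem natDegree_eq {Ω : Type*} [Field Ω] [Algebra K Ω] [IsAlgClosed Ω] {L : Type*} [Field L]
    [Algebra K L] {q : ℕ} [hq : Fact q.Prime] {ζ : Ω} (hζ : IsPrimitiveRoot ζ q) {z : L}
    (hz : IsPrimitiveRoot z q) : (minpoly K z).natDegree = (minpoly K ζ).natDegree := by
  have hq0 : 0 < q := hq.out.pos
  have hzi : IsIntegral K z := isIntegral_of_root hq0 hz
  obtain ⟨ξ, hξ⟩ := IsAlgClosed.exists_aeval_eq_zero Ω (minpoly K z)
    (minpoly.degree_pos hzi).ne'
  have h1 : minpoly K ξ = minpoly K z :=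
    (minpoly.eq_of_irreducible_of_monic (minpoly.irreducible hzi) hξ (minpoly.monic hzi)).symm
  have hcz : CharZero Ω := charZero_of_injective_algebraMap (algebraMap K Ω).injective
  have hczL : CharZero L := charZero_of_injective_algebraMap (algebraMap K L).injective
  have hξp : IsPrimitiveRoot ξ q := by
    have : NeZero ((q : ℕ) : Ω) := ⟨by exact_mod_cast hq0.ne'⟩
    have : NeZero ((q : ℕ) : L) := ⟨by exact_mod_cast hq0.ne'⟩
    rw [← isRoot_cyclotomic_iff, ← map_cyclotomic q (algebraMap K Ω), IsRoot.def,
      eval_map_algebraMap]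
    have h2 : minpoly K z ∣ cyclotomic q K := by
      apply minpoly.dvd
      rw [← eval_map_algebraMap, map_cyclotomic]
      exact isRoot_cyclotomic_iff.2 hz
    obtain ⟨r, hr⟩ := h2
    rw [hr, map_mul, hξ, zero_mul]
  have hζi : IsIntegral K ζ := isIntegral_of_root hq0 hζ
  have hξi : IsIntegral K ξ := isIntegral_of_root hq0 hξp
  have : NeZero q := ⟨hq0.ne'⟩
  have h3 : IntermediateField.adjoin K {ξ} = IntermediateField.adjoin K {ζ} := by
    apply le_antisymm
    · rw [IntermediateField.adjoin_simple_le_iff]
      obtain ⟨i, -, hi⟩ := hζ.eq_pow_of_pow_eq_one hξp.pow_eq_one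
      rw [← hi]
      exact pow_mem (IntermediateField.mem_adjoin_simple_self K ζ) i
    · rw [IntermediateField.adjoin_simple_le_iff]
      obtain ⟨i, -, hi⟩ := hξp.eq_pow_of_pow_eq_one hζ.pow_eq_one
      rw [← hi]
      exact pow_mem (IntermediateField.mem_adjoin_simple_self K ξ) i
  rw [← h1, ← IntermediateField.adjoin.finrank hξi, ← IntermediateField.adjoin.finrank hζi, h3]

end degree

variable {K : Type*} [Field K] [CharZero K] {G : Type*} [Group G] [Finite G] {W : Type*}
  [AddCommGroup W] [Module K W] [FiniteDimensional K W]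

/-- **Irreducible representations of groups of prime power order** -/
theorem dvd_finrank {q : ℕ} [hq : Fact q.Prime] (hG : IsPGroup q G) (τ : Representation K G W)
    (hirr : ∀ T : Submodule K W, Stable τ T → T = ⊥ ∨ T = ⊤)
    (hnt : ∃ g ∈ commutator G, τ g ≠ 1) {Ω : Type*} [Field Ω] [Algebra K Ω] [IsAlgClosed Ω]
    {ζ : Ω} (hζ : IsPrimitiveRoot ζ q) : q * (minpoly K ζ).natDegree ∣ finrank K W := by
  obtain ⟨z, hz, hz1, hzc, hzq⟩ := exists_central_elt hG τ hnt
  set Z : Module.End K W := τ z with hZ
  have hcomm : ∀ (f : K[X]) (g : G), aeval Z f * τ g = τ g * aeval Z f := by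
    intro f g
    induction f using Polynomial.induction_on' with
    | add a b ha hb => rw [map_add, add_mul, mul_add, ha, hb]
    | monomial n c =>
      rw [aeval_monomial]
      have h1 : Commute (Z ^ n) (τ g) := (show Commute Z (τ g) from hzc g).pow_left n
      have h2 : Commute (algebraMap K (Module.End K W) c) (τ g) := Algebra.commute_algebraMap_left _ _
      exact (h2.mul_left h1).eq
  have hker : ∀ f : K[X], LinearMap.ker (aeval Z f) = ⊥ ∨ LinearMap.ker (aeval Z f) = ⊤ := by
    intro f
    apply hirr
    intro g x hx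
    rw [LinearMap.mem_ker] at hx ⊢
    have h1 := congrArg (fun T : Module.End K W => T x) (hcomm f g)
    change aeval Z f (τ g x) = τ g (aeval Z f x) at h1
    rw [h1, hx, map_zero]
  have hZi : IsIntegral K Z := Algebra.IsIntegral.isIntegral Z
  have hW : Nontrivial (Module.End K W) := ⟨⟨τ z, 1, hz1⟩⟩
  have hm0 : minpoly K Z ≠ 0 := minpoly.ne_zero hZi
  have hirr' : Irreducible (minpoly K Z) := by
    refine ⟨fun h => minpoly.not_isUnit K Z h, fun a b hab => ?_⟩
    have hb0 : b ≠ 0 := by
      rintro rfl
      rw [mul_zero] at hab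
      exact hm0 hab
    have ha0 : a ≠ 0 := by
      rintro rfl
      rw [zero_mul] at hab
      exact hm0 hab
    have h0 : aeval Z b * aeval Z a = 0 := by
      rw [← map_mul, mul_comm, ← hab, minpoly.aeval]
    rcases hker b with h | h
    · right
      have h1 : aeval Z a = 0 := by
        apply LinearMap.ext
        intro x
        have h2 : aeval Z b (aeval Z a x) = 0 := congrArg (fun T : Module.End K W => T x) h0
        have h3 : aeval Z a x ∈ LinearMap.ker (aeval Z b) := h2
        rw [h, Submodule.mem_bot] at h3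
        exact h3
      obtain ⟨c, hc⟩ := minpoly.dvd K Z h1
      rw [hab] at hc
      refine IsUnit.of_mul_eq_one c ?_
      apply mul_left_cancel₀ ha0
      rw [mul_one, ← mul_assoc]
      exact hc.symm
    · left
      have h1 : aeval Z b = 0 := LinearMap.ker_eq_top.1 h
      obtain ⟨c, hc⟩ := minpoly.dvd K Z h1
      rw [hab] at hc
      refine IsUnit.of_mul_eq_one c ?_
      apply mul_left_cancel₀ hb0
      rw [mul_one, ← mul_assoc, mul_comm b a]
      exact hc.symm
  have hfact : Fact (Irreducible (minpoly K Z)) := ⟨hirr'⟩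
  let φ : AdjoinRoot (minpoly K Z) →+* Module.End K W :=
    Ideal.Quotient.lift _ ((aeval Z : K[X] →ₐ[K] Module.End K W) : K[X] →+* Module.End K W) (by
      intro f hf
      obtain ⟨c, hc⟩ := Ideal.mem_span_singleton.1 hf
      change aeval Z f = 0
      rw [hc, map_mul, minpoly.aeval, zero_mul])
  have hφ : ∀ f : K[X], φ (AdjoinRoot.mk _ f) = aeval Z f := fun f => rfl
  let mod : Module (AdjoinRoot (minpoly K Z)) W := Module.compHom W φ
  have hsm : ∀ (l : AdjoinRoot (minpoly K Z)) (w : W), l • w = φ l w := fun l w => rfl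
  have htower : IsScalarTower K (AdjoinRoot (minpoly K Z)) W := by
    refine ⟨fun c l w => ?_⟩
    rw [hsm, hsm, Algebra.smul_def, map_mul]
    have h1 : algebraMap K (AdjoinRoot (minpoly K Z)) c = AdjoinRoot.mk _ (C c) := rfl
    rw [h1, hφ, aeval_C]
    rfl
  let pb := AdjoinRoot.powerBasis hm0
  have hfin : FiniteDimensional K (AdjoinRoot (minpoly K Z)) := pb.finite
  have hfinL : FiniteDimensional (AdjoinRoot (minpoly K Z)) W := FiniteDimensional.right K _ W
  have hrk := Module.finrank_mul_finrank K (AdjoinRoot (minpoly K Z)) W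
  set ω : AdjoinRoot (minpoly K Z) := AdjoinRoot.root _ with hω
  have hωs : ∀ w : W, ω • w = Z w := by
    intro w
    have h1 : ω = AdjoinRoot.mk _ X := rfl
    rw [hsm, h1, hφ, aeval_X]
  have hω1 : ω ≠ 1 := by
    intro h
    apply hz1
    apply LinearMap.ext
    intro w
    have h1 := hωs w
    rw [h, one_smul] at h1
    exact h1.symm
  have hωq : ω ^ q = 1 := by
    have h1 : minpoly K Z ∣ X ^ q - 1 := by
      apply minpoly.dvd
      rw [map_sub, map_pow, aeval_X, map_one, hzq, sub_self]
    have h2 := AdjoinRoot.mk_eq_zero.2 h1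
    rw [map_sub, map_pow, map_one, sub_eq_zero] at h2
    exact h2
  have hωp : IsPrimitiveRoot ω q := by
    have h1 := orderOf_eq_prime hωq hω1
    rw [← h1]
    exact IsPrimitiveRoot.orderOf ω
  -- the determinant
  let τL : G →* (W →ₗ[AdjoinRoot (minpoly K Z)] W) :=
    { toFun := fun g =>
        { toFun := fun w => τ g w
          map_add' := fun a b => map_add _ _ _
          map_smul' := by
            intro l w
            obtain ⟨f, rfl⟩ := AdjoinRoot.mk_surjective l
            rw [hsm, RingHom.id_apply, hsm, hφ]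
            have h1 := congrArg (fun T : Module.End K W => T w) (hcomm f g)
            exact h1.symm }
      map_one' := by
        apply LinearMap.ext
        intro w
        change τ 1 w = w
        rw [map_one]
        rfl
      map_mul' := by
        intro a b
        apply LinearMap.ext
        intro w
        change τ (a * b) w = τ a (τ b w)
        rw [map_mul]
        rfl }
  let δ : G →* AdjoinRoot (minpoly K Z) := LinearMap.det.comp τL
  have hδ : δ z = 1 := by
    have h1 := Abelianization.commutator_subset_ker δ.toHomUnits hz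
    rw [MonoidHom.mem_ker] at h1
    have h2 := congrArg (fun u : (AdjoinRoot (minpoly K Z))ˣ => (u : AdjoinRoot (minpoly K Z))) h1
    exact h2
  have hδ' : δ z = ω ^ finrank (AdjoinRoot (minpoly K Z)) W := by
    have h1 : τL z = ω • (LinearMap.id : W →ₗ[AdjoinRoot (minpoly K Z)] W) := by
      apply LinearMap.ext
      intro w
      change τ z w = ω • w
      rw [hωs]
    change LinearMap.det (τL z) = _
    rw [h1, LinearMap.det_smul, LinearMap.det_id, mul_one]
  have hdvd : q ∣ finrank (AdjoinRoot (minpoly K Z)) W := by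
    apply hωp.dvd_of_pow_eq_one
    rw [← hδ', hδ]
  have hdeg : finrank K (AdjoinRoot (minpoly K Z)) = (minpoly K ζ).natDegree := by
    rw [pb.finrank, ← pb.natDegree_minpoly]
    have h1 : pb.gen = ω := AdjoinRoot.powerBasis_gen _
    rw [h1]
    exact natDegree_eq hζ hωp
  rw [← hrk, hdeg, mul_comm q]
  exact mul_dvd_mul_left _ hdvd

/-- the same for a minimal subspace -/
theorem dvd_finrank_sub {V : Type*} [AddCommGroup V] [Module K V] [FiniteDimensional K V] {q : ℕ}
    [hq : Fact q.Prime] (hG : IsPGroup q G) (ρ : Representation K G V) {S : Submodule K V}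
    (hS : Stable ρ S) (hirr : ∀ T ≤ S, Stable ρ T → T = ⊥ ∨ T = S)
    (hnt : ∃ g ∈ commutator G, ∃ x ∈ S, ρ g x ≠ x) {Ω : Type*} [Field Ω] [Algebra K Ω]
    [IsAlgClosed Ω] {ζ : Ω} (hζ : IsPrimitiveRoot ζ q) :
    q * (minpoly K ζ).natDegree ∣ finrank K S := by
  let σ : Subrepresentation ρ := ⟨S, fun g v hv => hS g v hv⟩
  refine dvd_finrank hG σ.toRepresentation ?_ ?_ hζ
  · intro T hT
    have h1 : Stable ρ (T.map S.subtype) := by
      rintro g _ ⟨x, hx, rfl⟩
      exact ⟨σ.toRepresentation g x, hT g x hx, rfl⟩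
    rcases hirr (T.map S.subtype) (Submodule.map_subtype_le S T) h1 with h | h
    · left
      exact Submodule.map_injective_of_injective S.injective_subtype
        (h.trans (Submodule.map_bot S.subtype).symm)
    · right
      apply Submodule.map_injective_of_injective S.injective_subtype
      rw [h, Submodule.map_top, Submodule.range_subtype]
  · obtain ⟨g, hg, x, hx, hgx⟩ := hnt
    refine ⟨g, hg, fun h => hgx ?_⟩
    have h1 := congrArg (fun T : Module.End K S => ((T ⟨x, hx⟩ : S) : V)) h
    exact h1

end Pool.Agent.X156.LD
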