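import Pool.Agent.X156.LD.Main

/-!
# Eigenspaces of a finite abelian group
-/

set_option autoImplicit false
set_option linter.unusedSectionVars false
set_option maxHeartbeats 1000000

namespace Pool.Agent.X156.LD

open Module

variable {K : Type} [Field K] {A : Type} [Group A] {V : Type} [AddCommGroup V] [Module K V]

/-- the eigenspace of a character -/
def eig (ρ : Representation K A V) (χ : A →* Kˣ) : Submodule K V where
  carrier := {x | ∀ a, ρ a x = ((χ a : Kˣ) : K) • x}
  add_mem' := by
    intro x y hx hy a
    rw [map_add, hx, hy, smul_add]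
  zero_mem' := by
    intro a
    rw [map_zero, smul_zero]
  smul_mem' := by
    intro c x hx a
    rw [map_smul, hx, smul_comm]

/-- **The dimension is the sum of the dimensions of the eigenspaces.** -/
theorem sum_eig [CharZero K] [IsAlgClosed K] [Finite A] (hA : ∀ a b : A, a * b = b * a)
    [FiniteDimensional K V] [Fintype (A →* Kˣ)] (ρ : Representation K A V) :
    ∀ (n : ℕ) (X : Submodule K V), finrank K X = n → Stable ρ X →
      ∑ χ : A →* Kˣ, finrank K (X ⊓ eig ρ χ : Submodule K V) = finrank K X := by
  classical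
  intro n
  induction n using Nat.strong_induction_on with
  | _ n ih =>
    intro X hn hX
    by_cases h0 : X = ⊥
    · subst h0
      rw [finrank_bot]
      refine Finset.sum_eq_zero fun χ _ => ?_
      rw [bot_inf_eq, finrank_bot]
    have hex : ∃ m : ℕ, ∃ S : Submodule K V, S ≤ X ∧ Stable ρ S ∧ S ≠ ⊥ ∧ finrank K S = m :=
      ⟨_, X, le_rfl, hX, h0, rfl⟩
    obtain ⟨S, hSX, hS, hS0, hSm⟩ := Nat.find_spec hex
    have hmin : ∀ T ≤ S, Stable ρ T → T = ⊥ ∨ T = S := by
      intro T hT hTs
      by_cases hT0 : T = ⊥
      · exact Or.inl hT0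
      · refine Or.inr (Submodule.eq_of_le_of_finrank_le hT ?_)
        rw [hSm]
        exact Nat.find_min' hex ⟨T, hT.trans hSX, hTs, hT0, rfl⟩
    obtain ⟨C, hC, hCX, hSC, hSC'⟩ := exists_compl ρ hS hX hSX
    have h1 := Submodule.finrank_sup_add_finrank_inf_eq S C
    rw [hSC, hSC', finrank_bot, add_zero, hn] at h1
    -- `S` is a line
    have hirr : (subRep ρ hS).IsIrreducible := subRep_irr ρ hS hS0 hmin
    have hcommA : IsMulCommutative A := ⟨⟨hA⟩⟩
    have hS1 : finrank K S = 1 :=
      Representation.IsIrreducible.finrank_eq_one_of_isMulCommutative (subRep ρ hS)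
    obtain ⟨⟨s, hsS⟩, hs0, hsp⟩ := finrank_eq_one_iff'.1 hS1
    have hs0' : s ≠ 0 := fun h => hs0 (Subtype.ext h)
    have hsp' : ∀ x ∈ S, ∃ c : K, c • s = x := by
      intro x hx
      obtain ⟨c, hc⟩ := hsp ⟨x, hx⟩
      exact ⟨c, congrArg (fun y : S => (y : V)) hc⟩
    choose c hc using fun a => hsp' (ρ a s) (hS a s hsS)
    let χ₀ : A →* K :=
      { toFun := c
        map_one' := by
          have h2 := hc 1
          rw [map_one] at h2
          have h3 : c 1 • s = (1 : K) • s := by rw [h2, one_smul]; rfl
          exact smul_left_injective K hs0' h3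
        map_mul' := by
          intro a b
          have h2 := hc (a * b)
          rw [map_mul] at h2
          have h3 : c (a * b) • s = (c a * c b) • s := by
            rw [h2]
            change ρ a (ρ b s) = _
            rw [← hc b, map_smul, ← hc a, smul_smul, mul_comm]
          exact smul_left_injective K hs0' h3 }
    have hSe : ∀ χ : A →* Kˣ, finrank K (S ⊓ eig ρ χ : Submodule K V) =
        if χ = χ₀.toHomUnits then 1 else 0 := by
      intro χ
      split_ifs with h
      · subst h
        have h2 : S ⊓ eig ρ χ₀.toHomUnits = S := by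
          apply inf_eq_left.2
          intro x hx a
          obtain ⟨d, rfl⟩ := hsp' x hx
          rw [map_smul, ← hc a, smul_comm]
          rfl
        rw [h2, hS1]
      · rw [Submodule.finrank_eq_zero, eq_bot_iff]
        rintro x ⟨hx, hxe⟩
        obtain ⟨d, rfl⟩ := hsp' x hx
        by_contra hd
        apply h
        have hd0 : d ≠ 0 := by
          rintro rfl
          apply hd
          rw [zero_smul]
          exact Submodule.zero_mem _
        ext a
        have h2 := hxe a
        rw [map_smul, ← hc a, smul_smul, smul_smul] at h2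
        have h3 := smul_left_injective K hs0' h2
        have h4 : c a * d = ((χ a : Kˣ) : K) * d := by rw [mul_comm]; exact h3
        exact (mul_right_cancel₀ hd0 h4).symm
    have h5 : ∀ χ : A →* Kˣ, finrank K (X ⊓ eig ρ χ : Submodule K V) =
        finrank K (S ⊓ eig ρ χ : Submodule K V) + finrank K (C ⊓ eig ρ χ : Submodule K V) := by
      intro χ
      have h5 : (X ⊓ eig ρ χ : Submodule K V) = (S ⊓ eig ρ χ) ⊔ (C ⊓ eig ρ χ) := by
        apply le_antisymm
        · rintro x ⟨hx, hxf⟩
          have hx' : x ∈ S ⊔ C := by rw [hSC']; exact hx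
          obtain ⟨s, hs, d, hd, rfl⟩ := Submodule.mem_sup.1 hx'
          have h6 : ∀ a, ρ a s = ((χ a : Kˣ) : K) • s ∧ ρ a d = ((χ a : Kˣ) : K) • d := by
            intro a
            have h7 := hxf a
            rw [map_add, smul_add] at h7
            have h8 : ρ a s - ((χ a : Kˣ) : K) • s ∈ S ⊓ C := by
              refine ⟨S.sub_mem (hS a s hs) (S.smul_mem _ hs), ?_⟩
              have h9 : ρ a s - ((χ a : Kˣ) : K) • s = ((χ a : Kˣ) : K) • d - ρ a d := by
                rw [sub_eq_sub_iff_add_eq_add, h7, add_comm]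
              rw [h9]
              exact C.sub_mem (C.smul_mem _ hd) (hC a d hd)
            rw [hSC, Submodule.mem_bot, sub_eq_zero] at h8
            refine ⟨h8, ?_⟩
            rw [h8] at h7
            exact add_left_cancel h7
          exact Submodule.add_mem_sup ⟨hs, fun a => (h6 a).1⟩ ⟨hd, fun a => (h6 a).2⟩
        · exact sup_le (inf_le_inf_right _ hSX) (inf_le_inf_right _ hCX)
      have h6 : ((S ⊓ eig ρ χ) ⊓ (C ⊓ eig ρ χ) : Submodule K V) = ⊥ := by
        rw [eq_bot_iff, ← hSC]
        exact le_inf (inf_le_left.trans inf_le_left) (inf_le_right.trans inf_le_left)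
      have h7 := Submodule.finrank_sup_add_finrank_inf_eq (S ⊓ eig ρ χ) (C ⊓ eig ρ χ)
      rw [← h5, h6, finrank_bot, add_zero] at h7
      exact h7
    have h6 := ih (finrank K C) (by omega) C rfl hC
    rw [Finset.sum_congr rfl fun χ _ => h5 χ, Finset.sum_add_distrib, h6, hn,
      Finset.sum_congr rfl fun χ _ => hSe χ, Finset.sum_ite_eq' Finset.univ χ₀.toHomUnits,
      if_pos (Finset.mem_univ _), h1, hS1]

end Pool.Agent.X156.LD
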