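import Pool.Agent.X156.LD.Main
import Pool.Agent.X156.SD.Hmf

/-!
# Congruences for the dimensions of the invariants of subgroups
-/

set_option autoImplicit false
set_option linter.unusedSectionVars false
set_option maxHeartbeats 1000000

namespace Pool.Agent.X156.LD

open Module Pool.Agent.X156.SD

section

variable {K : Type*} [Field K] {G : Type*} [Group G] {V : Type*} [AddCommGroup V] [Module K V]

lemma fixed_stable (ρ : Representation K G V) (N : Subgroup G) [N.Normal] :
    Stable ρ (fixed ρ N) := by
  intro g x hx h hh
  have h1 : g⁻¹ * h * g ∈ N := by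
    have h2 := (inferInstance : N.Normal).conj_mem h hh g⁻¹
    rwa [inv_inv] at h2
  have h2 : h * g = g * (g⁻¹ * h * g) := by group
  change (ρ h * ρ g) x = ρ g x
  rw [← map_mul, h2, map_mul]
  change ρ g (ρ (g⁻¹ * h * g) x) = ρ g x
  rw [hx _ h1]

/-- a normal subgroup whose quotient has prime power order -/
theorem quot_modEq [CharZero K] [Finite G] [FiniteDimensional K V] {q : ℕ} [hq : Fact q.Prime]
    (N : Subgroup G) [hN : N.Normal] (hG : IsPGroup q (G ⧸ N)) (ρ : Representation K G V)
    {Ω : Type*} [Field Ω] [Algebra K Ω] [IsAlgClosed Ω] {ζ : Ω} (hζ : IsPrimitiveRoot ζ q) :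
    finrank K (fixed ρ N) ≡ finrank K (fixed ρ (N ⊔ commutator G))
      [MOD q * (minpoly K ζ).natDegree] := by
  have hst : Stable ρ (fixed ρ N) := fixed_stable ρ N
  set τ : Representation K G (fixed ρ N) := subRep ρ hst with hτ
  have hτN : ∀ n ∈ N, τ n = 1 := by
    intro n hn
    apply LinearMap.ext
    intro x
    apply Subtype.ext
    exact x.2 n hn
  set τ' : Representation K (G ⧸ N) (fixed ρ N) := QuotientGroup.lift N τ hτN with hτ'
  have hval : ∀ (g : G) (x : fixed ρ N), τ' (g : G ⧸ N) x = τ g x := by
    intro g x
    rw [hτ', QuotientGroup.lift_mk]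
  have h1 := pgroup_modEq hG τ' hζ
  have h2 : fixed τ' (commutator (G ⧸ N)) = fixed τ (commutator G) := by
    have h3 : (commutator G).map (QuotientGroup.mk' N) = commutator (G ⧸ N) := by
      rw [commutator_def, commutator_def, Subgroup.map_commutator,
        Subgroup.map_top_of_surjective _ (QuotientGroup.mk'_surjective N)]
    apply le_antisymm
    · intro x hx g hg
      rw [← hval]
      apply hx
      rw [← h3]
      exact ⟨g, hg, rfl⟩
    · intro x hx g hg
      rw [← h3] at hg
      obtain ⟨g', hg', rfl⟩ := hg
      change τ' (g' : G ⧸ N) x = x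
      rw [hval]
      exact hx g' hg'
  have h7 : (fixed ρ N ⊓ fixed ρ (commutator G) : Submodule K V) =
      fixed ρ (N ⊔ commutator G) := by
    apply le_antisymm
    · rintro x ⟨hx1, hx2⟩
      have h5 : N ⊔ commutator G ≤
          { carrier := {g : G | ρ g x = x}
            mul_mem' := by
              intro a b ha hb
              change ρ (a * b) x = x
              rw [map_mul]
              change ρ a (ρ b x) = x
              rw [hb, ha]
            one_mem' := by
              change ρ 1 x = x
              rw [map_one]
              rfl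
            inv_mem' := by
              intro a ha
              change ρ a⁻¹ x = x
              have h6 : ρ a x = x := ha
              conv_lhs => rw [← h6]
              change (ρ a⁻¹ * ρ a) x = x
              rw [← map_mul, inv_mul_cancel, map_one]
              rfl : Subgroup G } := sup_le hx1 hx2
      exact fun g hg => h5 hg
    · intro x hx
      exact ⟨fun g hg => hx g (Subgroup.mem_sup_left hg),
        fun g hg => hx g (Subgroup.mem_sup_right hg)⟩
  have h4 : finrank K (fixed τ (commutator G)) = finrank K (fixed ρ (N ⊔ commutator G)) := by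
    rw [hτ, finrank_subRep, h7]
  rw [h2, h4] at h1
  exact h1

/-- the restriction to a subgroup -/
lemma finrank_restrict (ρ : Representation K G V) {H X : Subgroup G} (Y : Subgroup H)
    (hY : Y.map H.subtype = X) :
    finrank K (fixed (ρ.comp H.subtype : Representation K H V) Y) = finrank K (fixed ρ X) := by
  have h1 : fixed (ρ.comp H.subtype : Representation K H V) Y = fixed ρ X := by
    apply le_antisymm
    · intro x hx g hg
      rw [← hY] at hg
      obtain ⟨g', hg', rfl⟩ := hg
      exact hx g' hg'
    · intro x hx g hg
      exact hx g.1 (by rw [← hY]; exact ⟨g, hg, rfl⟩)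
  rw [h1]

end

/-- **Layers of prime power degree.** -/
theorem layer_modEq {G : Type} [Group G] [Finite G] {E : Type} [Field E] [CharZero E] {R : Type}
    [AddCommGroup R] [Module E R] [FiniteDimensional E R] (r : G →* (R →ₗ[E] R))
    {q : ℕ} [hq : Fact q.Prime] {H N : Subgroup G} (hNH : N ≤ H)
    (hN : (N.subgroupOf H).Normal) {a : ℕ} (ha : N.relIndex H = q ^ a)
    {Ω : Type} [Field Ω] [Algebra E Ω] [IsAlgClosed Ω] {ζ : Ω} (hζ : IsPrimitiveRoot ζ q) :
    finrank E (fixS r N) ≡ finrank E (fixS r (N ⊔ ⁅H, H⁆)) [MOD q * (minpoly E ζ).natDegree] := by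
  have hp : IsPGroup q (H ⧸ N.subgroupOf H) := by
    apply IsPGroup.of_card (n := a)
    rw [← ha]
    rfl
  have h1 := quot_modEq (N.subgroupOf H) hp (MonoidHom.comp r H.subtype : Representation E H R) hζ
  have e1 : (N.subgroupOf H).map H.subtype = N := by
    rw [Subgroup.subgroupOf_map_subtype, inf_eq_left.2 hNH]
  have e2 : (N.subgroupOf H ⊔ commutator H).map H.subtype = N ⊔ ⁅H, H⁆ := by
    rw [Subgroup.map_sup, e1, Subgroup.map_subtype_commutator]
  have h2 := finrank_restrict (r : Representation E G R) (N.subgroupOf H) e1
  have h3 := finrank_restrict (r : Representation E G R) (N.subgroupOf H ⊔ commutator H) e2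
  have e3 : ∀ X : Subgroup G, finrank E (fixed (r : Representation E G R) X) =
      finrank E (fixS r X) := fun X => by
    have h4 : fixed (r : Representation E G R) X = fixS r X := by
      apply le_antisymm
      · exact fun x hx => hx
      · exact fun x hx => hx
    rw [h4]
  rw [e3] at h2 h3
  rw [← h2, ← h3]
  exact h1

end Pool.Agent.X156.LD
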