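import Pool.Agent.X156.LD.Ker

/-!
# The kernel of the logarithms and fixed fields
-/

set_option autoImplicit false
set_option linter.unusedSectionVars false

namespace Pool.Agent.X156.LD

open NumberField Module TensorProduct Pool.Agent.W289.SL Pool.Agent.W332.SL6 Pool.Agent.X328.LP

variable {p : ℕ} [hp : Fact p.Prime]
variable {k F : Type} [Field k] [NumberField k] [Field F] [NumberField F] [Algebra k F]

/-- a unit of `F` invariant under the group `P` is a unit of the fixed field -/
lemma exists_unit' (P : Subgroup (F ≃ₐ[k] F)) (u : Additive (𝓞 F)ˣ) (hu : ∀ g ∈ P, gu g u = u) :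
    ∃ v : Additive (𝓞 (IntermediateField.fixedField P))ˣ,
      uMap (algebraMap (IntermediateField.fixedField P) F) v = u := by
  set E := IntermediateField.fixedField P with hE
  have hmem : ∀ u : Additive (𝓞 F)ˣ, (∀ g ∈ P, gu g u = u) →
      (((Additive.toMul u : (𝓞 F)ˣ) : 𝓞 F) : F) ∈ E := by
    intro u hu
    rw [hE, IntermediateField.mem_fixedField_iff]
    intro g hg
    rw [← gu_coe, hu g hg]
  have h1 := hmem u hu
  have h2 := hmem (-u) (fun g hg => by rw [map_neg, hu g hg])
  have hint : ∀ x : 𝓞 F, (x : F) ∈ E → ∃ y : 𝓞 E, algebraMap E F y = x := by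
    intro x hx
    refine ⟨⟨⟨x, hx⟩, ?_⟩, rfl⟩
    have h3 : IsIntegral ℤ (algebraMap E F ⟨x, hx⟩) := x.2
    exact (isIntegral_algebraMap_iff (algebraMap E F).injective).1 h3
  obtain ⟨y, hy⟩ := hint _ h1
  obtain ⟨z, hz⟩ := hint _ h2
  have hyz : y * z = 1 := by
    apply RingOfIntegers.ext
    apply (algebraMap E F).injective
    have h3 : ((Additive.toMul u : (𝓞 F)ˣ) : 𝓞 F) * ((Additive.toMul (-u) : (𝓞 F)ˣ) : 𝓞 F) = 1 := by
      rw [toMul_neg, Units.mul_inv]
    have h4 := congrArg (fun x : 𝓞 F => (x : F)) h3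
    change algebraMap E F ((y : E) * (z : E)) = algebraMap E F 1
    rw [map_mul, hy, hz, map_one]
    exact h4
  refine ⟨Additive.ofMul ⟨y, z, hyz, by rw [mul_comm, hyz]⟩, ?_⟩
  apply Additive.toMul.injective
  apply Units.ext
  apply RingOfIntegers.ext
  exact hy

open Classical in
/-- the norm of units to the fixed field -/
lemma exists_norm' (P : Subgroup (F ≃ₐ[k] F)) [Fintype (F ≃ₐ[k] F)] :
    ∃ ν : Additive (𝓞 F)ˣ →+ Additive (𝓞 (IntermediateField.fixedField P))ˣ, ∀ u,
      uMap (algebraMap (IntermediateField.fixedField P) F) (ν u) =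
        ∑ g : F ≃ₐ[k] F with g ∈ P, gu g u := by
  have h1 : ∀ u : Additive (𝓞 F)ˣ, ∀ h ∈ P,
      gu h (∑ g : F ≃ₐ[k] F with g ∈ P, gu g u) = ∑ g : F ≃ₐ[k] F with g ∈ P, gu g u := by
    intro u h hh
    rw [map_sum]
    refine Finset.sum_bij' (fun x _ => h * x) (fun x _ => h⁻¹ * x) ?_ ?_ ?_ ?_ ?_
    · intro x hx
      simp only [Finset.mem_filter, Finset.mem_univ, true_and] at hx ⊢
      exact P.mul_mem hh hx
    · intro x hx
      simp only [Finset.mem_filter, Finset.mem_univ, true_and] at hx ⊢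
      exact P.mul_mem (P.inv_mem hh) hx
    · intro x _; simp
    · intro x _; simp
    · intro x _
      rw [gu_mul]
  choose ν hν using fun u => exists_unit' P _ (h1 u)
  refine ⟨AddMonoidHom.mk' ν fun a b => ?_, hν⟩
  apply uMap_inj (algebraMap (IntermediateField.fixedField P) F)
  rw [map_add, hν, hν, hν, ← Finset.sum_add_distrib]
  refine Finset.sum_congr rfl fun g _ => ?_
  rw [map_add]

lemma push_inj {E M : Type} [Field E] [NumberField E] [Field M] [NumberField M] (f : E →+* M) :
    Function.Injective (push (p := p) f) :=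
  Module.Flat.lTensor_preserves_injective_linearMap (M := ℂ_[p]) (uMap f).toIntLinearMap (uMap_inj f)

/-- the fixed vectors of the kernel -/
noncomputable def fix {L : ℂ_[p] → ℂ_[p]} (hL : IsIwasawaLog p L) (P : Subgroup (F ≃ₐ[k] F)) :
    Submodule ℚ_[p] (UM p F) := KQ hL F ⊓ fixed (rho p k F) P

/-- **Descent.** -/
theorem finrank_fix {L : ℂ_[p] → ℂ_[p]} (hL : IsIwasawaLog p L) (P : Subgroup (F ≃ₐ[k] F)) :
    finrank ℚ_[p] (KQ hL (IntermediateField.fixedField P)) = finrank ℚ_[p] (fix hL P) := by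
  classical
  have hfd : FiniteDimensional k F := Module.Finite.of_restrictScalars_finite ℚ k F
  have : Fintype (F ≃ₐ[k] F) := Fintype.ofFinite _
  set E := IntermediateField.fixedField P with hE
  set j : E →+* F := algebraMap E F with hj
  let J : UM p E →ₗ[ℚ_[p]] UM p F := (push j).restrictScalars ℚ_[p]
  have hJinj : Function.Injective J := push_inj j
  obtain ⟨ν, hν⟩ := exists_norm' P
  let N : UM p F →ₗ[ℚ_[p]] UM p E := (ν.toIntLinearMap.baseChange ℂ_[p]).restrictScalars ℚ_[p]
  have hJN : ∀ x : UM p F, J (N x) = ∑ g : F ≃ₐ[k] F with g ∈ P, rho p k F g x := by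
    intro x
    induction x using TensorProduct.induction_on with
    | zero => simp
    | tmul c u =>
      have h2 : N (c ⊗ₜ u) = c ⊗ₜ ν u := rfl
      change push j (N (c ⊗ₜ u)) = _
      rw [h2, push_tmul, hν, TensorProduct.tmul_sum]
      rfl
    | add x y hx hy =>
      rw [map_add, map_add, hx, hy, ← Finset.sum_add_distrib]
      refine Finset.sum_congr rfl fun g _ => ?_
      rw [map_add]
  have hmap : (KQ hL E).map J = fix hL P := by
    apply le_antisymm
    · rintro _ ⟨x, ⟨hx, hx'⟩, rfl⟩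
      refine ⟨⟨?_, fun σ => ?_⟩, ?_⟩
      · have h1 : UQ p E ≤ (UQ p F).comap J := by
          unfold UQ
          rw [Submodule.span_le]
          rintro _ ⟨u, rfl⟩
          exact Submodule.subset_span ⟨uMap j u, rfl⟩
        exact h1 hx
      · change logLin hL σ (push j x) = 0
        rw [logLin_push]
        exact hx' _
      · intro g hg
        change push (g : F →+* F) (push j x) = push j x
        rw [push_push]
        congr 2
        refine RingHom.ext fun y => ?_
        exact (IntermediateField.mem_fixedField_iff P _).1 y.2 g hg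
    · rintro y ⟨⟨hy, hy'⟩, hyf⟩
      have hc : (Nat.card P : ℚ_[p]) ≠ 0 := Nat.cast_ne_zero.2 Nat.card_pos.ne'
      have h1 : J ((Nat.card P : ℚ_[p])⁻¹ • N y) = y := by
        rw [map_smul, hJN, Finset.sum_congr rfl (g := fun _ => y), Finset.sum_const, card_filter,
          ← Nat.cast_smul_eq_nsmul ℚ_[p], smul_smul, inv_mul_cancel₀ hc, one_smul]
        intro g hg
        exact hyf g (Finset.mem_filter.1 hg).2
      refine ⟨(Nat.card P : ℚ_[p])⁻¹ • N y, ⟨?_, fun σ' => ?_⟩, h1⟩
      · apply Submodule.smul_mem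
        have h2 : UQ p F ≤ (UQ p E).comap N := by
          unfold UQ
          rw [Submodule.span_le]
          rintro _ ⟨u, rfl⟩
          exact Submodule.subset_span ⟨ν u, rfl⟩
        exact h2 hy
      · obtain ⟨σ, h4⟩ := exists_extC (F := E) (K := F) σ'
        rw [← h4, ← logLin_push]
        change logLin hL σ (J ((Nat.card P : ℚ_[p])⁻¹ • N y)) = 0
        rw [h1]
        exact hy' σ
  rw [← hmap]
  exact (Submodule.equivMapOfInjective J hJinj _).finrank_eq

/-- the representation on the kernel -/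
noncomputable def kerRep {L : ℂ_[p] → ℂ_[p]} (hL : IsIwasawaLog p L) (k F : Type) [Field k]
    [NumberField k] [Field F] [NumberField F] [Algebra k F] :
    Representation ℚ_[p] (F ≃ₐ[k] F) (KQ hL F) :=
  (⟨KQ hL F, fun g x hx => by
    refine ⟨?_, fun σ => ?_⟩
    · have h2 : UQ p F ≤ (UQ p F).comap (rho p k F g) := by
        unfold UQ
        rw [Submodule.span_le]
        rintro _ ⟨u, rfl⟩
        exact Submodule.subset_span ⟨gu g u, rfl⟩
      exact h2 hx.1
    · rw [logLin_rho]
      exact hx.2 _⟩ : Subrepresentation (rho p k F)).toRepresentation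

lemma kerRep_coe {L : ℂ_[p] → ℂ_[p]} (hL : IsIwasawaLog p L) (g : F ≃ₐ[k] F) (x : KQ hL F) :
    ((kerRep hL k F g x : KQ hL F) : UM p F) = rho p k F g x := rfl

lemma finrank_fix' {L : ℂ_[p] → ℂ_[p]} (hL : IsIwasawaLog p L) (P : Subgroup (F ≃ₐ[k] F)) :
    finrank ℚ_[p] (fix hL P) = finrank ℚ_[p] (fixed (kerRep hL k F) P) := by
  have h1 : fix hL P = (fixed (kerRep hL k F) P).map (KQ hL F).subtype := by
    apply le_antisymm
    · rintro x ⟨hx, hxf⟩
      refine ⟨⟨x, hx⟩, fun g hg => ?_, rfl⟩
      apply Subtype.ext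
      exact hxf g hg
    · rintro _ ⟨x, hx, rfl⟩
      refine ⟨x.2, fun g hg => ?_⟩
      have h2 := congrArg (fun y : KQ hL F => (y : UM p F)) (hx g hg)
      exact h2
  rw [h1]
  exact (Submodule.equivMapOfInjective _ (Submodule.subtype_injective _) _).symm.finrank_eq

/-- **The defect of a fixed field.** -/
theorem isDefect_fixed {L : ℂ_[p] → ℂ_[p]} (hL : IsIwasawaLog p L) (P : Subgroup (F ≃ₐ[k] F)) :
    IsDefect p (IntermediateField.fixedField P)
      (finrank ℚ_[p] (fixed (kerRep hL k F) P)) := by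
  rw [← finrank_fix', ← finrank_fix]
  exact isDefect hL

end Pool.Agent.X156.LD
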