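import Pool.Agent.X156.LD.Rel2

/-!
# The rank of the closure of the group generated by a Galois orbit
-/

set_option autoImplicit false
set_option linter.unusedSectionVars false
set_option maxHeartbeats 1000000

namespace Pool.Agent.X156.LD

open NumberField Module TensorProduct Filter Topology Pool.Agent.W289.SL Pool.Agent.W332.SL6
  Pool.Agent.X328.LP Pool.Agent.Y419.LC.LcpP

variable {p : ℕ} [hp : Fact p.Prime] {F : Type} [Field F] [NumberField F]

/-- a maximal multiplicatively independent family of elements of `L` -/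
def IsMaxFamily {F : Type} [Field F] (L : Subgroup Fˣ) {r : ℕ} (β : Fin r → Fˣ) : Prop :=
  (∀ i, β i ∈ L) ∧ (∀ c : Fin r → ℤ, ∏ i, β i ^ c i = 1 → c = 0) ∧
    ∀ x ∈ L, ∃ n : ℕ, n ≠ 0 ∧ x ^ n ∈ Subgroup.closure (Set.range β)

/-- the group generated by the conjugates of `α` -/
noncomputable def orbitGroup (k : Type) {F : Type} [Field k] [Field F] [Algebra k F] (α : Fˣ) :
    Subgroup Fˣ :=
  Subgroup.closure (Set.range fun g : F ≃ₐ[k] F => Units.map (((g : F →+* F) : F →* F)) α)

lemma torsion_of_vec {u : Fˣ} (hu : vec p u = 0) : ∃ m : ℕ, m ≠ 0 ∧ u ^ m = 1 := by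
  by_contra hcon
  push Not at hcon
  have hli : LinearIndependent ℤ (fun _ : Fin 1 => (Additive.ofMul u : Additive Fˣ)) := by
    rw [Fintype.linearIndependent_iff]
    intro c hc i
    rw [Fin.sum_univ_one, ← ofMul_zpow] at hc
    have h1 : u ^ c 0 = 1 := by
      have h2 := congrArg Additive.toMul hc
      exact h2
    have hi : i = 0 := Subsingleton.elim _ _
    rw [hi]
    by_contra h0
    have h2 : u ^ (c 0).natAbs = 1 := by
      rcases Int.natAbs_eq (c 0) with h3 | h3
      · rw [h3, zpow_natCast] at h1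
        exact h1
      · rw [h3, zpow_neg, zpow_natCast, inv_eq_one] at h1
        exact h1
    exact hcon _ (Int.natAbs_ne_zero.2 h0) h2
  have hli' := Module.Flat.linearIndependent_one_tmul (S := ℂ_[p]) hli
  exact hli'.ne_zero 0 hu

lemma vec_mem {R : Type} [Field R] [Module R (UF p F)] {S : Set Fˣ} {x : Fˣ}
    (hx : x ∈ Subgroup.closure S) : vec p x ∈ Submodule.span R (vec p '' S) := by
  induction hx using Subgroup.closure_induction with
  | mem x hx => exact Submodule.subset_span ⟨x, hx, rfl⟩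
  | one => rw [vec_one]; exact Submodule.zero_mem _
  | mul x y _ _ hx hy => rw [vec_mul]; exact Submodule.add_mem _ hx hy
  | inv x _ hx => rw [vec_inv]; exact Submodule.neg_mem _ hx

lemma norm_mem {σ : F →+* ℂ_[p]} {S : Set Fˣ} (hS : ∀ x ∈ S, ‖σ (x : F)‖ = 1) {x : Fˣ}
    (hx : x ∈ Subgroup.closure S) : ‖σ (x : F)‖ = 1 := by
  induction hx using Subgroup.closure_induction with
  | mem x hx => exact hS x hx
  | one => rw [Units.val_one, map_one, norm_one]
  | mul x y _ _ hx hy => rw [Units.val_mul, map_mul, norm_mul, hx, hy, mul_one]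
  | inv x _ hx => rw [Units.val_inv_eq_inv_val, map_inv₀, norm_inv, hx, inv_one]

/-- the combinations -/
noncomputable def PhiF {r : ℕ} (β : Fin r → Fˣ) : (Fin r → ℚ_[p]) →ₗ[ℚ_[p]] UF p F :=
  Fintype.linearCombination ℚ_[p] (fun i => vec p (β i))

lemma PhiF_apply {r : ℕ} (β : Fin r → Fˣ) (a : Fin r → ℚ_[p]) :
    PhiF β a = ∑ i, a i • vec p (β i) := by
  unfold PhiF
  rw [Fintype.linearCombination_apply]

lemma PhiF_inj {r : ℕ} (β : Fin r → Fˣ) (hind : ∀ c : Fin r → ℤ, ∏ i, β i ^ c i = 1 → c = 0) :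
    Function.Injective (PhiF (p := p) β) := by
  have hli : LinearIndependent ℤ (fun i => (Additive.ofMul (β i) : Additive Fˣ)) := by
    rw [Fintype.linearIndependent_iff]
    intro c hc
    have h1 : ∏ i, β i ^ c i = 1 := by
      have h2 := congrArg Additive.toMul hc
      rw [toMul_sum, toMul_zero] at h2
      exact h2
    exact congrFun (hind c h1)
  have hli' := Module.Flat.linearIndependent_one_tmul (S := ℂ_[p]) hli
  have h1 : LinearIndependent ℚ_[p] (fun i => vec p (β i)) := by
    refine hli'.restrict_scalars ?_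
    intro a b hab
    simp only [Algebra.smul_def, mul_one] at hab
    exact (algebraMap ℚ_[p] ℂ_[p]).injective hab
  exact linearIndependent_iff_injective_fintypeLinearCombination.1 h1

variable {k : Type} [Field k] [NumberField k] [Algebra k F]

lemma range_PhiF (α : Fˣ) {r : ℕ} {β : Fin r → Fˣ} (hβ : IsMaxFamily (orbitGroup k α) β) :
    LinearMap.range (PhiF (p := p) β) = UO p k α := by
  have himg : UO p k α = Submodule.span ℚ_[p] (vec p ''
      (Set.range fun g : F ≃ₐ[k] F => gF g α)) := by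
    unfold UO
    rw [← Set.range_comp]
    rfl
  have hr : LinearMap.range (PhiF (p := p) β) = Submodule.span ℚ_[p] (vec p '' Set.range β) := by
    unfold PhiF
    rw [Fintype.range_linearCombination, ← Set.range_comp]
    rfl
  apply le_antisymm
  · rw [hr, Submodule.span_le]
    rintro _ ⟨_, ⟨i, rfl⟩, rfl⟩
    rw [himg]
    exact vec_mem (hβ.1 i)
  · rw [himg, Submodule.span_le]
    rintro _ ⟨_, ⟨g, rfl⟩, rfl⟩
    obtain ⟨n, hn, h1⟩ := hβ.2.2 (gF g α) (Subgroup.subset_closure ⟨g, rfl⟩)
    have h2 : vec p (gF g α ^ n) ∈ Submodule.span ℚ_[p] (vec p '' Set.range β) := vec_mem h1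
    have h3 := vec_zpow (p := p) (gF g α) (n : ℤ)
    rw [zpow_natCast, Int.cast_natCast] at h3
    rw [h3] at h2
    have hn' : (n : ℚ_[p]) ≠ 0 := by exact_mod_cast hn
    have h4 := Submodule.smul_mem _ ((n : ℚ_[p])⁻¹) h2
    rw [smul_smul, inv_mul_cancel₀ hn', one_smul] at h4
    rw [hr]
    exact h4

/-- **The rank of the module of relations.** -/
theorem finrank_padicRelations {L : ℂ_[p] → ℂ_[p]} (hL : IsIwasawaLog p L) (α : Fˣ)
    (hα : ∀ σ : F →+* ℂ_[p], ‖σ (α : F)‖ = 1) {r : ℕ} {β : Fin r → Fˣ}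
    (hβ : IsMaxFamily (orbitGroup k α) β) :
    finrank ℤ_[p] (padicRelations p β) = finrank ℚ_[p] (KO hL k α) := by
  have hβ1 : ∀ (σ : F →+* ℂ_[p]) i, ‖σ (β i : F)‖ = 1 := by
    intro σ i
    refine norm_mem ?_ (hβ.1 i)
    rintro _ ⟨g, rfl⟩
    exact hα (σ.comp (g : F →+* F))
  set A := (KO hL k α).comap (PhiF (p := p) β) with hA
  have hmem : ∀ a : Fin r → ℚ_[p], a ∈ A ↔ ∀ σ : F →+* ℂ_[p],
      ∑ i, algebraMap ℚ_[p] ℂ_[p] (a i) * L (σ (β i : F)) = 0 := by
    intro a
    have h1 : ∀ σ : F →+* ℂ_[p], logF hL σ (PhiF β a) =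
        ∑ i, algebraMap ℚ_[p] ℂ_[p] (a i) * L (σ (β i : F)) := by
      intro σ
      rw [PhiF_apply, map_sum]
      refine Finset.sum_congr rfl fun i _ => ?_
      rw [logF_smulQ, logF_vec]
    constructor
    · intro h σ
      rw [← h1]
      exact h.2 σ
    · intro h
      refine ⟨?_, fun σ => ?_⟩
      · rw [← range_PhiF α hβ]
        exact ⟨a, rfl⟩
      · rw [h1]
        exact h σ
  let ι : (Fin r → ℤ_[p]) →ₗ[ℤ_[p]] (Fin r → ℚ_[p]) :=
    (Algebra.linearMap ℤ_[p] ℚ_[p]).compLeft (Fin r)
  have hι : ∀ a i, ι a i = (a i : ℚ_[p]) := fun a i => rfl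
  have hιinj : Function.Injective ι := by
    intro a b hab
    funext i
    exact PadicInt.ext (congrFun hab i)
  obtain ⟨N, hN, hrel⟩ := rel_of_log hL β hβ1
  have hle : ∀ a ∈ padicRelations p β, ι a ∈ A := by
    have h1 : padicRelations p β ≤ (A.restrictScalars ℤ_[p]).comap ι := by
      unfold padicRelations
      rw [Submodule.span_le]
      intro a ha
      change ι a ∈ A
      rw [hmem]
      intro σ
      exact log_of_rel hL β ha σ
    exact fun a ha => h1 ha
  obtain ⟨s, ⟨b⟩⟩ := Submodule.nonempty_basis_of_pid (Pi.basisFun ℤ_[p] (Fin r))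
    (padicRelations p β)
  let v : Fin s → (Fin r → ℚ_[p]) := fun i => ι (b i)
  have hvli : LinearIndependent ℤ_[p] v := by
    have h1 := b.linearIndependent.map' (ι ∘ₗ (padicRelations p β).subtype) (by
      rw [LinearMap.ker_eq_bot]
      exact hιinj.comp (Submodule.subtype_injective _))
    exact h1
  have hvli' : LinearIndependent ℚ_[p] v := (LinearIndependent.iff_fractionRing ℤ_[p] ℚ_[p]).1 hvli
  have hspan : Submodule.span ℚ_[p] (Set.range v) = A := by
    apply le_antisymm
    · rw [Submodule.span_le]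
      rintro _ ⟨i, rfl⟩
      exact hle _ (b i).2
    · intro a ha
      obtain ⟨c, hc⟩ := IsLocalization.exist_integer_multiples_of_finite (nonZeroDivisors ℤ_[p]) a
      choose a' ha' using hc
      have hc0 : (((c : ℤ_[p])) : ℚ_[p]) ≠ 0 := by
        have h1 := nonZeroDivisors.ne_zero c.2
        intro h2
        exact h1 (PadicInt.coe_eq_zero.1 h2)
      have h1 : ∀ i, ((a' i : ℤ_[p]) : ℚ_[p]) = (c : ℤ_[p]) * a i := by
        intro i
        have h2 := ha' i
        rw [Algebra.smul_def] at h2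
        exact h2
      have h2 : IsPadicRelation p β (fun i => (N : ℤ_[p]) * a' i) := by
        apply hrel
        intro σ
        have h3 : ∑ i, algebraMap ℚ_[p] ℂ_[p] ((a' i : ℤ_[p]) : ℚ_[p]) * L (σ (β i : F)) =
            algebraMap ℚ_[p] ℂ_[p] (c : ℤ_[p]) *
              ∑ i, algebraMap ℚ_[p] ℂ_[p] (a i) * L (σ (β i : F)) := by
          rw [Finset.mul_sum]
          refine Finset.sum_congr rfl fun i _ => ?_
          rw [h1, map_mul, mul_assoc]
        rw [h3, (hmem a).1 ha σ, mul_zero]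
      have h3 : (fun i => (N : ℤ_[p]) * a' i) ∈ padicRelations p β := Submodule.subset_span h2
      have h4 : ι (fun i => (N : ℤ_[p]) * a' i) ∈ Submodule.span ℚ_[p] (Set.range v) := by
        have h5 := b.sum_repr ⟨_, h3⟩
        have h6 := congrArg (fun x : padicRelations p β => ι (x : Fin r → ℤ_[p])) h5
        simp only at h6
        rw [← h6, Submodule.coe_sum, map_sum]
        refine Submodule.sum_mem _ fun i _ => ?_
        rw [Submodule.coe_smul, map_smul, ← algebraMap_smul ℚ_[p]]
        exact Submodule.smul_mem _ _ (Submodule.subset_span ⟨i, rfl⟩)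
      have h5 : a = ((N : ℚ_[p]) * ((c : ℤ_[p]) : ℚ_[p]))⁻¹ • ι (fun i => (N : ℤ_[p]) * a' i) := by
        funext i
        have hN' : (N : ℚ_[p]) ≠ 0 := by exact_mod_cast hN
        rw [Pi.smul_apply, hι, smul_eq_mul, PadicInt.coe_mul, h1]
        have h6 : (((N : ℤ_[p])) : ℚ_[p]) = (N : ℚ_[p]) := by simp
        rw [h6]
        field_simp
      rw [h5]
      exact Submodule.smul_mem _ _ h4
  have h1 : KO hL k α = A.map (PhiF β) := by
    rw [hA, Submodule.map_comap_eq, range_PhiF α hβ]
    exact (inf_eq_right.2 (KO_le hL α)).symm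
  rw [finrank_eq_card_basis b, ← finrank_span_eq_card hvli', hspan, h1]
  exact (Submodule.equivMapOfInjective (PhiF β) (PhiF_inj β hβ.2.1) _).finrank_eq

/-- maximal families exist -/
theorem exists_maxFamily (p : ℕ) [hp : Fact p.Prime] {F : Type} [Field F] [NumberField F]
    {ι : Type} [Finite ι] (ε : ι → Fˣ) :
    ∃ (r : ℕ) (β : Fin r → Fˣ), IsMaxFamily (Subgroup.closure (Set.range ε)) β := by
  classical
  obtain ⟨κ, a, ha, hspan, hli⟩ := exists_linearIndependent' ℚ (fun i : ι => vec p (ε i))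
  have hκ : Finite κ := Finite.of_injective a ha
  have : Fintype κ := Fintype.ofFinite κ
  let e : κ ≃ Fin (Fintype.card κ) := Fintype.equivFin κ
  refine ⟨Fintype.card κ, fun i => ε (a (e.symm i)), fun i => Subgroup.subset_closure ⟨_, rfl⟩,
    fun c hc => ?_, fun x hx => ?_⟩
  · have h1 : ∑ i, (c i : ℚ) • vec p (ε (a (e.symm i))) = 0 := by
      rw [← vec_one (p := p) (F := F), ← hc, vec_prod]
      refine Finset.sum_congr rfl fun j _ => ?_
      rw [vec_zpow, Int.cast_smul_eq_zsmul, Int.cast_smul_eq_zsmul]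
    have h2 : LinearIndependent ℚ (fun i => vec p (ε (a (e.symm i)))) := by
      have h3 := hli.comp e.symm e.symm.injective
      exact h3
    have h3 := Fintype.linearIndependent_iff.1 h2 (fun i => (c i : ℚ)) h1
    funext i
    exact_mod_cast h3 i
  · have h1 : vec p x ∈ Submodule.span ℚ (vec p '' Set.range ε) := vec_mem hx
    rw [← Set.range_comp] at h1
    have h2 : vec p x ∈ Submodule.span ℚ (Set.range ((fun i : ι => vec p (ε i)) ∘ a)) := by
      rw [hspan]
      exact h1
    obtain ⟨d, hd⟩ := (Submodule.mem_span_range_iff_exists_fun ℚ).1 h2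
    set n : ℕ := ∏ j, (d j).den with hn
    have hn0 : n ≠ 0 := by
      rw [hn, Finset.prod_ne_zero_iff]
      intro j _
      exact (d j).den_nz
    have hint : ∀ j, ∃ c : ℤ, (c : ℚ) = n * d j := by
      intro j
      obtain ⟨m, hm⟩ := Finset.dvd_prod_of_mem (fun j => (d j).den) (Finset.mem_univ j)
      refine ⟨m * (d j).num, ?_⟩
      have h3 : (n : ℚ) = (d j).den * m := by
        rw [hn, hm]
        push_cast
        ring
      have h4 : ((d j).den : ℚ) * d j = (d j).num := by
        rw [mul_comm]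
        exact Rat.mul_den_eq_num (d j)
      rw [h3]
      push_cast
      rw [mul_comm ((d j).den : ℚ), mul_assoc, h4]
    choose c hc using hint
    set w : Fˣ := ∏ j, ε (a j) ^ c j with hw
    have h3 : vec p (x ^ n * w⁻¹) = 0 := by
      have h4 : vec p (x ^ n) = (n : ℚ) • vec p x := by
        have h5 := vec_zpow (p := p) x (n : ℤ)
        rw [zpow_natCast, Int.cast_smul_eq_zsmul] at h5
        rw [h5, natCast_zsmul, Nat.cast_smul_eq_nsmul]
      have h5 : vec p w = (n : ℚ) • vec p x := by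
        rw [hw, vec_prod, ← hd, Finset.smul_sum]
        refine Finset.sum_congr rfl fun j _ => ?_
        rw [smul_smul, ← hc, vec_zpow, Int.cast_smul_eq_zsmul, Int.cast_smul_eq_zsmul]
        rfl
      rw [vec_mul, vec_inv, h4, h5, add_neg_cancel]
    obtain ⟨m, hm, h4⟩ := torsion_of_vec h3
    refine ⟨n * m, Nat.mul_ne_zero hn0 hm, ?_⟩
    rw [mul_pow, inv_pow, mul_inv_eq_one] at h4
    rw [pow_mul, h4]
    refine Subgroup.pow_mem _ ?_ m
    rw [hw]
    refine Subgroup.prod_mem _ fun j _ => Subgroup.zpow_mem _ (Subgroup.subset_closure ?_) _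
    refine Set.mem_range.2 ⟨e j, ?_⟩
    rw [Equiv.symm_apply_apply]

end Pool.Agent.X156.LD
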