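import Pool.Agent.X156.LD.Main2

/-!
# The logarithms on the multiplicative group of a number field
-/

set_option autoImplicit false
set_option linter.unusedSectionVars false
set_option maxHeartbeats 1000000

namespace Pool.Agent.X156.LD

open NumberField Module TensorProduct Filter Topology Pool.Agent.W289.SL Pool.Agent.W332.SL6
  Pool.Agent.X328.LP MonoidAlgebra

variable {p : ℕ} [hp : Fact p.Prime] {F : Type} [Field F] [NumberField F]

/-- `ℂ_p ⊗ F^×` -/
abbrev UF (p : ℕ) [Fact p.Prime] (F : Type) [Field F] : Type := ℂ_[p] ⊗[ℤ] Additive Fˣ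

/-- `u ↦ log (σ u)` -/
noncomputable def logHomF {L : ℂ_[p] → ℂ_[p]} (hL : IsIwasawaLog p L) (σ : F →+* ℂ_[p]) :
    Additive Fˣ →+ ℂ_[p] where
  toFun u := L (σ ((Additive.toMul u : Fˣ) : F))
  map_zero' := by
    have h1 := hL.mul 1 1 one_ne_zero one_ne_zero
    rw [mul_one] at h1
    rw [toMul_zero, Units.val_one, map_one]
    exact left_eq_add.1 h1
  map_add' u v := by
    rw [toMul_add, Units.val_mul, map_mul]
    refine hL.mul _ _ ?_ ?_
    · rw [map_ne_zero]; exact Units.ne_zero _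
    · rw [map_ne_zero]; exact Units.ne_zero _

/-- the linear extension -/
noncomputable def logF {L : ℂ_[p] → ℂ_[p]} (hL : IsIwasawaLog p L) (σ : F →+* ℂ_[p]) :
    UF p F →ₗ[ℂ_[p]] ℂ_[p] := (logHomF hL σ).toIntLinearMap.liftBaseChange ℂ_[p]

lemma logF_tmul {L : ℂ_[p] → ℂ_[p]} (hL : IsIwasawaLog p L) (σ : F →+* ℂ_[p]) (c : ℂ_[p])
    (u : Additive Fˣ) : logF hL σ (c ⊗ₜ u) = c * L (σ ((Additive.toMul u : Fˣ) : F)) := rfl

lemma logF_smulQ {L : ℂ_[p] → ℂ_[p]} (hL : IsIwasawaLog p L) (σ : F →+* ℂ_[p]) (c : ℚ_[p])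
    (x : UF p F) : logF hL σ (c • x) = algebraMap ℚ_[p] ℂ_[p] c * logF hL σ x := by
  rw [← algebraMap_smul ℂ_[p] c x, map_smul, smul_eq_mul]

/-- the vector of an element -/
noncomputable def vec (p : ℕ) [Fact p.Prime] {F : Type} [Field F] (u : Fˣ) : UF p F :=
  (1 : ℂ_[p]) ⊗ₜ[ℤ] (Additive.ofMul u)

lemma logF_vec {L : ℂ_[p] → ℂ_[p]} (hL : IsIwasawaLog p L) (σ : F →+* ℂ_[p]) (u : Fˣ) :
    logF hL σ (vec p u) = L (σ (u : F)) := by
  unfold vec
  rw [logF_tmul, one_mul]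
  rfl

lemma vec_one : vec p (1 : Fˣ) = 0 := by
  unfold vec
  rw [ofMul_one, TensorProduct.tmul_zero]

lemma vec_mul (u v : Fˣ) : vec p (u * v) = vec p u + vec p v := by
  unfold vec
  rw [ofMul_mul, TensorProduct.tmul_add]

lemma vec_zpow (u : Fˣ) (n : ℤ) : vec p (u ^ n) = (n : ℚ_[p]) • vec p u := by
  unfold vec
  have h := map_zsmul ((TensorProduct.mk ℤ ℂ_[p] (Additive Fˣ)) 1) n (Additive.ofMul u)
  rw [Int.cast_smul_eq_zsmul, ofMul_zpow]
  exact h

lemma vec_inv (u : Fˣ) : vec p (u⁻¹) = - vec p u := by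
  rw [← zpow_neg_one, vec_zpow]
  simp

lemma vec_prod {ι : Type} (s : Finset ι) (u : ι → Fˣ) :
    vec p (∏ i ∈ s, u i) = ∑ i ∈ s, vec p (u i) := by
  classical
  induction s using Finset.induction_on with
  | empty => rw [Finset.prod_empty, Finset.sum_empty, vec_one]
  | insert a s ha ih => rw [Finset.prod_insert ha, Finset.sum_insert ha, vec_mul, ih]

lemma vec_of_pow_eq_one {u : Fˣ} {n : ℕ} (hn : n ≠ 0) (hu : u ^ n = 1) : vec p u = 0 := by
  have h1 : (n : ℚ_[p]) • vec p u = 0 := by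
    have h2 := vec_zpow (p := p) u (n : ℤ)
    rw [zpow_natCast, hu, vec_one] at h2
    rw [Int.cast_natCast] at h2
    exact h2.symm
  exact (smul_eq_zero.1 h1).resolve_left (by exact_mod_cast hn)

/-- the elements of norm one near roots of unity -/
lemma nearU_of_norm (s : F →+* ℂ_[p]) (u : Fˣ) (hu : ‖s (u : F)‖ = 1) : NearU (s (u : F)) := by
  have halg : IsAlgebraic ℚ (s (u : F)) :=
    (Algebra.IsAlgebraic.isAlgebraic (R := ℚ) (u : F)).algHom (RingHom.toRatAlgHom s)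
  refine ⟨?_, halg, ?_⟩
  · rw [Ne, map_eq_zero]; exact Units.ne_zero u
  · intro δ hδ
    obtain ⟨v, -, hv⟩ := pre_alg halg
    have h1 : ‖v‖ = 1 := by
      rw [← Pool.Agent.W254.PA.norm_ic, hv]
      exact hu
    obtain ⟨N, hN, h2⟩ := Pool.Agent.W254.PA.exists_pow_near p v h1 δ hδ
    refine ⟨N, hN, ?_⟩
    rw [← hv]
    have h3 : Pool.Agent.W254.PA.ic p v ^ N - 1 = Pool.Agent.W254.PA.ic p (v ^ N - 1) := by
      rw [map_sub, map_pow, map_one]
    rw [h3, Pool.Agent.W254.PA.norm_ic]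
    exact h2

lemma norm_prod_zpow {ι : Type} (s : Finset ι) (σ : F →+* ℂ_[p]) (u : ι → Fˣ)
    (hu : ∀ i, ‖σ (u i : F)‖ = 1) (n : ι → ℤ) : ‖σ ((∏ i ∈ s, u i ^ n i : Fˣ) : F)‖ = 1 := by
  rw [Units.coe_prod, map_prod, norm_prod]
  refine Finset.prod_eq_one fun i _ => ?_
  rw [Units.val_zpow_eq_zpow_val, map_zpow₀, norm_zpow, hu, one_zpow]

/-- **Brumer's theorem** for the elements of a number field. -/
theorem brumerF {L : ℂ_[p] → ℂ_[p]} (hL : IsIwasawaLog p L) (σ : F →+* ℂ_[p]) {ι : Type}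
    [Fintype ι] (ε : ι → Fˣ) (hε : ∀ i, ‖σ (ε i : F)‖ = 1) (c : ι → ℂ_[p])
    (hc : ∀ i, IsAlgebraic ℚ (c i)) (h : ∑ i, c i * L (σ (ε i : F)) = 0) :
    ∑ i, c i • vec p (ε i) = 0 := by
  classical
  obtain ⟨κ, a, ha, hspan, hli⟩ := exists_linearIndependent' ℚ (fun i : ι => vec p (ε i))
  have hκ : Finite κ := Finite.of_injective a ha
  have : Fintype κ := Fintype.ofFinite κ
  have h1 : ∀ i, ∃ d : κ → ℚ, ∑ j, d j • vec p (ε (a j)) = vec p (ε i) := by
    intro i
    have h2 : vec p (ε i) ∈ Submodule.span ℚ (Set.range (fun i : ι => vec p (ε i))) :=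
      Submodule.subset_span ⟨i, rfl⟩
    rw [← hspan] at h2
    exact (Submodule.mem_span_range_iff_exists_fun ℚ).1 h2
  choose d hd using h1
  have hqs : ∀ (q : ℚ) (x : UF p F), q • x = (q : ℂ_[p]) • x := by
    intro q x
    rw [← algebraMap_smul ℂ_[p] q x]
    rfl
  set e : κ → ℂ_[p] := fun j => ∑ i, c i * (d i j : ℂ_[p]) with he
  have hx : ∑ i, c i • vec p (ε i) = ∑ j, e j • vec p (ε (a j)) := by
    simp only [he, Finset.sum_smul]
    rw [Finset.sum_comm]
    refine Finset.sum_congr rfl fun i _ => ?_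
    rw [← hd i, Finset.smul_sum]
    refine Finset.sum_congr rfl fun j _ => ?_
    rw [hqs, smul_smul]
  have hlog : ∑ j, e j * L (σ (ε (a j) : F)) = 0 := by
    have h2 := congrArg (logF hL σ) hx
    rw [map_sum, map_sum] at h2
    simp only [map_smul, logF_vec, smul_eq_mul] at h2
    rw [← h2, h]
  have hind : LinearIndependent ℚ fun j => L (σ (ε (a j) : F)) := by
    rw [← LinearIndependent.iff_fractionRing ℤ ℚ, Fintype.linearIndependent_iff]
    intro n hn
    set w : Fˣ := ∏ j, ε (a j) ^ n j with hw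
    have h2 : L (σ (w : F)) = 0 := by
      have h3 : logHomF hL σ (Additive.ofMul w) = ∑ j, n j • logHomF hL σ (Additive.ofMul (ε (a j))) := by
        rw [hw, ofMul_prod, map_sum]
        refine Finset.sum_congr rfl fun j _ => ?_
        rw [ofMul_zpow, map_zsmul]
      exact h3.trans hn
    have hw1 : ‖σ (w : F)‖ = 1 := norm_prod_zpow _ σ (fun j => ε (a j)) (fun j => hε _) n
    obtain ⟨m, hm, h3⟩ := exists_pow_one hL (nearU_of_norm σ w hw1) h2
    have h4 : w ^ m = 1 := by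
      apply Units.ext
      apply σ.injective
      rw [Units.val_pow_eq_pow_val, map_pow, h3, Units.val_one, map_one]
    have h5 : vec p w = 0 := vec_of_pow_eq_one (by omega) h4
    have h6 : ∑ j, (n j : ℚ) • vec p (ε (a j)) = 0 := by
      rw [← h5, hw, vec_prod]
      refine Finset.sum_congr rfl fun j _ => ?_
      rw [vec_zpow, Int.cast_smul_eq_zsmul, Int.cast_smul_eq_zsmul]
    have h7 := Fintype.linearIndependent_iff.1 hli (fun j => (n j : ℚ)) h6
    intro j
    exact_mod_cast h7 j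
  have he0 := brumerC hL (fun j => σ (ε (a j) : F)) (fun j => nearU_of_norm σ _ (hε _)) hind e
    (fun j => by
      rw [← mem_algebraicClosure_iff]
      refine sum_mem fun i _ => ?_
      rw [mem_algebraicClosure_iff]
      exact (hc i).mul (isAlgebraic_algebraMap (A := ℂ_[p]) (d i j : ℚ))) hlog
  rw [hx]
  refine Finset.sum_eq_zero fun j _ => ?_
  rw [he0 j, zero_smul]

end Pool.Agent.X156.LD
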