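import Pool.Agent.X156.LD.Rel

/-!
# The kernel of the logarithms and the defect of Leopoldt's conjecture
-/

set_option autoImplicit false
set_option linter.unusedSectionVars false

namespace Pool.Agent.X156.LD

open NumberField Module TensorProduct Filter Topology Pool.Agent.W289.SL Pool.Agent.W332.SL6
  Pool.Agent.X328.LP Pool.Agent.Y419.LC.LcpP

variable {p : ℕ} [hp : Fact p.Prime] {E : Type} [Field E] [NumberField E]

/-- the `ℚ_p`-span of the units -/
noncomputable def UQ (p : ℕ) [Fact p.Prime] (E : Type) [Field E] [NumberField E] :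
    Submodule ℚ_[p] (UM p E) :=
  Submodule.span ℚ_[p] (Set.range fun u : Additive (𝓞 E)ˣ => (1 : ℂ_[p]) ⊗ₜ[ℤ] u)

/-- the kernel of all logarithms on the `ℚ_p`-span of the units -/
noncomputable def KQ {L : ℂ_[p] → ℂ_[p]} (hL : IsIwasawaLog p L) (E : Type) [Field E]
    [NumberField E] : Submodule ℚ_[p] (UM p E) where
  carrier := {x | x ∈ UQ p E ∧ Ker hL x}
  add_mem' := by
    rintro a b ⟨ha, ha'⟩ ⟨hb, hb'⟩
    refine ⟨Submodule.add_mem _ ha hb, fun σ => ?_⟩
    rw [map_add, ha', hb', add_zero]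
  zero_mem' := ⟨Submodule.zero_mem _, fun σ => map_zero _⟩
  smul_mem' := by
    rintro c a ⟨ha, ha'⟩
    refine ⟨Submodule.smul_mem _ _ ha, fun σ => ?_⟩
    rw [logLin_smulQ, ha', mul_zero]

lemma UQ_le : UQ p E ≤ Submodule.span ℚ_[p]
    (Set.range fun k : Fin (Units.rank E) => (1 : ℂ_[p]) ⊗ₜ[ℤ] fu E k) := by
  unfold UQ
  rw [Submodule.span_le]
  rintro _ ⟨u, rfl⟩
  obtain ⟨n, hn⟩ := one_tmul_decomp (p := p) u
  simp only [SetLike.mem_coe]
  rw [hn]
  refine Submodule.sum_mem _ fun k _ => ?_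
  have h1 : (n k : ℂ_[p]) • ((1 : ℂ_[p]) ⊗ₜ[ℤ] fu E k : UM p E) =
      (n k : ℚ_[p]) • ((1 : ℂ_[p]) ⊗ₜ[ℤ] fu E k : UM p E) := by
    rw [← algebraMap_smul ℂ_[p] (n k : ℚ_[p]), map_intCast]
  rw [h1]
  exact Submodule.smul_mem _ _ (Submodule.subset_span ⟨k, rfl⟩)

instance : FiniteDimensional ℚ_[p] (UQ p E) := by
  have h1 : FiniteDimensional ℚ_[p] (Submodule.span ℚ_[p]
      (Set.range fun k : Fin (Units.rank E) => (1 : ℂ_[p]) ⊗ₜ[ℤ] fu E k)) :=
    FiniteDimensional.span_of_finite _ (Set.finite_range _)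
  exact Submodule.finiteDimensional_of_le UQ_le

lemma finrank_UQ_le : finrank ℚ_[p] (UQ p E) ≤ Units.rank E := by
  have h1 : FiniteDimensional ℚ_[p] (Submodule.span ℚ_[p]
      (Set.range fun k : Fin (Units.rank E) => (1 : ℂ_[p]) ⊗ₜ[ℤ] fu E k)) :=
    FiniteDimensional.span_of_finite _ (Set.finite_range _)
  refine (Submodule.finrank_mono UQ_le).trans ?_
  have h2 := finrank_range_le_card (R := ℚ_[p])
    (b := fun k : Fin (Units.rank E) => ((1 : ℂ_[p]) ⊗ₜ[ℤ] fu E k : UM p E))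
  rw [Fintype.card_fin] at h2
  exact h2

lemma KQ_le {L : ℂ_[p] → ℂ_[p]} (hL : IsIwasawaLog p L) : KQ hL E ≤ UQ p E := fun _ hx => hx.1

instance {L : ℂ_[p] → ℂ_[p]} (hL : IsIwasawaLog p L) : FiniteDimensional ℚ_[p] (KQ hL E) :=
  Submodule.finiteDimensional_of_le (KQ_le hL)

/-- the combinations of units -/
noncomputable def Phi {n : ℕ} (ε : Fin n → (𝓞 E)ˣ) : (Fin n → ℚ_[p]) →ₗ[ℚ_[p]] UM p E :=
  Fintype.linearCombination ℚ_[p] (fun i => (1 : ℂ_[p]) ⊗ₜ[ℤ] Additive.ofMul (ε i))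

lemma Phi_apply {n : ℕ} (ε : Fin n → (𝓞 E)ˣ) (a : Fin n → ℚ_[p]) :
    Phi ε a = ∑ i, a i • ((1 : ℂ_[p]) ⊗ₜ[ℤ] Additive.ofMul (ε i) : UM p E) := by
  unfold Phi
  rw [Fintype.linearCombination_apply]

lemma Phi_inj {n : ℕ} (ε : Fin n → (𝓞 E)ˣ) (hind : ∀ c : Fin n → ℤ, ∏ i, ε i ^ c i = 1 → c = 0) :
    Function.Injective (Phi (p := p) ε) := by
  have hli : LinearIndependent ℤ (fun i => (Additive.ofMul (ε i) : Additive (𝓞 E)ˣ)) := by
    rw [Fintype.linearIndependent_iff]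
    intro c hc
    have h1 : ∏ i, ε i ^ c i = 1 := by
      have h2 := congrArg Additive.toMul hc
      rw [toMul_sum, toMul_zero] at h2
      exact h2
    exact congrFun (hind c h1)
  have hli' := Module.Flat.linearIndependent_one_tmul (S := ℂ_[p]) hli
  have h1 : LinearIndependent ℚ_[p]
      (fun i => ((1 : ℂ_[p]) ⊗ₜ[ℤ] Additive.ofMul (ε i) : UM p E)) := by
    refine hli'.restrict_scalars ?_
    intro a b hab
    simp only [Algebra.smul_def, mul_one] at hab
    exact (algebraMap ℚ_[p] ℂ_[p]).injective hab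
  exact linearIndependent_iff_injective_fintypeLinearCombination.1 h1

lemma Phi_mem {n : ℕ} (ε : Fin n → (𝓞 E)ˣ) (a : Fin n → ℚ_[p]) : Phi ε a ∈ UQ p E := by
  rw [Phi_apply]
  exact Submodule.sum_mem _ fun i _ => Submodule.smul_mem _ _ (Submodule.subset_span ⟨_, rfl⟩)

lemma range_Phi (ε : Fin (Units.rank E) → (𝓞 E)ˣ)
    (hind : ∀ c : Fin (Units.rank E) → ℤ, ∏ i, ε i ^ c i = 1 → c = 0) :
    LinearMap.range (Phi (p := p) ε) = UQ p E := by
  refine Submodule.eq_of_le_of_finrank_le ?_ ?_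
  · rintro _ ⟨a, rfl⟩
    exact Phi_mem ε a
  · rw [LinearMap.finrank_range_of_inj (Phi_inj ε hind), Module.finrank_fintype_fun_eq_card,
      Fintype.card_fin]
    exact finrank_UQ_le

lemma logLin_Phi {L : ℂ_[p] → ℂ_[p]} (hL : IsIwasawaLog p L) {n : ℕ} (ε : Fin n → (𝓞 E)ˣ)
    (a : Fin n → ℚ_[p]) (σ : E →+* ℂ_[p]) : logLin hL σ (Phi ε a) =
      ∑ i, algebraMap ℚ_[p] ℂ_[p] (a i) * L (σ ((ε i : 𝓞 E) : E)) := by
  rw [Phi_apply, map_sum]
  refine Finset.sum_congr rfl fun i _ => ?_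
  rw [logLin_smulQ, logLin_tmul', one_mul]
  rfl

lemma mem_comap {L : ℂ_[p] → ℂ_[p]} (hL : IsIwasawaLog p L) {n : ℕ} (ε : Fin n → (𝓞 E)ˣ)
    (a : Fin n → ℚ_[p]) : a ∈ (KQ hL E).comap (Phi ε) ↔ ∀ σ : E →+* ℂ_[p],
      ∑ i, algebraMap ℚ_[p] ℂ_[p] (a i) * L (σ ((ε i : 𝓞 E) : E)) = 0 := by
  constructor
  · intro h σ
    rw [← logLin_Phi hL]
    exact h.2 σ
  · intro h
    refine ⟨Phi_mem ε a, fun σ => ?_⟩
    rw [logLin_Phi]
    exact h σ

/-- **The rank of the module of the relations** is the dimension of the kernel. -/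
theorem finrank_relations {L : ℂ_[p] → ℂ_[p]} (hL : IsIwasawaLog p L) {n : ℕ}
    (ε : Fin n → (𝓞 E)ˣ) : finrank ℤ_[p] (relations p ε) =
      finrank ℚ_[p] ((KQ hL E).comap (Phi ε)) := by
  set A := (KQ hL E).comap (Phi (p := p) ε) with hA
  let ι : (Fin n → ℤ_[p]) →ₗ[ℤ_[p]] (Fin n → ℚ_[p]) :=
    (Algebra.linearMap ℤ_[p] ℚ_[p]).compLeft (Fin n)
  have hι : ∀ a i, ι a i = (a i : ℚ_[p]) := fun a i => rfl
  have hιinj : Function.Injective ι := by
    intro a b hab
    funext i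
    exact PadicInt.ext (congrFun hab i)
  obtain ⟨N, hN, hrel⟩ := isRelation_of_log (E := E) hL
  have hle : ∀ a ∈ relations p ε, ι a ∈ A := by
    have h1 : relations p ε ≤ (A.restrictScalars ℤ_[p]).comap ι := by
      unfold relations
      rw [Submodule.span_le]
      rintro a ⟨m, hm, hdiv⟩
      change ι a ∈ A
      rw [hA, mem_comap]
      intro σ
      exact Pool.Agent.Y944.LC.rel_of_lim hL n ε a m hm hdiv σ
    exact fun a ha => h1 ha
  obtain ⟨s, ⟨b⟩⟩ := Submodule.nonempty_basis_of_pid (Pi.basisFun ℤ_[p] (Fin n)) (relations p ε)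
  let v : Fin s → (Fin n → ℚ_[p]) := fun i => ι (b i)
  have hvli : LinearIndependent ℤ_[p] v := by
    have h1 := b.linearIndependent.map' (ι ∘ₗ (relations p ε).subtype) (by
      rw [LinearMap.ker_eq_bot]
      exact hιinj.comp (Submodule.subtype_injective _))
    exact h1
  have hvli' : LinearIndependent ℚ_[p] v := (LinearIndependent.iff_fractionRing ℤ_[p] ℚ_[p]).1 hvli
  have hspan : Submodule.span ℚ_[p] (Set.range v) = A := by
    apply le_antisymm
    · rw [Submodule.span_le]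
      rintro _ ⟨i, rfl⟩
      exact hle _ (b i).2
    · intro a ha
      obtain ⟨c, hc⟩ := IsLocalization.exist_integer_multiples_of_finite (nonZeroDivisors ℤ_[p]) a
      choose a' ha' using hc
      have hc0 : (((c : ℤ_[p])) : ℚ_[p]) ≠ 0 := by
        have h1 := nonZeroDivisors.ne_zero c.2
        intro h2
        exact h1 (PadicInt.coe_eq_zero.1 h2)
      have h1 : ∀ i, ((a' i : ℤ_[p]) : ℚ_[p]) = (c : ℤ_[p]) * a i := by
        intro i
        have h2 := ha' i
        rw [Algebra.smul_def] at h2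
        exact h2
      have h2 : IsRelation p ε (fun i => (N : ℤ_[p]) * a' i) := by
        apply hrel
        intro σ
        have h3 : ∑ i, algebraMap ℚ_[p] ℂ_[p] ((a' i : ℤ_[p]) : ℚ_[p]) * L (σ ((ε i : 𝓞 E) : E)) =
            algebraMap ℚ_[p] ℂ_[p] (c : ℤ_[p]) *
              ∑ i, algebraMap ℚ_[p] ℂ_[p] (a i) * L (σ ((ε i : 𝓞 E) : E)) := by
          rw [Finset.mul_sum]
          refine Finset.sum_congr rfl fun i _ => ?_
          rw [h1, map_mul, mul_assoc]
        rw [h3, (mem_comap hL ε a).1 ha σ, mul_zero]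
      have h3 : (fun i => (N : ℤ_[p]) * a' i) ∈ relations p ε := Submodule.subset_span h2
      have h4 : ι (fun i => (N : ℤ_[p]) * a' i) ∈ Submodule.span ℚ_[p] (Set.range v) := by
        have h5 := b.sum_repr ⟨_, h3⟩
        have h6 := congrArg (fun x : relations p ε => ι (x : Fin n → ℤ_[p])) h5
        simp only at h6
        rw [← h6, Submodule.coe_sum, map_sum]
        refine Submodule.sum_mem _ fun i _ => ?_
        rw [Submodule.coe_smul, map_smul, ← algebraMap_smul ℚ_[p]]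
        exact Submodule.smul_mem _ _ (Submodule.subset_span ⟨i, rfl⟩)
      have h5 : a = ((N : ℚ_[p]) * ((c : ℤ_[p]) : ℚ_[p]))⁻¹ • ι (fun i => (N : ℤ_[p]) * a' i) := by
        funext i
        have hN' : (N : ℚ_[p]) ≠ 0 := by exact_mod_cast hN
        rw [Pi.smul_apply, hι, smul_eq_mul, PadicInt.coe_mul, h1]
        have h6 : (((N : ℤ_[p])) : ℚ_[p]) = (N : ℚ_[p]) := by simp
        rw [h6]
        field_simp
      rw [h5]
      exact Submodule.smul_mem _ _ h4
  rw [finrank_eq_card_basis b, ← hspan, finrank_span_eq_card hvli']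

/-- multiplicatively independent units, congruent to `1` at all primes above `p`, as many as the
rank of the group of units -/
def IsFamily (p : ℕ) [Fact p.Prime] {E : Type} [Field E] [NumberField E]
    (ε : Fin (Units.rank E) → (𝓞 E)ˣ) : Prop :=
  (∀ i, ((ε i : 𝓞 E) - 1) ∈ (Ideal.span {((p : ℕ) : 𝓞 E)}).radical) ∧
    ∀ c : Fin (Units.rank E) → ℤ, ∏ i, ε i ^ c i = 1 → c = 0

/-- the defect of Leopoldt's conjecture -/
def IsDefect (p : ℕ) [Fact p.Prime] (E : Type) [Field E] [NumberField E] (δ : ℕ) : Prop :=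
  (∃ ε : Fin (Units.rank E) → (𝓞 E)ˣ, IsFamily p ε) ∧
    ∀ ε : Fin (Units.rank E) → (𝓞 E)ˣ, IsFamily p ε → finrank ℤ_[p] (relations p ε) = δ

lemma exists_family (p : ℕ) [hp : Fact p.Prime] (E : Type) [Field E] [NumberField E] :
    ∃ ε : Fin (Units.rank E) → (𝓞 E)ˣ, IsFamily p ε := by
  obtain ⟨n, hn, hnU⟩ := exists_pow_U4 E p
  refine ⟨fun i => (Units.fundSystem E i) ^ n, fun i => ?_, fun c hc => ?_⟩
  · apply Ideal.le_radical
    rw [Ideal.mem_span_singleton]
    exact (dvd_pow_self _ (by norm_num)).trans ((mem_U4 _).1 (hnU (Units.fundSystem E i)))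
  · have h1 := (Units.exist_unique_eq_mul_prod E 1).unique
      (y₁ := (1, fun i => (n : ℤ) * c i)) (y₂ := (1, 0)) ?_ ?_
    · have h2 := (Prod.mk.inj h1).2
      funext i
      have h3 := congrFun h2 i
      simp only [Pi.zero_apply, mul_eq_zero] at h3
      rcases h3 with h3 | h3
      · exact absurd h3 (by exact_mod_cast hn)
      · exact h3
    · simp only
      rw [← hc]
      have h2 : ∀ i, (Units.fundSystem E i ^ n) ^ c i = Units.fundSystem E i ^ ((n : ℤ) * c i) := by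
        intro i
        rw [zpow_mul, zpow_natCast]
      rw [Finset.prod_congr rfl fun i _ => h2 i]
      simp
    · simp

theorem isDefect {L : ℂ_[p] → ℂ_[p]} (hL : IsIwasawaLog p L) :
    IsDefect p E (finrank ℚ_[p] (KQ hL E)) := by
  refine ⟨exists_family p E, fun ε hε => ?_⟩
  rw [finrank_relations hL ε]
  have h1 : KQ hL E = ((KQ hL E).comap (Phi ε)).map (Phi ε) := by
    rw [Submodule.map_comap_eq, range_Phi ε hε.2]
    exact (inf_eq_right.2 (KQ_le hL)).symm
  conv_rhs => rw [h1]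
  exact (Submodule.equivMapOfInjective (Phi ε) (Phi_inj ε hε.2) _).finrank_eq

/-- Leopoldt's conjecture is the vanishing of the defect -/
theorem KQ_eq_bot {L : ℂ_[p] → ℂ_[p]} (hL : IsIwasawaLog p L) (h : Inj p E) : KQ hL E = ⊥ := by
  rw [eq_bot_iff]
  intro x hx
  exact h L hL x hx.2

end Pool.Agent.X156.LD
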