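import Pool.Agent.X156.LD.Desc

/-!
# Divisibility of the defect of Leopoldt's conjecture
-/

set_option autoImplicit false
set_option linter.unusedSectionVars false
set_option maxHeartbeats 1000000

namespace Pool.Agent.X156.LD

open NumberField Module TensorProduct Pool.Agent.W289.SL Pool.Agent.W332.SL6 Pool.Agent.X328.LP
open MonoidAlgebra

section general

variable {K : Type*} [Field K] {G : Type*} [Group G] {W : Type*} [AddCommGroup W] [Module K W]

/-- the vectors fixed by `D` do not form one line over the endomorphisms of the representation -/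
def Several (τ : Representation K G W) (D : Subgroup G) : Prop :=
  ∃ a ∈ fixed τ D, ∃ b ∈ fixed τ D, a ≠ 0 ∧
    ∀ φ : W →ₗ[K] W, (∀ g x, φ (τ g x) = τ g (φ x)) → φ a ≠ b

lemma comm_asAlgebraHom (τ : Representation K G W) (φ : W →ₗ[K] W)
    (hφ : ∀ g x, φ (τ g x) = τ g (φ x)) (r : MonoidAlgebra K G) (x : W) :
    φ (τ.asAlgebraHom r x) = τ.asAlgebraHom r (φ x) := by
  induction r using MonoidAlgebra.induction_linear with
  | zero => rw [map_zero, LinearMap.zero_apply, LinearMap.zero_apply, map_zero]
  | add a b ha hb => rw [map_add, LinearMap.add_apply, LinearMap.add_apply, map_add, ha, hb]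
  | single g c =>
    rw [Representation.asAlgebraHom_single, LinearMap.smul_apply, LinearMap.smul_apply, map_smul, hφ]

variable [CharZero K] [Fintype G]

open Classical in
lemma single_mul_avg (D : Subgroup G) {d : G} (hd : d ∈ D) : single d (1 : K) * avg K D = avg K D := by
  unfold avg
  rw [mul_smul_comm]
  congr 1
  rw [Finset.mul_sum]
  refine Finset.sum_bij' (fun x _ => d * x) (fun x _ => d⁻¹ * x) ?_ ?_ ?_ ?_ ?_
  · intro x hx
    simp only [Finset.mem_filter, Finset.mem_univ, true_and] at hx ⊢
    exact D.mul_mem hd hx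
  · intro x hx
    simp only [Finset.mem_filter, Finset.mem_univ, true_and] at hx ⊢
    exact D.mul_mem (D.inv_mem hd) hx
  · intro x _; simp
  · intro x _; simp
  · intro x _
    rw [single_mul_single, one_mul]

lemma avg_mem (τ : Representation K G W) (D : Subgroup G) (x : W) :
    τ.asAlgebraHom (avg K D) x ∈ fixed τ D := by
  intro d hd
  have h1 := congrArg (fun r => τ.asAlgebraHom r x) (single_mul_avg (K := K) D hd)
  rw [map_mul, Representation.asAlgebraHom_single, one_smul] at h1
  exact h1

/-- in a representation without several fixed vectors, the Hecke algebra has no nilpotents -/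
theorem hecke_reduced (τ : Representation K G W)
    (hirr : ∀ T : Submodule K W, Stable τ T → T = ⊥ ∨ T = ⊤) {D : Subgroup G}
    (hns : ¬ Several τ D) {x : MonoidAlgebra K G} (h1 : avg K D * x = x) (h2 : x * avg K D = x)
    (h3 : ∀ v, τ.asAlgebraHom x (τ.asAlgebraHom x v) = 0) (v : W) : τ.asAlgebraHom x v = 0 := by
  by_contra hv
  unfold Several at hns
  push Not at hns
  set a := τ.asAlgebraHom (avg K D) v with ha
  have hxa : τ.asAlgebraHom x a = τ.asAlgebraHom x v := by
    have h4 := congrArg (fun r => τ.asAlgebraHom r v) h2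
    rw [map_mul] at h4
    exact h4
  have ha0 : a ≠ 0 := by
    intro h0
    rw [h0, map_zero] at hxa
    exact hv hxa.symm
  have hb : τ.asAlgebraHom x a ∈ fixed τ D := by
    have h4 := congrArg (fun r => τ.asAlgebraHom r a) h1
    rw [map_mul] at h4
    have h5 := avg_mem τ D (τ.asAlgebraHom x a)
    rw [← h4]
    exact h5
  obtain ⟨φ, hφ, hφa⟩ := hns a (avg_mem τ D v) _ hb ha0
  have h4 : φ (τ.asAlgebraHom x a) = 0 := by
    rw [comm_asAlgebraHom τ φ hφ, hφa, h3]
  have h5 : Stable τ (LinearMap.ker φ) := by
    intro g y hy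
    rw [LinearMap.mem_ker] at hy ⊢
    rw [hφ, hy, map_zero]
  rcases hirr _ h5 with h6 | h6
  · have h7 : τ.asAlgebraHom x a ∈ LinearMap.ker φ := h4
    rw [h6, Submodule.mem_bot, hxa] at h7
    exact hv h7
  · have h7 : a ∈ LinearMap.ker φ := by rw [h6]; trivial
    rw [LinearMap.mem_ker, hφa, hxa] at h7
    exact hv h7

end general

section sub

variable {K : Type*} [Field K] {G : Type*} [Group G] {V : Type*} [AddCommGroup V] [Module K V]

/-- the representation on an invariant subspace -/
def subRep (ρ : Representation K G V) {S : Submodule K V} (hS : Stable ρ S) :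
    Representation K G S := (⟨S, fun g v hv => hS g v hv⟩ : Subrepresentation ρ).toRepresentation

lemma subRep_coe (ρ : Representation K G V) {S : Submodule K V} (hS : Stable ρ S) (g : G) (x : S) :
    ((subRep ρ hS g x : S) : V) = ρ g x := rfl

lemma subRep_min (ρ : Representation K G V) {S : Submodule K V} (hS : Stable ρ S)
    (hirr : ∀ T ≤ S, Stable ρ T → T = ⊥ ∨ T = S) (T : Submodule K S)
    (hT : Stable (subRep ρ hS) T) : T = ⊥ ∨ T = ⊤ := by
  have h1 : Stable ρ (T.map S.subtype) := by
    rintro g _ ⟨x, hx, rfl⟩
    exact ⟨subRep ρ hS g x, hT g x hx, rfl⟩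
  rcases hirr (T.map S.subtype) (Submodule.map_subtype_le S T) h1 with h | h
  · left
    exact Submodule.map_injective_of_injective S.injective_subtype
      (h.trans (Submodule.map_bot S.subtype).symm)
  · right
    apply Submodule.map_injective_of_injective S.injective_subtype
    rw [h, Submodule.map_top, Submodule.range_subtype]

lemma subRep_irr (ρ : Representation K G V) {S : Submodule K V} (hS : Stable ρ S) (hS0 : S ≠ ⊥)
    (hirr : ∀ T ≤ S, Stable ρ T → T = ⊥ ∨ T = S) : (subRep ρ hS).IsIrreducible := by
  have hne : Nontrivial S := Submodule.nontrivial_iff_ne_bot.2 hS0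
  have hnt : Nontrivial (Subrepresentation (subRep ρ hS)) := by
    refine ⟨⟨⊥, ⊤, fun h => ?_⟩⟩
    have h1 := congrArg Subrepresentation.toSubmodule h
    exact bot_ne_top h1
  refine { eq_bot_or_eq_top := fun T => ?_ }
  rcases subRep_min ρ hS hirr T.toSubmodule (fun g x hx => T.apply_mem_toSubmodule g hx) with h | h
  · left
    exact Subrepresentation.toSubmodule_injective h
  · right
    exact Subrepresentation.toSubmodule_injective h

lemma finrank_subRep (ρ : Representation K G V) {S : Submodule K V} (hS : Stable ρ S)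
    (H : Subgroup G) :
    finrank K (fixed (subRep ρ hS) H) = finrank K (S ⊓ fixed ρ H : Submodule K V) := by
  have h1 : S ⊓ fixed ρ H = (fixed (subRep ρ hS) H).map S.subtype := by
    apply le_antisymm
    · rintro x ⟨hx, hxf⟩
      refine ⟨⟨x, hx⟩, fun g hg => ?_, rfl⟩
      apply Subtype.ext
      exact hxf g hg
    · rintro _ ⟨x, hx, rfl⟩
      refine ⟨x.2, fun g hg => ?_⟩
      have h2 := congrArg (fun y : S => (y : V)) (hx g hg)
      exact h2
  rw [h1]
  exact (Submodule.equivMapOfInjective _ (Submodule.subtype_injective _) _).finrank_eq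

/-- representations of groups of prime power order -/
theorem pgroup_modEq [CharZero K] [Finite G] [FiniteDimensional K V] {q : ℕ} [hq : Fact q.Prime]
    (hG : IsPGroup q G) (ρ : Representation K G V) {Ω : Type*} [Field Ω] [Algebra K Ω]
    [IsAlgClosed Ω] {ζ : Ω} (hζ : IsPrimitiveRoot ζ q) :
    finrank K V ≡ finrank K (fixed ρ (commutator G)) [MOD q * (minpoly K ζ).natDegree] := by
  have hst : Stable ρ (fixed ρ (commutator G)) := by
    intro g x hx h hh
    have h1 : g⁻¹ * h * g ∈ commutator G := by
      have h2 := (inferInstance : (commutator G).Normal).conj_mem h hh g⁻¹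
      rwa [inv_inv] at h2
    have h2 : h * g = g * (g⁻¹ * h * g) := by group
    change (ρ h * ρ g) x = ρ g x
    rw [← map_mul, h2, map_mul]
    change ρ g (ρ (g⁻¹ * h * g) x) = ρ g x
    rw [hx _ h1]
  obtain ⟨C, hC, -, h1, h2⟩ := exists_compl ρ hst (X := ⊤) (fun _ _ _ => trivial) le_top
  have h3 : q * (minpoly K ζ).natDegree ∣ finrank K C := by
    have hfix : (fixed ρ (⊥ : Subgroup G)) = ⊤ := by
      rw [eq_top_iff]
      intro x _ h hh
      rw [Subgroup.mem_bot] at hh
      rw [hh, map_one]
      rfl
    have h4 := mem_of_irr ρ (⊥ : Subgroup G) (mults (q * (minpoly K ζ).natDegree)) _ C rfl hC ?_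
    · rw [hfix, inf_top_eq] at h4
      exact h4
    · intro S hSC hS hS0 hmin
      rw [hfix, inf_top_eq]
      refine dvd_finrank_sub (q := q) hG ρ hS hmin ?_ hζ
      by_contra hcon
      push Not at hcon
      apply hS0
      rw [eq_bot_iff, ← h1]
      exact le_inf (fun x hx g hg => hcon g hg x hx) hSC
  have h5 := Submodule.finrank_sup_add_finrank_inf_eq (fixed ρ (commutator G)) C
  rw [h1, h2, finrank_bot, add_zero, finrank_top] at h5
  rw [h5]
  obtain ⟨c, hc⟩ := h3
  rw [hc]
  exact (Nat.modEq_iff_dvd' (Nat.le_add_right _ _)).2 (by rw [Nat.add_sub_cancel_left]; exact ⟨c, rfl⟩) |>.symm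

lemma asAlgebraHom_subRep (ρ : Representation K G V) {S : Submodule K V} (hS : Stable ρ S)
    (r : MonoidAlgebra K G) (s : S) :
    (((subRep ρ hS).asAlgebraHom r s : S) : V) = ρ.asAlgebraHom r s := by
  induction r using MonoidAlgebra.induction_linear with
  | zero => rw [map_zero, map_zero, LinearMap.zero_apply, LinearMap.zero_apply]; rfl
  | add a b ha hb =>
    rw [map_add, map_add, LinearMap.add_apply, LinearMap.add_apply, ← ha, ← hb]
    rfl
  | single g c =>
    rw [Representation.asAlgebraHom_single, Representation.asAlgebraHom_single]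
    rfl

open MonoidAlgebra in
/-- the central idempotent of an irreducible subspace -/
theorem exists_idempotent [CharZero K] [Fintype G] (ρ : Representation K G V) {S : Submodule K V}
    (hS : Stable ρ S) (hmin : ∀ T ≤ S, Stable ρ T → T = ⊥ ∨ T = S) {D : Subgroup G}
    (hns : ¬ Several (subRep ρ hS) D) : ∃ z : MonoidAlgebra K G, z * z = z ∧
      (∀ r, z * r = r * z) ∧ (∀ x, (z * avg K D) * x * (z * avg K D) = x → x * x = 0 → x = 0) ∧
      ∀ s ∈ S, ρ.asAlgebraHom z s = s := by
  classical
  have : NeZero (Nat.card G : K) := ⟨Nat.cast_ne_zero.2 Nat.card_pos.ne'⟩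
  set τ := subRep ρ hS with hτ
  set e := avg K D with he
  have hee : e * e = e := avg_mul_self _
  -- the annihilator
  let A : Ideal (MonoidAlgebra K G) :=
    { carrier := {r | ∀ s : S, τ.asAlgebraHom r s = 0}
      add_mem' := by
        intro a b ha hb s
        rw [map_add, LinearMap.add_apply, ha, hb, add_zero]
      zero_mem' := by
        intro s
        rw [map_zero, LinearMap.zero_apply]
      smul_mem' := by
        intro c a ha s
        rw [smul_eq_mul, map_mul]
        change τ.asAlgebraHom c (τ.asAlgebraHom a s) = 0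
        rw [ha, map_zero] }
  obtain ⟨f, hfA, hff, hf⟩ := exists_idem A
  obtain ⟨y, hy, hyc, hyf, hyJ⟩ := exists_central f
  have hyA : y ∈ A := by
    have h1 : Submodule.span (MonoidAlgebra K G) (Set.range fun b => f * b) ≤ A := by
      rw [Submodule.span_le]
      rintro _ ⟨b, rfl⟩ s
      change τ.asAlgebraHom (f * b) s = 0
      rw [map_mul]
      exact hfA (τ.asAlgebraHom b s)
    exact h1 hyJ
  have hAy : ∀ x ∈ A, x * y = x := by
    intro x hx
    calc x * y = x * f * y := by rw [hf x hx]
      _ = x * (y * f) := by rw [mul_assoc, hyc f]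
      _ = x := by rw [hyf, hf x hx]
  set z' := 1 - y with hz'
  have hz'z' : z' * z' = z' := by
    rw [hz', mul_sub, sub_mul, sub_mul, mul_one, mul_one, one_mul, hy]
    abel
  have hz'c : ∀ r, z' * r = r * z' := by
    intro r
    rw [hz', sub_mul, mul_sub, one_mul, mul_one, hyc]
  have hAz : ∀ x ∈ A, x * z' = 0 := by
    intro x hx
    rw [hz', mul_sub, mul_one, hAy x hx, sub_self]
  have hz's : ∀ s : S, τ.asAlgebraHom z' s = s := by
    intro s
    rw [hz', map_sub, LinearMap.sub_apply, map_one, hyA s, sub_zero]
    rfl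
  set e' := z' * e with he'
  have hee' : e * e' = e' := by
    rw [he', ← mul_assoc, ← hz'c e, mul_assoc, hee]
  have he'e : e' * e = e' := by
    rw [he', mul_assoc, hee]
  refine ⟨z', hz'z', hz'c, ?_, ?_⟩
  · intro x hx hxx
    change e' * x * e' = x at hx
    have h1 : e * x = x := by
      calc e * x = e * (e' * x * e') := by rw [hx]
        _ = e * e' * x * e' := by simp only [mul_assoc]
        _ = x := by rw [hee', hx]
    have h2 : x * e = x := by
      calc x * e = e' * x * e' * e := by rw [hx]
        _ = e' * x * (e' * e) := by simp only [mul_assoc]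
        _ = x := by rw [he'e, hx]
    have h3 : x ∈ A := by
      intro s
      refine hecke_reduced τ (subRep_min _ hS hmin) hns h1 h2 (fun v => ?_) s
      have h4 := congrArg (fun r => τ.asAlgebraHom r v) hxx
      rw [map_mul, map_zero] at h4
      exact h4
    have h4 := hAz x h3
    calc x = e' * x * e' := hx.symm
      _ = e' * (x * z') * e := by rw [he']; simp only [mul_assoc]
      _ = 0 := by rw [h4, mul_zero, zero_mul]
  · intro s hs
    have h1 := congrArg (fun t : S => (t : V)) (hz's ⟨s, hs⟩)
    rw [hτ, asAlgebraHom_subRep] at h1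
    exact h1

end sub

section final

variable {K : Type} [Field K] {G : Type} [Group G] {V : Type} [AddCommGroup V] [Module K V]

/-- the dimensions of the vectors fixed by `H` are in `M`, for the irreducible representations with
several vectors fixed by `D` -/
def IrrMem (K : Type) [Field K] {G : Type} [Group G] (D H : Subgroup G) (M : AddSubmonoid ℕ) :
    Prop :=
  ∀ (W : Type) [AddCommGroup W] [Module K W] [FiniteDimensional K W] (τ : Representation K G W),
    τ.IsIrreducible → Several τ D → finrank K (fixed τ H) ∈ M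

/-- **The dimension of the fixed vectors.** -/
theorem mem_general [CharZero K] [Fintype G] [FiniteDimensional K V] (ρ : Representation K G V)
    (D H : Subgroup G) (M : AddSubmonoid ℕ) (hd : IrrMem K D H M)
    (hz : ∀ z : MonoidAlgebra K G, z * z = z → (∀ r, z * r = r * z) →
      (∀ x, (z * avg K D) * x * (z * avg K D) = x → x * x = 0 → x = 0) →
      ∀ v, ρ.asAlgebraHom z v = v → v = 0) : finrank K (fixed ρ H) ∈ M := by
  have h1 := mem_of_irr ρ H M _ ⊤ rfl (fun _ _ _ => trivial) ?_
  · rw [top_inf_eq] at h1
    exact h1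
  · intro S _ hS hS0 hmin
    by_cases hsev : Several (subRep ρ hS) D
    · rw [← finrank_subRep ρ hS H]
      exact hd S (subRep ρ hS) (subRep_irr _ hS hS0 hmin) hsev
    · obtain ⟨z, h2, h3, h4, h5⟩ := exists_idempotent ρ hS hmin hsev
      exfalso
      apply hS0
      rw [eq_bot_iff]
      intro s hs
      rw [Submodule.mem_bot]
      exact hz z h2 h3 h4 s (h5 s hs)

end final

end Pool.Agent.X156.LD
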