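import Pool.Agent.X156.LD.Main

/-!
# The irreducible parts of the kernel of the logarithms
-/

set_option autoImplicit false
set_option linter.unusedSectionVars false
set_option maxHeartbeats 1000000

namespace Pool.Agent.X156.LD

open NumberField Module TensorProduct Pool.Agent.W289.SL Pool.Agent.W332.SL6 Pool.Agent.X328.LP
open MonoidAlgebra

variable {p : ℕ} [hp : Fact p.Prime]
variable {k F : Type} [Field k] [NumberField k] [Field F] [NumberField F] [Algebra k F]

lemma act_coe {L : ℂ_[p] → ℂ_[p]} (hL : IsIwasawaLog p L)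
    (r : MonoidAlgebra ℚ_[p] (F ≃ₐ[k] F)) (s : KQ hL F) :
    (((kerRep hL k F).asAlgebraHom r s : KQ hL F) : UM p F) = act p k F r (s : UM p F) := by
  induction r using MonoidAlgebra.induction_linear with
  | zero => rw [map_zero, map_zero, LinearMap.zero_apply, LinearMap.zero_apply]; rfl
  | add a b ha hb =>
    rw [map_add, map_add, LinearMap.add_apply, LinearMap.add_apply, ← ha, ← hb]
    rfl
  | single g c =>
    rw [Representation.asAlgebraHom_single, act_single]
    rfl

variable [IsGalois k F]

/-- **The irreducible parts of the kernel.** -/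
theorem ker_part {L : ℂ_[p] → ℂ_[p]} (hL : IsIwasawaLog p L) (hk : Units.rank k = 0)
    (w : InfinitePlace F) {z' : MonoidAlgebra ℚ_[p] (F ≃ₐ[k] F)}
    (hz'z' : z' * z' = z') (hz'c : ∀ r, z' * r = r * z')
    (hred : ∀ x, (z' * avg ℚ_[p] (MulAction.stabilizer (F ≃ₐ[k] F) w)) * x *
      (z' * avg ℚ_[p] (MulAction.stabilizer (F ≃ₐ[k] F) w)) = x → x * x = 0 → x = 0)
    {v : UM p F} (hv : v ∈ UQ p F) (hvk : Ker hL v) (hzv : act p k F z' v = v) : v = 0 := by
  classical
  have hfd : FiniteDimensional k F := Module.Finite.of_restrictScalars_finite ℚ k F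
  have : NeZero (Nat.card (F ≃ₐ[k] F) : ℚ_[p]) := ⟨Nat.cast_ne_zero.2 Nat.card_pos.ne'⟩
  set e := avg ℚ_[p] (MulAction.stabilizer (F ≃ₐ[k] F) w) with he
  have hee : e * e = e := avg_mul_self _
  set e' := z' * e with he'
  have he'e' : e' * e' = e' := by
    rw [he', mul_assoc, ← mul_assoc e, ← hz'c e, mul_assoc z' e e, hee, ← mul_assoc, hz'z']
  obtain ⟨u, hu, hspan⟩ := exists_minkowski (k := k) hk w
  set η : UM p F := (1 : ℂ_[p]) ⊗ₜ[ℤ] u with hη
  have heη : act p k F e η = η := act_avg hu
  let N : Ideal (MonoidAlgebra ℚ_[p] (F ≃ₐ[k] F)) :=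
    { carrier := {a | Ker hL (act p k F a η)}
      add_mem' := by
        intro a b ha hb σ
        rw [map_add, LinearMap.add_apply, map_add, ha σ, hb σ, add_zero]
      zero_mem' := by
        intro σ
        rw [map_zero, LinearMap.zero_apply, map_zero]
      smul_mem' := by
        intro c a ha
        change Ker hL (act p k F (c * a) η)
        rw [act_mul]
        exact ker_act hL ha c }
  obtain ⟨z, hz, hzc, ⟨x0, hx0, hx0'⟩, hN⟩ := exists_central_of_hecke he'e' hred N
  -- the central idempotent kills the unit, by Brumer's theorem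
  have hzz : (z * z') * (z * z') = z * z' := by
    rw [mul_assoc, ← mul_assoc z', hz'c z, mul_assoc z z' z', hz'z', ← mul_assoc, hz]
  have hzzc : ∀ r, (z * z') * r = r * (z * z') := by
    intro r
    rw [mul_assoc, hz'c, ← mul_assoc, hzc, mul_assoc]
  have hzη : act p k F (z * z') η = 0 := by
    have h1 : Ker hL (act p k F (z * z') η) := by
      have h2 : act p k F (z * z') η = act p k F z' (act p k F x0 η) := by
        calc act p k F (z * z') η = act p k F (z * z' * e) η := by rw [act_mul (z * z'), heη]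
          _ = act p k F (x0 * z' * e) η := by
              rw [mul_assoc z, ← he', ← hx0', he', mul_assoc x0]
          _ = act p k F (z' * x0) η := by rw [act_mul (x0 * z'), heη, hz'c]
          _ = act p k F z' (act p k F x0 η) := by rw [act_mul]
      rw [h2]
      exact ker_act hL hx0 z'
    have h2 : act p k F (z * z') η ∈ AU p F := act_mem_AU (coeff_alg hzz hzzc) u
    have hσ : Nonempty (F →+* ℂ_[p]) := inferInstance
    exact eq_zero_of_log hL hσ.some h2 (h1 _)
  -- the elements of the kernel come from the unit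
  obtain ⟨x, hx⟩ : ∃ x, act p k F x η = v := by
    have h1 : UQ p F ≤ LinearMap.range ((act p k F).toLinearMap.flip η) := by
      unfold UQ
      rw [Submodule.span_le]
      rintro _ ⟨u', rfl⟩
      obtain ⟨m, x, hm, hx⟩ := hspan u'
      have hm' : (m : ℚ_[p]) ≠ 0 := by exact_mod_cast hm
      refine ⟨(m : ℚ_[p])⁻¹ • ∑ g, single g (x g : ℚ_[p]), ?_⟩
      change act p k F ((m : ℚ_[p])⁻¹ • ∑ g, single g (x g : ℚ_[p])) η = _
      have h2 : act p k F (∑ g, single g (x g : ℚ_[p])) η = (m : ℚ_[p]) • ((1 : ℂ_[p]) ⊗ₜ[ℤ] u') := by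
        rw [← tmul_zsmul', hx, TensorProduct.tmul_sum, map_sum, LinearMap.sum_apply]
        refine Finset.sum_congr rfl fun g _ => ?_
        rw [act_single, tmul_zsmul', rho_tmul]
      rw [map_smul, LinearMap.smul_apply, h2, smul_smul, inv_mul_cancel₀ hm', one_smul]
    obtain ⟨x, hx⟩ := h1 hv
    exact ⟨x, hx⟩
  have hxN : x ∈ N := by
    change Ker hL (act p k F x η)
    rw [hx]
    exact hvk
  calc v = act p k F z' (act p k F x η) := by rw [hx, hzv]
    _ = act p k F (x * z' * e) η := by rw [← act_mul, hz'c, act_mul (x * z') e, heη]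
    _ = act p k F (x * e' * z) η := by rw [mul_assoc x z' e, ← he', hN x hxN]
    _ = act p k F (x * (z * z')) η := by
        rw [he']
        have h3 : x * (z' * e) * z = x * (z * z') * e := by
          calc x * (z' * e) * z = x * (z' * (e * z)) := by simp only [mul_assoc]
            _ = x * (z' * (z * e)) := by rw [hzc e]
            _ = x * (z' * z) * e := by simp only [mul_assoc]
            _ = x * (z * z') * e := by rw [hz'c z]
        rw [h3, act_mul _ e, heη]
    _ = 0 := by rw [act_mul, hzη, map_zero]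

/-- **The defect is a sum of dimensions.** -/
theorem mem_defect {L : ℂ_[p] → ℂ_[p]} (hL : IsIwasawaLog p L) (hk : Units.rank k = 0)
    (w : InfinitePlace F) (H : Subgroup (F ≃ₐ[k] F)) (M : AddSubmonoid ℕ)
    (hd : IrrMem ℚ_[p] (MulAction.stabilizer (F ≃ₐ[k] F) w) H M) :
    finrank ℚ_[p] (fixed (kerRep hL k F) H) ∈ M := by
  have hfd : FiniteDimensional k F := Module.Finite.of_restrictScalars_finite ℚ k F
  refine mem_general (kerRep hL k F) (MulAction.stabilizer (F ≃ₐ[k] F) w) H M hd ?_
  intro z h1 h2 h3 v h4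
  apply Subtype.ext
  refine ker_part hL hk w h1 h2 h3 v.2.1 v.2.2 ?_
  rw [← act_coe hL, h4]

/-- the maximal abelian subextension -/
theorem leopoldt_ab (p : ℕ) [Fact p.Prime] (hk : Units.rank k = 0) :
    Inj p (IntermediateField.fixedField (commutator (F ≃ₐ[k] F))) := by
  have hfd : FiniteDimensional k F := Module.Finite.of_restrictScalars_finite ℚ k F
  rw [← leopoldt_iff]
  have hg : IsGalois k (IntermediateField.fixedField (commutator (F ≃ₐ[k] F))) := inferInstance
  refine leopoldt_of_comm (k := k) hk fun g h => ?_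
  obtain ⟨g', rfl⟩ := AlgEquiv.restrictNormalHom_surjective (F := k)
    (K₁ := IntermediateField.fixedField (commutator (F ≃ₐ[k] F))) F g
  obtain ⟨h', rfl⟩ := AlgEquiv.restrictNormalHom_surjective (F := k)
    (K₁ := IntermediateField.fixedField (commutator (F ≃ₐ[k] F))) F h
  rw [← map_mul, ← map_mul]
  have h1 : g' * h' = (g' * h' * g'⁻¹ * h'⁻¹) * (h' * g') := by group
  have h2 : AlgEquiv.restrictNormalHom (IntermediateField.fixedField (commutator (F ≃ₐ[k] F)))
      (g' * h' * g'⁻¹ * h'⁻¹) = 1 := by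
    ext x
    have h3 := AlgEquiv.restrictNormal_commutes (g' * h' * g'⁻¹ * h'⁻¹)
      (IntermediateField.fixedField (commutator (F ≃ₐ[k] F))) x
    have h4 : g' * h' * g'⁻¹ * h'⁻¹ ∈ commutator (F ≃ₐ[k] F) :=
      Subgroup.commutator_mem_commutator (Subgroup.mem_top g') (Subgroup.mem_top h')
    have h5 := (IntermediateField.mem_fixedField_iff (commutator (F ≃ₐ[k] F)) (x : F)).1 x.2 _ h4
    change ((AlgEquiv.restrictNormal (g' * h' * g'⁻¹ * h'⁻¹)
      (IntermediateField.fixedField (commutator (F ≃ₐ[k] F))) x : _) : F) = x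
    exact h3.trans h5
  rw [h1, map_mul, h2, one_mul]

end Pool.Agent.X156.LD
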