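import Pool.Agent.X156.LD.Fld

/-!
# The kernel of the logarithms on the group generated by a Galois orbit
-/

set_option autoImplicit false
set_option linter.unusedSectionVars false
set_option maxHeartbeats 1000000

namespace Pool.Agent.X156.LD

open NumberField Module TensorProduct Pool.Agent.W289.SL Pool.Agent.W332.SL6
  Pool.Agent.X328.LP MonoidAlgebra

section general

variable {K : Type} [Field K] {G : Type} [Group G]

lemma asAlgebraHom_mul' {W : Type} [AddCommGroup W] [Module K W] (τ : Representation K G W)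
    (a b : MonoidAlgebra K G) (x : W) :
    τ.asAlgebraHom (a * b) x = τ.asAlgebraHom a (τ.asAlgebraHom b x) := by
  rw [map_mul]
  rfl

/-- representations with several fixed vectors are not abelian -/
theorem irrMem_comm (D : Subgroup G) : IrrMem K D (commutator G) ⊥ := by
  intro W _ _ _ τ hirr ⟨a, ha, b, hb, ha0, hab⟩
  rw [AddSubmonoid.mem_bot, Submodule.finrank_eq_zero]
  have hst : Stable τ (fixed τ (commutator G)) := by
    intro g x hx h hh
    have h1 : g⁻¹ * h * g ∈ commutator G := by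
      have h2 := (inferInstance : (commutator G).Normal).conj_mem h hh g⁻¹
      rwa [inv_inv] at h2
    have h2 : h * g = g * (g⁻¹ * h * g) := by group
    change (τ h * τ g) x = τ g x
    rw [← map_mul, h2, map_mul]
    change τ g (τ (g⁻¹ * h * g) x) = τ g x
    rw [hx _ h1]
  have hsub : ∀ T : Submodule K W, Stable τ T → T = ⊥ ∨ T = ⊤ := by
    intro T hT
    rcases hirr.eq_bot_or_eq_top (⟨T, fun g v hv => hT g v hv⟩ : Subrepresentation τ) with h | h
    · exact Or.inl (congrArg Subrepresentation.toSubmodule h)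
    · exact Or.inr (congrArg Subrepresentation.toSubmodule h)
  rcases hsub _ hst with h | h
  · exact h
  exfalso
  have hcomm : ∀ (g h' : G) (x : W), τ g (τ h' x) = τ h' (τ g x) := by
    intro g h' x
    have h1 : g * h' = h' * g * (g⁻¹ * h'⁻¹ * g * h') := by group
    have h2 : g⁻¹ * h'⁻¹ * g * h' ∈ commutator G := by
      have h3 := Subgroup.commutator_mem_commutator (H₁ := (⊤ : Subgroup G)) (H₂ := ⊤)
        (Subgroup.mem_top g⁻¹) (Subgroup.mem_top h'⁻¹)
      rw [commutatorElement_def, inv_inv, inv_inv] at h3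
      exact h3
    have h3 : x ∈ fixed τ (commutator G) := by rw [h]; trivial
    change (τ g * τ h') x = (τ h' * τ g) x
    rw [← map_mul, h1, map_mul, map_mul]
    change (τ h' * τ g) (τ (g⁻¹ * h'⁻¹ * g * h') x) = (τ h' * τ g) x
    rw [h3 _ h2]
  have hcomm' : ∀ (r : MonoidAlgebra K G) (g : G) (x : W),
      τ.asAlgebraHom r (τ g x) = τ g (τ.asAlgebraHom r x) := by
    intro r g x
    induction r using MonoidAlgebra.induction_linear with
    | zero => rw [map_zero, LinearMap.zero_apply, LinearMap.zero_apply, map_zero]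
    | add a b ha hb => rw [map_add, LinearMap.add_apply, LinearMap.add_apply, map_add, ha, hb]
    | single h' c =>
      rw [Representation.asAlgebraHom_single, LinearMap.smul_apply, LinearMap.smul_apply, map_smul,
        hcomm]
  have hT : Stable τ (LinearMap.range (τ.asAlgebraHom.toLinearMap.flip a)) := by
    rintro g _ ⟨r, rfl⟩
    refine ⟨single g 1 * r, ?_⟩
    change τ.asAlgebraHom (single g 1 * r) a = τ g (τ.asAlgebraHom r a)
    rw [asAlgebraHom_mul', Representation.asAlgebraHom_single, one_smul]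
  have h1 : a ∈ LinearMap.range (τ.asAlgebraHom.toLinearMap.flip a) := by
    refine ⟨1, ?_⟩
    change τ.asAlgebraHom 1 a = a
    rw [map_one]
    rfl
  rcases hsub _ hT with h2 | h2
  · rw [h2, Submodule.mem_bot] at h1
    exact ha0 h1
  · have h3 : b ∈ LinearMap.range (τ.asAlgebraHom.toLinearMap.flip a) := by rw [h2]; trivial
    obtain ⟨r, hr⟩ := h3
    exact hab (τ.asAlgebraHom r) (fun g x => hcomm' r g x) hr

lemma avg_fixed [CharZero K] [Fintype G] {W : Type} [AddCommGroup W] [Module K W]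
    (τ : Representation K G W) {D : Subgroup G} {x : W} (hx : x ∈ fixed τ D) :
    τ.asAlgebraHom (avg K D) x = x := by
  classical
  have hn : (Nat.card D : K) ≠ 0 := Nat.cast_ne_zero.2 Nat.card_pos.ne'
  unfold avg
  rw [map_smul, map_sum, LinearMap.smul_apply, LinearMap.sum_apply, Finset.sum_congr rfl
    (g := fun _ => x), Finset.sum_const, card_filter,
    ← Nat.cast_smul_eq_nsmul K, smul_smul, inv_mul_cancel₀ hn, one_smul]
  intro d hd
  rw [Finset.mem_filter] at hd
  rw [Representation.asAlgebraHom_single, one_smul, hx d hd.2]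

end general

variable {p : ℕ} [hp : Fact p.Prime]
variable {k F : Type} [Field k] [NumberField k] [Field F] [NumberField F] [Algebra k F]

/-- the action on the elements of the field -/
noncomputable def gF (g : F ≃ₐ[k] F) : Fˣ →* Fˣ := Units.map (((g : F →+* F) : F →* F))

lemma gF_coe (g : F ≃ₐ[k] F) (u : Fˣ) : ((gF g u : Fˣ) : F) = g u := rfl

/-- the action on `ℂ_p ⊗ F^×` -/
noncomputable def rhoF (p : ℕ) [Fact p.Prime] (k F : Type) [Field k] [NumberField k] [Field F]
    [NumberField F] [Algebra k F] : Representation ℚ_[p] (F ≃ₐ[k] F) (UF p F) where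
  toFun g := ((MonoidHom.toAdditive (gF g)).toIntLinearMap.baseChange ℂ_[p]).restrictScalars ℚ_[p]
  map_one' := by
    refine LinearMap.ext fun x => ?_
    induction x using TensorProduct.induction_on with
    | zero => rw [map_zero]; rfl
    | tmul c u => rfl
    | add x y hx hy => rw [map_add, hx, hy]; rfl
  map_mul' g h := by
    refine LinearMap.ext fun x => ?_
    induction x using TensorProduct.induction_on with
    | zero => rw [map_zero, map_zero]
    | tmul c u => rfl
    | add x y hx hy => rw [map_add, map_add, hx, hy]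

lemma rhoF_vec (g : F ≃ₐ[k] F) (u : Fˣ) : rhoF p k F g (vec p u) = vec p (gF g u) := rfl

lemma logF_rho {L : ℂ_[p] → ℂ_[p]} (hL : IsIwasawaLog p L) (σ : F →+* ℂ_[p]) (g : F ≃ₐ[k] F)
    (x : UF p F) : logF hL σ (rhoF p k F g x) = logF hL (σ.comp (g : F →+* F)) x := by
  induction x using TensorProduct.induction_on with
  | zero => rw [map_zero, map_zero, map_zero]
  | tmul c u => rfl
  | add x y hx hy => rw [map_add, map_add, map_add, hx, hy]

/-- the span of the orbit -/
noncomputable def UO (p : ℕ) [Fact p.Prime] (k : Type) {F : Type} [Field k] [NumberField k]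
    [Field F] [NumberField F] [Algebra k F] (α : Fˣ) : Submodule ℚ_[p] (UF p F) :=
  Submodule.span ℚ_[p] (Set.range fun g : F ≃ₐ[k] F => vec p (gF g α))

/-- the kernel of the logarithms on the span of the orbit -/
noncomputable def KO {L : ℂ_[p] → ℂ_[p]} (hL : IsIwasawaLog p L) (k : Type) {F : Type} [Field k]
    [NumberField k] [Field F] [NumberField F] [Algebra k F] (α : Fˣ) :
    Submodule ℚ_[p] (UF p F) where
  carrier := {x | x ∈ UO p k α ∧ ∀ σ : F →+* ℂ_[p], logF hL σ x = 0}
  add_mem' := by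
    rintro a b ⟨ha, ha'⟩ ⟨hb, hb'⟩
    refine ⟨Submodule.add_mem _ ha hb, fun σ => ?_⟩
    rw [map_add, ha', hb', add_zero]
  zero_mem' := ⟨Submodule.zero_mem _, fun σ => map_zero _⟩
  smul_mem' := by
    rintro c a ⟨ha, ha'⟩
    refine ⟨Submodule.smul_mem _ _ ha, fun σ => ?_⟩
    rw [logF_smulQ, ha', mul_zero]

lemma KO_le {L : ℂ_[p] → ℂ_[p]} (hL : IsIwasawaLog p L) (α : Fˣ) : KO hL k α ≤ UO p k α :=
  fun _ hx => hx.1

instance (α : Fˣ) : FiniteDimensional ℚ_[p] (UO p k α) := by
  have hfd : FiniteDimensional k F := Module.Finite.of_restrictScalars_finite ℚ k F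
  exact FiniteDimensional.span_of_finite _ (Set.finite_range _)

instance {L : ℂ_[p] → ℂ_[p]} (hL : IsIwasawaLog p L) (α : Fˣ) :
    FiniteDimensional ℚ_[p] (KO hL k α) := Submodule.finiteDimensional_of_le (KO_le hL α)

/-- the representation on the kernel -/
noncomputable def kerRepF {L : ℂ_[p] → ℂ_[p]} (hL : IsIwasawaLog p L) (k : Type) {F : Type}
    [Field k] [NumberField k] [Field F] [NumberField F] [Algebra k F] (α : Fˣ) :
    Representation ℚ_[p] (F ≃ₐ[k] F) (KO hL k α) :=
  (⟨KO hL k α, fun g x hx => by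
    refine ⟨?_, fun σ => ?_⟩
    · have h2 : UO p k α ≤ (UO p k α).comap (rhoF p k F g) := by
        unfold UO
        rw [Submodule.span_le]
        rintro _ ⟨h, rfl⟩
        exact Submodule.subset_span ⟨g * h, rfl⟩
      exact h2 hx.1
    · rw [logF_rho]
      exact hx.2 _⟩ : Subrepresentation (rhoF p k F)).toRepresentation

lemma kerRepF_coe {L : ℂ_[p] → ℂ_[p]} (hL : IsIwasawaLog p L) (α : Fˣ)
    (r : MonoidAlgebra ℚ_[p] (F ≃ₐ[k] F)) (s : KO hL k α) :
    (((kerRepF hL k α).asAlgebraHom r s : KO hL k α) : UF p F) =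
      (rhoF p k F).asAlgebraHom r (s : UF p F) := by
  induction r using MonoidAlgebra.induction_linear with
  | zero => rw [map_zero, map_zero, LinearMap.zero_apply, LinearMap.zero_apply]; rfl
  | add a b ha hb =>
    rw [map_add, map_add, LinearMap.add_apply, LinearMap.add_apply, ← ha, ← hb]
    rfl
  | single g c =>
    rw [Representation.asAlgebraHom_single, Representation.asAlgebraHom_single]
    rfl

lemma ker_actF {L : ℂ_[p] → ℂ_[p]} (hL : IsIwasawaLog p L) {x : UF p F}
    (hx : ∀ σ : F →+* ℂ_[p], logF hL σ x = 0) (a : MonoidAlgebra ℚ_[p] (F ≃ₐ[k] F))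
    (σ : F →+* ℂ_[p]) : logF hL σ ((rhoF p k F).asAlgebraHom a x) = 0 := by
  induction a using MonoidAlgebra.induction_linear with
  | zero => rw [map_zero, LinearMap.zero_apply, map_zero]
  | add a b ha hb => rw [map_add, LinearMap.add_apply, map_add, ha, hb, add_zero]
  | single g c =>
    rw [Representation.asAlgebraHom_single, LinearMap.smul_apply, logF_smulQ, logF_rho, hx, mul_zero]

lemma act_vec [Fintype (F ≃ₐ[k] F)] (r : MonoidAlgebra ℚ_[p] (F ≃ₐ[k] F)) (α : Fˣ) :
    (rhoF p k F).asAlgebraHom r (vec p α) = ∑ g, r.coeff g • vec p (gF g α) := by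
  classical
  have h1 : r = ∑ g, single g (r.coeff g) := by
    ext g
    rw [coeff_sum, Finset.sum_apply']
    simp only [coeff_single, Finsupp.single_apply]
    rw [Finset.sum_ite_eq']
    simp
  conv_lhs => rw [h1]
  rw [map_sum, LinearMap.sum_apply]
  refine Finset.sum_congr rfl fun g _ => ?_
  rw [Representation.asAlgebraHom_single, LinearMap.smul_apply, rhoF_vec]

/-- **The irreducible parts of the kernel.** -/
theorem ker_partF {L : ℂ_[p] → ℂ_[p]} (hL : IsIwasawaLog p L) (α : Fˣ)
    (hα : ∀ σ : F →+* ℂ_[p], ‖σ (α : F)‖ = 1) [Fintype (F ≃ₐ[k] F)]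
    (D : Subgroup (F ≃ₐ[k] F)) (hD : ∀ d ∈ D, gF d α = α)
    {z' : MonoidAlgebra ℚ_[p] (F ≃ₐ[k] F)}
    (hz'z' : z' * z' = z') (hz'c : ∀ r, z' * r = r * z')
    (hred : ∀ x, (z' * avg ℚ_[p] D) * x * (z' * avg ℚ_[p] D) = x → x * x = 0 → x = 0)
    {v : UF p F} (hv : v ∈ UO p k α) (hvk : ∀ σ : F →+* ℂ_[p], logF hL σ v = 0)
    (hzv : (rhoF p k F).asAlgebraHom z' v = v) : v = 0 := by
  classical
  have hfd : FiniteDimensional k F := Module.Finite.of_restrictScalars_finite ℚ k F
  have : NeZero (Nat.card (F ≃ₐ[k] F) : ℚ_[p]) := ⟨Nat.cast_ne_zero.2 Nat.card_pos.ne'⟩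
  set A := (rhoF p k F).asAlgebraHom with hA
  have act_mul : ∀ a b x, A (a * b) x = A a (A b x) := fun a b x =>
    asAlgebraHom_mul' (rhoF p k F) a b x
  set e := avg ℚ_[p] D with he
  have hee : e * e = e := avg_mul_self _
  set e' := z' * e with he'
  have he'e' : e' * e' = e' := by
    rw [he', mul_assoc, ← mul_assoc e, ← hz'c e, mul_assoc z' e e, hee, ← mul_assoc, hz'z']
  set η : UF p F := vec p α with hη
  have heη : A e η = η := by
    refine avg_fixed (rhoF p k F) fun d hd => ?_
    rw [hη, rhoF_vec, hD d hd]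
  let N : Ideal (MonoidAlgebra ℚ_[p] (F ≃ₐ[k] F)) :=
    { carrier := {a | ∀ σ : F →+* ℂ_[p], logF hL σ (A a η) = 0}
      add_mem' := by
        intro a b ha hb σ
        rw [map_add, LinearMap.add_apply, map_add, ha σ, hb σ, add_zero]
      zero_mem' := by
        intro σ
        rw [map_zero, LinearMap.zero_apply, map_zero]
      smul_mem' := by
        intro c a ha
        change ∀ σ : F →+* ℂ_[p], logF hL σ (A (c * a) η) = 0
        rw [act_mul]
        exact ker_actF hL ha c }
  obtain ⟨z, hz, hzc, ⟨x0, hx0, hx0'⟩, hN⟩ := exists_central_of_hecke he'e' hred N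
  -- the central idempotent kills the vector, by Brumer's theorem
  have hzz : (z * z') * (z * z') = z * z' := by
    rw [mul_assoc, ← mul_assoc z', hz'c z, mul_assoc z z' z', hz'z', ← mul_assoc, hz]
  have hzzc : ∀ r, (z * z') * r = r * (z * z') := by
    intro r
    rw [mul_assoc, hz'c, ← mul_assoc, hzc, mul_assoc]
  have hzη : A (z * z') η = 0 := by
    have h1 : ∀ σ : F →+* ℂ_[p], logF hL σ (A (z * z') η) = 0 := by
      have h2 : A (z * z') η = A z' (A x0 η) := by
        calc A (z * z') η = A (z * z' * e) η := by rw [act_mul (z * z'), heη]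
          _ = A (x0 * z' * e) η := by
              rw [mul_assoc z, ← he', ← hx0', he', mul_assoc x0]
          _ = A (z' * x0) η := by rw [act_mul (x0 * z'), heη, hz'c]
          _ = A z' (A x0 η) := by rw [act_mul]
      rw [h2]
      exact ker_actF hL hx0 z'
    have hσ : Nonempty (F →+* ℂ_[p]) := inferInstance
    have h2 := act_vec (p := p) (z * z') α
    have h3 : ∑ g, (z * z').coeff g • vec p (gF g α) =
        ∑ g : F ≃ₐ[k] F, (algebraMap ℚ_[p] ℂ_[p] ((z * z').coeff g)) • vec p (gF g α) := by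
      refine Finset.sum_congr rfl fun g _ => ?_
      rw [algebraMap_smul]
    have h4 := h1 hσ.some
    rw [hA, hη, h2, h3, map_sum] at h4
    rw [hA, hη, h2, h3]
    refine brumerF hL hσ.some (fun g : F ≃ₐ[k] F => gF g α) (fun g => ?_) _ (fun g => ?_) ?_
    · exact hα (hσ.some.comp (g : F →+* F))
    · exact (coeff_alg hzz hzzc g).algebraMap
    · rw [← h4]
      refine Finset.sum_congr rfl fun g _ => ?_
      rw [map_smul, logF_vec, smul_eq_mul]
  obtain ⟨x, hx⟩ : ∃ x, A x η = v := by
    have h1 : UO p k α ≤ LinearMap.range (A.toLinearMap.flip η) := by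
      unfold UO
      rw [Submodule.span_le]
      rintro _ ⟨g, rfl⟩
      refine ⟨single g 1, ?_⟩
      change A (single g 1) η = _
      rw [hA, Representation.asAlgebraHom_single, one_smul, hη, rhoF_vec]
    obtain ⟨x, hx⟩ := h1 hv
    exact ⟨x, hx⟩
  have hxN : x ∈ N := by
    change ∀ σ : F →+* ℂ_[p], logF hL σ (A x η) = 0
    rw [hx]
    exact hvk
  calc v = A z' (A x η) := by rw [hx, hzv]
    _ = A (x * z' * e) η := by rw [← act_mul, hz'c, act_mul (x * z') e, heη]
    _ = A (x * e' * z) η := by rw [mul_assoc x z' e, ← he', hN x hxN]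
    _ = A (x * (z * z')) η := by
        rw [he']
        have h3 : x * (z' * e) * z = x * (z * z') * e := by
          calc x * (z' * e) * z = x * (z' * (e * z)) := by simp only [mul_assoc]
            _ = x * (z' * (z * e)) := by rw [hzc e]
            _ = x * (z' * z) * e := by simp only [mul_assoc]
            _ = x * (z * z') * e := by rw [hz'c z]
        rw [h3, act_mul _ e, heη]
    _ = 0 := by rw [act_mul, hzη, map_zero]

/-- **The dimension of the kernel.** -/
theorem mem_orbit {L : ℂ_[p] → ℂ_[p]} (hL : IsIwasawaLog p L) (α : Fˣ)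
    (hα : ∀ σ : F →+* ℂ_[p], ‖σ (α : F)‖ = 1)
    (D : Subgroup (F ≃ₐ[k] F)) (hD : ∀ d ∈ D, gF d α = α) (H : Subgroup (F ≃ₐ[k] F))
    (M : AddSubmonoid ℕ) (hd : IrrMem ℚ_[p] D H M) :
    finrank ℚ_[p] (fixed (kerRepF hL k α) H) ∈ M := by
  have hfd : FiniteDimensional k F := Module.Finite.of_restrictScalars_finite ℚ k F
  refine mem_general (kerRepF hL k α) D H M hd ?_
  intro z h1 h2 h3 v h4
  apply Subtype.ext
  refine ker_partF hL α hα D hD h1 h2 h3 v.2.1 v.2.2 ?_
  rw [← kerRepF_coe hL, h4]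

/-- **Groups of prime power order.** -/
theorem orbit_pgroup {L : ℂ_[p] → ℂ_[p]} (hL : IsIwasawaLog p L) (α : Fˣ)
    (hα : ∀ σ : F →+* ℂ_[p], ‖σ (α : F)‖ = 1) {q : ℕ} [hq : Fact q.Prime]
    (hG : IsPGroup q (F ≃ₐ[k] F)) {ζ : ℂ_[p]} (hζ : IsPrimitiveRoot ζ q) :
    q * (minpoly ℚ_[p] ζ).natDegree ∣ finrank ℚ_[p] (KO hL k α) := by
  have hfd : FiniteDimensional k F := Module.Finite.of_restrictScalars_finite ℚ k F
  have h1 := pgroup_modEq hG (kerRepF hL k α) hζ
  have h2 := mem_orbit hL α hα (⊥ : Subgroup (F ≃ₐ[k] F)) (fun d hd => by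
    rw [Subgroup.mem_bot] at hd
    rw [hd]
    rfl) (commutator (F ≃ₐ[k] F)) ⊥ (irrMem_comm _)
  rw [AddSubmonoid.mem_bot] at h2
  rw [h2] at h1
  exact (Nat.modEq_zero_iff_dvd).1 h1

end Pool.Agent.X156.LD
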