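import Pool.Agent.X156.LD.Alg2
import Pool.Agent.X328.LP.Min

/-!
# Relations between units with `p`-adic exponents
-/

set_option autoImplicit false
set_option linter.unusedSectionVars false

namespace Pool.Agent.X156.LD

open NumberField Module TensorProduct Filter Topology Pool.Agent.W289.SL Pool.Agent.W332.SL6
  Pool.Agent.X328.LP Pool.Agent.Y419.LC.LcpP

variable {p : ℕ} [hp : Fact p.Prime] {E : Type} [Field E] [NumberField E]

/-- the relation `∏ ε_i ^ a_i = 1` with exponents in `ℤ_p`, at all primes above `p` -/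
def IsRelation (p : ℕ) [Fact p.Prime] {E : Type} [Field E] [NumberField E] {n : ℕ}
    (ε : Fin n → (𝓞 E)ˣ) (a : Fin n → ℤ_[p]) : Prop :=
  ∃ m : ℕ → Fin n → ℤ, (∀ i, Tendsto (fun k => ((m k i : ℤ) : ℤ_[p])) atTop (𝓝 (a i))) ∧
    ∀ N : ℕ, ∀ᶠ k in atTop, ((p : ℕ) : 𝓞 E) ^ N ∣ ((∏ i, ε i ^ m k i : (𝓞 E)ˣ) : 𝓞 E) - 1

/-- the module of the relations -/
noncomputable def relations (p : ℕ) [Fact p.Prime] {E : Type} [Field E] [NumberField E] {n : ℕ}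
    (ε : Fin n → (𝓞 E)ˣ) : Submodule ℤ_[p] (Fin n → ℤ_[p]) :=
  Submodule.span ℤ_[p] {a | IsRelation p ε a}

/-- relations between the logarithms give relations between the units -/
lemma tendsto_of_log {L : ℂ_[p] → ℂ_[p]} (hL : IsIwasawaLog p L) {r : ℕ} (ε : Fin r → (𝓞 E)ˣ)
    (hε : ∀ i, ε i ∈ U4 E p) (b : Fin r → ℤ_[p]) (m : Fin r → ℕ → ℤ)
    (hm : ∀ i, Tendsto (fun k => ((m i k : ℤ) : PadicInt p)) atTop (𝓝 (b i)))
    (hbrel : ∀ σ : E →+* ℂ_[p],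
      ∑ i, algebraMap ℚ_[p] ℂ_[p] (b i : ℚ_[p]) * L (σ ((ε i : 𝓞 E) : E)) = 0) (N : ℕ) :
    ∀ᶠ k in atTop, ((p : ℕ) : 𝓞 E) ^ N ∣ ((∏ i, ε i ^ m i k : (𝓞 E)ˣ) : 𝓞 E) - 1 := by
  set u : ℕ → (𝓞 E)ˣ := fun k => ∏ i, ε i ^ m i k with hu
  have hu4 : ∀ k, u k ∈ U4 E p := fun k =>
    Subgroup.prod_mem _ fun i _ => Subgroup.zpow_mem _ (hε i) _
  -- the logarithms tend to zero
  have hlog : ∀ σ : E →+* ℂ_[p], Tendsto (fun k => L (σ ((u k : 𝓞 E) : E))) atTop (𝓝 0) := by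
    intro σ
    have h1 : ∀ k, L (σ ((u k : 𝓞 E) : E)) = ∑ i, algebraMap ℚ_[p] ℂ_[p]
        (((m i k : ℤ) : PadicInt p) : ℚ_[p]) * L (σ ((ε i : 𝓞 E) : E)) := by
      intro k
      have h2 : logHom hL σ (Additive.ofMul (u k)) = ∑ i, (m i k) • logHom hL σ
          (Additive.ofMul (ε i)) := by
        rw [hu, ofMul_prod, map_sum]
        refine Finset.sum_congr rfl fun i _ => ?_
        rw [ofMul_zpow, map_zsmul]
      have h3 : L (σ ((u k : 𝓞 E) : E)) = logHom hL σ (Additive.ofMul (u k)) := rfl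
      rw [h3, h2]
      refine Finset.sum_congr rfl fun i _ => ?_
      rw [zsmul_eq_mul]
      congr 1
      simp
    simp only [h1]
    have hj : Continuous (fun x : PadicInt p => algebraMap ℚ_[p] ℂ_[p] (x : ℚ_[p])) :=
      (continuous_algebraMap ℚ_[p] ℂ_[p]).comp continuous_subtype_val
    rw [← hbrel σ]
    refine tendsto_finsetSum _ fun i _ => ?_
    exact ((hj.tendsto (b i)).comp (hm i)).mul_const _
  -- the embeddings tend to 1
  have hemb : ∀ σ : E →+* ℂ_[p], Tendsto (fun k => σ (((u k : 𝓞 E) - 1 : 𝓞 E) : E)) atTop (𝓝 0) := by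
    intro σ
    have h1 : ∀ k, ‖σ (((u k : 𝓞 E) - 1 : 𝓞 E) : E)‖ ≤ 2 * ‖L (σ ((u k : 𝓞 E) : E))‖ := by
      intro k
      obtain ⟨v, hv⟩ := (mem_U4 (u k)).1 (hu4 k)
      have h2 : ‖σ (((u k : 𝓞 E) - 1 : 𝓞 E) : E)‖ ≤ 1 / 8 := by
        rw [hv]
        have h3 : σ ((((p : ℕ) : 𝓞 E) ^ 4 * v : 𝓞 E) : E) = ((p : ℕ) : ℂ_[p]) ^ 4 * σ (v : E) := by
          simp only [map_mul, map_pow, map_natCast]
        rw [h3, norm_mul, norm_pow, norm_p]
        have h4 := norm_emb_le σ v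
        have h5 : ((p : ℝ)⁻¹) ≤ 2⁻¹ := by
          apply inv_anti₀ (by norm_num)
          exact_mod_cast hp.out.two_le
        have h6 : ((p : ℝ)⁻¹) ^ 4 ≤ (2⁻¹) ^ 4 := pow_le_pow_left₀ (by positivity) h5 4
        calc ((p : ℝ)⁻¹) ^ 4 * ‖σ (v : E)‖ ≤ (2⁻¹) ^ 4 * 1 := by gcongr
          _ ≤ 1 / 8 := by norm_num
      have h3 := dist_le hL h2
      have h4 : 1 + σ (((u k : 𝓞 E) - 1 : 𝓞 E) : E) = σ ((u k : 𝓞 E) : E) := by
        have h5 : σ (((u k : 𝓞 E) - 1 : 𝓞 E) : E) = σ ((u k : 𝓞 E) : E) - 1 := by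
          simp only [map_sub, map_one]
        rw [h5]
        ring
      rw [h4] at h3
      exact h3
    refine squeeze_zero_norm h1 ?_
    have h2 := ((hlog σ).norm).const_mul 2
    rw [norm_zero, mul_zero] at h2
    exact h2
  -- the coordinates tend to zero
  obtain ⟨M, hM⟩ := exists_inv (p := p) (E := E)
  have hco : ∀ j, Tendsto (fun k => (((om E).repr ((u k : 𝓞 E) - 1) j : ℤ) : ℂ_[p])) atTop
      (𝓝 0) := by
    intro j
    have h1 : ∀ k, (((om E).repr ((u k : 𝓞 E) - 1) j : ℤ) : ℂ_[p]) =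
        ∑ σ : E →+* ℂ_[p], σ (((u k : 𝓞 E) - 1 : 𝓞 E) : E) * M σ j := by
      intro k
      rw [hM (fun j => (((om E).repr ((u k : 𝓞 E) - 1) j : ℤ) : ℂ_[p])) j]
      refine Finset.sum_congr rfl fun σ _ => ?_
      rw [emb_coord σ ((u k : 𝓞 E) - 1)]
    simp only [h1]
    have h2 : (0 : ℂ_[p]) = ∑ σ : E →+* ℂ_[p], 0 * M σ j := by simp
    rw [h2]
    exact tendsto_finsetSum _ fun σ _ => (hemb σ).mul_const _
  have hp0 : (0 : ℝ) < (p : ℝ) ^ (-N : ℤ) := by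
    have := hp.out.pos
    positivity
  have hev : ∀ᶠ k in atTop, ∀ j, ‖(((om E).repr ((u k : 𝓞 E) - 1) j : ℤ) : ℂ_[p])‖ ≤
      (p : ℝ) ^ (-N : ℤ) := by
    rw [Filter.eventually_all]
    intro j
    have h1 := (hco j).norm
    rw [norm_zero] at h1
    exact (h1.eventually (gt_mem_nhds hp0)).mono fun k hk => le_of_lt hk
  filter_upwards [hev] with k hk
  change ((p : ℕ) : 𝓞 E) ^ N ∣ (u k : 𝓞 E) - 1
  rw [← (om E).sum_repr ((u k : 𝓞 E) - 1)]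
  refine Finset.dvd_sum fun j _ => ?_
  have h1 := hk j
  have h2 : ‖(((om E).repr ((u k : 𝓞 E) - 1) j : ℤ) : ℂ_[p])‖ =
      ‖(((om E).repr ((u k : 𝓞 E) - 1) j : ℤ) : ℚ_[p])‖ := by
    have h := norm_algebraMap' ℂ_[p] (((om E).repr ((u k : 𝓞 E) - 1) j : ℤ) : ℚ_[p])
    rw [map_intCast] at h
    exact h
  rw [h2, Padic.norm_int_le_pow_iff_dvd] at h1
  obtain ⟨q, hq⟩ := h1
  rw [hq, zsmul_eq_mul]
  push_cast
  rw [mul_assoc]
  exact dvd_mul_right _ _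

lemma isRelation_of_log {L : ℂ_[p] → ℂ_[p]} (hL : IsIwasawaLog p L) :
    ∃ N : ℕ, N ≠ 0 ∧ ∀ {r : ℕ} (ε : Fin r → (𝓞 E)ˣ) (b : Fin r → ℤ_[p]),
      (∀ σ : E →+* ℂ_[p],
        ∑ i, algebraMap ℚ_[p] ℂ_[p] (b i : ℚ_[p]) * L (σ ((ε i : 𝓞 E) : E)) = 0) →
      IsRelation p ε (fun i => (N : ℤ_[p]) * b i) := by
  obtain ⟨N, hN, hNU⟩ := exists_pow_U4 E p
  refine ⟨N, hN, fun {r} ε b hb => ?_⟩
  choose m hm using fun i => exists_seq (b i)
  refine ⟨fun k i => (N : ℤ) * m i k, fun i => ?_, ?_⟩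
  · have h1 := (hm i).const_mul (N : ℤ_[p])
    refine h1.congr fun k => ?_
    push_cast
    rfl
  · have h1 := tendsto_of_log hL (fun i => ε i ^ N) (fun i => hNU _) b m hm ?_
    · intro M
      filter_upwards [h1 M] with k hk
      have h2 : ∏ i, ε i ^ ((N : ℤ) * m i k) = ∏ i, (ε i ^ N) ^ m i k := by
        refine Finset.prod_congr rfl fun i _ => ?_
        rw [zpow_mul, zpow_natCast]
      rw [h2]
      exact hk
    · intro σ
      have h3 : ∀ i, L (σ (((ε i ^ N : (𝓞 E)ˣ) : 𝓞 E) : E)) = N * L (σ ((ε i : 𝓞 E) : E)) := by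
        intro i
        have h4 : logHom hL σ (Additive.ofMul (ε i ^ N)) = N • logHom hL σ (Additive.ofMul (ε i)) := by
          rw [ofMul_pow, map_nsmul]
        rw [nsmul_eq_mul] at h4
        exact h4
      have h5 : ∑ i, algebraMap ℚ_[p] ℂ_[p] (b i : ℚ_[p]) *
          L (σ (((ε i ^ N : (𝓞 E)ˣ) : 𝓞 E) : E)) = N * ∑ i, algebraMap ℚ_[p] ℂ_[p] (b i : ℚ_[p]) *
          L (σ ((ε i : 𝓞 E) : E)) := by
        rw [Finset.mul_sum]
        refine Finset.sum_congr rfl fun i _ => ?_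
        rw [h3]
        ring
      rw [h5, hb, mul_zero]

end Pool.Agent.X156.LD
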