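import Pool.Agent.X156.LD.Orb

/-!
# Closures of groups generated by Galois orbits
-/

set_option autoImplicit false
set_option linter.unusedSectionVars false
set_option maxHeartbeats 1000000

namespace Pool.Agent.X156.LD

open NumberField Module TensorProduct Filter Topology Pool.Agent.W289.SL Pool.Agent.W332.SL6
  Pool.Agent.X328.LP Pool.Agent.Y419.LC.LcpP

variable {p : ℕ} [hp : Fact p.Prime] {F : Type} [Field F] [NumberField F]

/-- the relation `∏ β_i ^ a_i = 1` with exponents in `ℤ_p`, in `F ⊗ ℚ_p` -/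
def IsPadicRelation (p : ℕ) [Fact p.Prime] {F : Type} [Field F] {r : ℕ} (β : Fin r → Fˣ)
    (a : Fin r → ℤ_[p]) : Prop :=
  ∃ m : ℕ → Fin r → ℤ, (∀ i, Tendsto (fun k => ((m k i : ℤ) : ℤ_[p])) atTop (𝓝 (a i))) ∧
    ∀ σ : F →+* ℂ_[p], Tendsto (fun k => σ ((∏ i, β i ^ m k i : Fˣ) : F)) atTop (𝓝 1)

/-- the module of the relations -/
noncomputable def padicRelations (p : ℕ) [Fact p.Prime] {F : Type} [Field F] {r : ℕ}
    (β : Fin r → Fˣ) : Submodule ℤ_[p] (Fin r → ℤ_[p]) :=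
  Submodule.span ℤ_[p] {a | IsPadicRelation p β a}

lemma norm_log_le {L : ℂ_[p] → ℂ_[p]} (hL : IsIwasawaLog p L) {z : ℂ_[p]} (hz : ‖z‖ ≤ 1 / 8) :
    ‖L (1 + z)‖ ≤ 2 * ‖z‖ := by
  have h1 := hL.approx hz
  have h2 : ‖L (1 + z)‖ ≤ ‖L (1 + z) - z‖ + ‖z‖ := by
    have h3 : L (1 + z) = (L (1 + z) - z) + z := by ring
    calc ‖L (1 + z)‖ = ‖(L (1 + z) - z) + z‖ := by rw [← h3]
      _ ≤ _ := norm_add_le _ _
  nlinarith [norm_nonneg z]

lemma log_prod {L : ℂ_[p] → ℂ_[p]} (hL : IsIwasawaLog p L) {r : ℕ} (β : Fin r → Fˣ)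
    (σ : F →+* ℂ_[p]) (m : Fin r → ℤ) : L (σ ((∏ i, β i ^ m i : Fˣ) : F)) =
      ∑ i, algebraMap ℚ_[p] ℂ_[p] (((m i : ℤ) : ℤ_[p]) : ℚ_[p]) * L (σ (β i : F)) := by
  have h3 : logHomF hL σ (Additive.ofMul (∏ i, β i ^ m i)) =
      ∑ i, m i • logHomF hL σ (Additive.ofMul (β i)) := by
    rw [ofMul_prod, map_sum]
    refine Finset.sum_congr rfl fun j _ => ?_
    rw [ofMul_zpow, map_zsmul]
  have h4 : L (σ ((∏ i, β i ^ m i : Fˣ) : F)) = logHomF hL σ (Additive.ofMul (∏ i, β i ^ m i)) :=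
    rfl
  rw [h4, h3]
  refine Finset.sum_congr rfl fun i _ => ?_
  rw [zsmul_eq_mul]
  congr 1
  simp

lemma tendsto_logs {r : ℕ} (c : Fin r → ℂ_[p]) (a : Fin r → ℤ_[p]) (m : ℕ → Fin r → ℤ)
    (hm : ∀ i, Tendsto (fun k => ((m k i : ℤ) : ℤ_[p])) atTop (𝓝 (a i))) :
    Tendsto (fun k => ∑ i, algebraMap ℚ_[p] ℂ_[p] (((m k i : ℤ) : ℤ_[p]) : ℚ_[p]) * c i) atTop
      (𝓝 (∑ i, algebraMap ℚ_[p] ℂ_[p] (a i : ℚ_[p]) * c i)) := by
  have hj : Continuous (fun x : PadicInt p => algebraMap ℚ_[p] ℂ_[p] (x : ℚ_[p])) :=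
    (continuous_algebraMap ℚ_[p] ℂ_[p]).comp continuous_subtype_val
  refine tendsto_finsetSum _ fun i _ => ?_
  exact ((hj.tendsto (a i)).comp (hm i)).mul_const _

/-- relations give relations between the logarithms -/
lemma log_of_rel {L : ℂ_[p] → ℂ_[p]} (hL : IsIwasawaLog p L) {r : ℕ} (β : Fin r → Fˣ)
    {a : Fin r → ℤ_[p]} (ha : IsPadicRelation p β a) (σ : F →+* ℂ_[p]) :
    ∑ i, algebraMap ℚ_[p] ℂ_[p] (a i : ℚ_[p]) * L (σ (β i : F)) = 0 := by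
  obtain ⟨m, hm, hlim⟩ := ha
  have h1 := tendsto_logs (fun i => L (σ (β i : F))) a m hm
  simp only [← log_prod hL] at h1
  have h2 : Tendsto (fun k => σ ((∏ i, β i ^ m k i : Fˣ) : F) - 1) atTop (𝓝 0) := by
    have h3 := (hlim σ).sub_const 1
    rw [sub_self] at h3
    exact h3
  have h3 : Tendsto (fun k => L (σ ((∏ i, β i ^ m k i : Fˣ) : F))) atTop (𝓝 0) := by
    have h4 : ∀ᶠ k in atTop, ‖σ ((∏ i, β i ^ m k i : Fˣ) : F) - 1‖ ≤ 1 / 8 := by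
      have h5 := h2.norm
      rw [norm_zero] at h5
      exact (h5.eventually (gt_mem_nhds (by norm_num : (0 : ℝ) < 1 / 8))).mono fun k hk => hk.le
    have h5 : ∀ᶠ k in atTop, ‖L (σ ((∏ i, β i ^ m k i : Fˣ) : F))‖ ≤
        2 * ‖σ ((∏ i, β i ^ m k i : Fˣ) : F) - 1‖ := by
      filter_upwards [h4] with k hk
      have h6 := norm_log_le hL hk
      rw [add_sub_cancel] at h6
      exact h6
    refine squeeze_zero_norm' h5 ?_
    have h6 := h2.norm.const_mul 2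
    rw [norm_zero, mul_zero] at h6
    exact h6
  exact tendsto_nhds_unique h1 h3

/-- the elements near `1` -/
def nearOne (p : ℕ) [hp : Fact p.Prime] : Subgroup ℂ_[p]ˣ where
  carrier := {u | ‖(u : ℂ_[p]) - 1‖ ≤ 1 / 8}
  one_mem' := by
    rw [Set.mem_ofPred_eq, Units.val_one, sub_self, norm_zero]
    norm_num
  mul_mem' := by
    intro u v hu hv
    rw [Set.mem_ofPred_eq] at hu hv ⊢
    have hv1 : ‖(v : ℂ_[p])‖ ≤ 1 := by
      have h1 : (v : ℂ_[p]) = ((v : ℂ_[p]) - 1) + 1 := by ring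
      rw [h1]
      refine (IsUltrametricDist.norm_add_le_max _ _).trans (max_le (hv.trans (by norm_num)) ?_)
      rw [norm_one]
    have h2 : ((u * v : ℂ_[p]ˣ) : ℂ_[p]) - 1 = ((u : ℂ_[p]) - 1) * v + ((v : ℂ_[p]) - 1) := by
      rw [Units.val_mul]
      ring
    rw [h2]
    refine (IsUltrametricDist.norm_add_le_max _ _).trans (max_le ?_ hv)
    rw [norm_mul]
    calc ‖(u : ℂ_[p]) - 1‖ * ‖(v : ℂ_[p])‖ ≤ 1 / 8 * 1 := by gcongr
      _ = 1 / 8 := mul_one _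
  inv_mem' := by
    intro u hu
    rw [Set.mem_ofPred_eq] at hu ⊢
    have h0 : 1 ≤ ‖(u : ℂ_[p])‖ := by
      by_contra hcon
      push Not at hcon
      have h1 : (1 : ℂ_[p]) = (u : ℂ_[p]) - ((u : ℂ_[p]) - 1) := by ring
      have h2 : ‖(1 : ℂ_[p])‖ ≤ max ‖(u : ℂ_[p])‖ ‖(u : ℂ_[p]) - 1‖ := by
        have h3 := IsUltrametricDist.norm_add_le_max (u : ℂ_[p]) (-((u : ℂ_[p]) - 1))
        rw [norm_neg, ← sub_eq_add_neg, ← h1] at h3
        exact h3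
      rw [norm_one] at h2
      rcases le_max_iff.1 h2 with h3 | h3
      · exact absurd h3 (not_le.2 hcon)
      · exact absurd (h3.trans hu) (by norm_num)
    have h2 : ((u⁻¹ : ℂ_[p]ˣ) : ℂ_[p]) - 1 = -(((u : ℂ_[p]) - 1) * (u : ℂ_[p])⁻¹) := by
      rw [Units.val_inv_eq_inv_val, sub_mul, mul_inv_cancel₀ (Units.ne_zero u)]
      ring
    rw [h2, norm_neg, norm_mul, norm_inv]
    have h3 : ‖(u : ℂ_[p])‖⁻¹ ≤ 1 := inv_le_one_of_one_le₀ h0
    calc ‖(u : ℂ_[p]) - 1‖ * ‖(u : ℂ_[p])‖⁻¹ ≤ 1 / 8 * 1 := by gcongr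
      _ = 1 / 8 := mul_one _

lemma mem_nearOne (u : ℂ_[p]ˣ) : u ∈ nearOne p ↔ ‖(u : ℂ_[p]) - 1‖ ≤ 1 / 8 := by
  rw [← SetLike.mem_coe]
  exact Set.mem_ofPred_eq ▸ Iff.rfl

/-- relations between the logarithms give relations -/
lemma rel_of_log {L : ℂ_[p] → ℂ_[p]} (hL : IsIwasawaLog p L) {r : ℕ} (β : Fin r → Fˣ)
    (hβ : ∀ (σ : F →+* ℂ_[p]) i, ‖σ (β i : F)‖ = 1) : ∃ N : ℕ, N ≠ 0 ∧ ∀ b : Fin r → ℤ_[p],
      (∀ σ : F →+* ℂ_[p],
        ∑ i, algebraMap ℚ_[p] ℂ_[p] (b i : ℚ_[p]) * L (σ (β i : F)) = 0) →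
      IsPadicRelation p β (fun i => (N : ℤ_[p]) * b i) := by
  classical
  choose M hM hM2 using fun (σ : F →+* ℂ_[p]) (i : Fin r) =>
    (nearU_of_norm σ (β i) (hβ σ i)).near (1 / 8) (by norm_num)
  set N : ℕ := ∏ σ : F →+* ℂ_[p], ∏ i, M σ i with hN
  have hN0 : N ≠ 0 := by
    rw [hN, Finset.prod_ne_zero_iff]
    intro σ _
    rw [Finset.prod_ne_zero_iff]
    intro i _
    have := hM σ i
    omega
  have hdvd : ∀ σ i, M σ i ∣ N := fun σ i =>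
    (Finset.dvd_prod_of_mem _ (Finset.mem_univ i)).trans
      (Finset.dvd_prod_of_mem (fun σ => ∏ i, M σ i) (Finset.mem_univ σ))
  have hB : ∀ (σ : F →+* ℂ_[p]) i, Units.map (σ : F →* ℂ_[p]) (β i) ^ N ∈ nearOne p := by
    intro σ i
    obtain ⟨c, hc⟩ := hdvd σ i
    rw [hc, pow_mul]
    refine Subgroup.pow_mem _ ?_ c
    rw [mem_nearOne, Units.val_pow_eq_pow_val]
    exact (hM2 σ i).le
  refine ⟨N, hN0, fun b hb => ?_⟩
  choose m hm using fun i => exists_seq (b i)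
  have hm' : ∀ i, Tendsto (fun k => ((((N : ℤ) * m i k : ℤ)) : ℤ_[p])) atTop
      (𝓝 ((N : ℤ_[p]) * b i)) := by
    intro i
    have h1 := (hm i).const_mul (N : ℤ_[p])
    refine h1.congr fun k => ?_
    push_cast
    rfl
  refine ⟨fun k i => (N : ℤ) * m i k, hm', fun σ => ?_⟩
  set x : ℕ → ℂ_[p] := fun k => σ ((∏ i, β i ^ ((N : ℤ) * m i k) : Fˣ) : F) with hx
  have hx1 : ∀ k, ‖x k - 1‖ ≤ 1 / 8 := by
    intro k
    have h1 : Units.map (σ : F →* ℂ_[p]) (∏ i, β i ^ ((N : ℤ) * m i k)) ∈ nearOne p := by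
      rw [map_prod]
      refine Subgroup.prod_mem _ fun i _ => ?_
      rw [map_zpow, zpow_mul, zpow_natCast]
      exact Subgroup.zpow_mem _ (hB σ i) _
    rw [mem_nearOne] at h1
    exact h1
  have hlog : Tendsto (fun k => L (x k)) atTop (𝓝 0) := by
    have h1 := tendsto_logs (fun i => L (σ (β i : F))) _ (fun k i => (N : ℤ) * m i k) hm'
    simp only [← log_prod hL] at h1
    have h2 : ∑ i, algebraMap ℚ_[p] ℂ_[p] (((N : ℤ_[p]) * b i : ℤ_[p]) : ℚ_[p]) *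
        L (σ (β i : F)) = 0 := by
      have h3 : ∑ i, algebraMap ℚ_[p] ℂ_[p] (((N : ℤ_[p]) * b i : ℤ_[p]) : ℚ_[p]) *
          L (σ (β i : F)) = N * ∑ i, algebraMap ℚ_[p] ℂ_[p] (b i : ℚ_[p]) * L (σ (β i : F)) := by
        rw [Finset.mul_sum]
        refine Finset.sum_congr rfl fun i _ => ?_
        rw [PadicInt.coe_mul, map_mul, mul_assoc]
        congr 1
        simp
      rw [h3, hb, mul_zero]
    rw [h2] at h1
    exact h1
  have h2 : Tendsto (fun k => x k - 1) atTop (𝓝 0) := by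
    refine squeeze_zero_norm (a := fun k => 2 * ‖L (x k)‖) (fun k => ?_) ?_
    · have h3 := dist_le hL (hx1 k)
      rw [add_sub_cancel] at h3
      exact h3
    · have h3 := hlog.norm.const_mul 2
      rw [norm_zero, mul_zero] at h3
      exact h3
  have h3 := h2.add_const 1
  simp only [sub_add_cancel, zero_add] at h3
  exact h3

end Pool.Agent.X156.LD
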