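import Pool.Agent.X156.LD.Chi
import Pool.Agent.X156.LD.Orb
import Pool.Agent.X328.LP.Sig

/-!
# Embeddings over an embedding into `ℚ_p`
-/

set_option autoImplicit false
set_option linter.unusedSectionVars false
set_option maxHeartbeats 1000000

namespace Pool.Agent.X156.LD

open NumberField Module TensorProduct Pool.Agent.W289.SL Pool.Agent.W332.SL6
  Pool.Agent.X328.LP MonoidAlgebra Pool.Agent.Y419.LC.LcpP

variable {p : ℕ} [hp : Fact p.Prime]
variable {k H : Type} [Field k] [NumberField k] [Field H] [NumberField H] [Algebra k H]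

/-- the kernel over `ℚ_p` -/
noncomputable def KSQ (i₀ : k →+* ℚ_[p]) {L : ℂ_[p] → ℂ_[p]} (hL : IsIwasawaLog p L) (H : Type)
    [Field H] [NumberField H] [Algebra k H] : Submodule ℚ_[p] (UM p H) where
  carrier := {x | x ∈ UQ p H ∧ KerS i₀ hL x}
  add_mem' := by
    rintro a b ⟨ha, ha'⟩ ⟨hb, hb'⟩
    refine ⟨Submodule.add_mem _ ha hb, fun σ hσ => ?_⟩
    rw [map_add, ha' σ hσ, hb' σ hσ, add_zero]
  zero_mem' := ⟨Submodule.zero_mem _, fun σ _ => map_zero _⟩
  smul_mem' := by
    rintro c a ⟨ha, ha'⟩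
    refine ⟨Submodule.smul_mem _ _ ha, fun σ hσ => ?_⟩
    rw [logLin_smulQ, ha' σ hσ, mul_zero]

/-- the kernel over `ℂ_p` -/
noncomputable def KSC (i₀ : k →+* ℚ_[p]) {L : ℂ_[p] → ℂ_[p]} (hL : IsIwasawaLog p L) (H : Type)
    [Field H] [NumberField H] [Algebra k H] : Submodule ℂ_[p] (UM p H) where
  carrier := {x | KerS i₀ hL x}
  add_mem' := by
    intro a b ha' hb' σ hσ
    rw [map_add, ha' σ hσ, hb' σ hσ, add_zero]
  zero_mem' := fun σ _ => map_zero _
  smul_mem' := by
    intro c a ha' σ hσ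
    rw [map_smul, ha' σ hσ, smul_zero]

instance (i₀ : k →+* ℚ_[p]) {L : ℂ_[p] → ℂ_[p]} (hL : IsIwasawaLog p L) :
    FiniteDimensional ℚ_[p] (KSQ i₀ hL H) :=
  Submodule.finiteDimensional_of_le (fun _ hx => hx.1 : KSQ i₀ hL H ≤ UQ p H)

instance : FiniteDimensional ℂ_[p] (UM p H) := by
  have h1 : (⊤ : Submodule ℂ_[p] (UM p H)) =
      Submodule.span ℂ_[p] (Set.range fun i => ((1 : ℂ_[p]) ⊗ₜ[ℤ] fu H i : UM p H)) := by
    symm
    rw [eq_top_iff]
    intro x _
    obtain ⟨b, hb⟩ := decomp x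
    rw [hb]
    exact Submodule.sum_mem _ fun i _ => Submodule.smul_mem _ _ (Submodule.subset_span ⟨i, rfl⟩)
  have h2 : FiniteDimensional ℂ_[p] (⊤ : Submodule ℂ_[p] (UM p H)) := by
    rw [h1]
    exact FiniteDimensional.span_of_finite _ (Set.finite_range _)
  exact Module.finite_def.2 ((Submodule.fg_top _).1 (Module.finite_def.1 h2) |> fun h => by
    simpa using h)

lemma fmap_smul {v : UM p H} (hv : v ∈ UQ p H) (φ : ℂ_[p] →ₗ[ℚ_[p]] ℚ_[p]) (a : ℂ_[p]) :
    fmap φ (a • v) = φ a • v := by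
  induction hv using Submodule.span_induction with
  | mem x hx =>
    obtain ⟨u, rfl⟩ := hx
    simp only
    rw [TensorProduct.smul_tmul', smul_eq_mul, mul_one, fmap_tmul, ← algebraMap_smul ℂ_[p] (φ a),
      TensorProduct.smul_tmul', smul_eq_mul, mul_one]
  | zero => rw [smul_zero, map_zero, smul_zero]
  | add x y _ _ hx hy => rw [smul_add, map_add, hx, hy, smul_add]
  | smul c x _ hx =>
    have h1 : a • c • x = c • a • x := smul_comm _ _ _
    have h2 : ∀ y : UM p H, fmap φ (c • y) = c • fmap φ y := by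
      intro y
      induction y using TensorProduct.induction_on with
      | zero => rw [smul_zero, map_zero, smul_zero]
      | add y y' hy hy' => rw [smul_add, map_add, hy, hy', map_add, smul_add]
      | tmul b u =>
        rw [TensorProduct.smul_tmul', fmap_tmul, fmap_tmul, map_smul, smul_eq_mul, map_mul,
          TensorProduct.smul_tmul', Algebra.smul_def]
    rw [h1, h2, hx, smul_comm]

lemma fmap_mem (φ : ℂ_[p] →ₗ[ℚ_[p]] ℚ_[p]) (x : UM p H) : fmap φ x ∈ UQ p H := by
  induction x using TensorProduct.induction_on with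
  | zero => rw [map_zero]; exact Submodule.zero_mem _
  | add x y hx hy => rw [map_add]; exact Submodule.add_mem _ hx hy
  | tmul a u =>
    rw [fmap_tmul]
    have h1 : (algebraMap ℚ_[p] ℂ_[p] (φ a)) ⊗ₜ[ℤ] u = φ a • ((1 : ℂ_[p]) ⊗ₜ[ℤ] u : UM p H) := by
      rw [TensorProduct.smul_tmul', Algebra.smul_def, mul_one]
    rw [h1]
    exact Submodule.smul_mem _ _ (Submodule.subset_span ⟨u, rfl⟩)

/-- **Descent.** -/
theorem finrank_KSC (i₀ : k →+* ℚ_[p]) {L : ℂ_[p] → ℂ_[p]} (hL : IsIwasawaLog p L) :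
    finrank ℂ_[p] (KSC i₀ hL H) = finrank ℚ_[p] (KSQ i₀ hL H) := by
  classical
  let b := finBasis ℚ_[p] (KSQ i₀ hL H)
  let v : Fin (finrank ℚ_[p] (KSQ i₀ hL H)) → UM p H := fun i => (b i : UM p H)
  have hvQ : LinearIndependent ℚ_[p] v := by
    have h1 := b.linearIndependent.map' (KSQ i₀ hL H).subtype (Submodule.ker_subtype _)
    exact h1
  have hvC : LinearIndependent ℂ_[p] v := by
    rw [Fintype.linearIndependent_iff]
    intro g hg i
    refine (Module.forall_dual_apply_eq_zero_iff ℚ_[p] (g i)).1 fun φ => ?_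
    have h1 := congrArg (fmap φ) hg
    rw [map_zero, map_sum] at h1
    have h2 : ∑ i, φ (g i) • v i = 0 := by
      rw [← h1]
      refine Finset.sum_congr rfl fun i _ => ?_
      exact (fmap_smul (b i).2.1 φ (g i)).symm
    exact Fintype.linearIndependent_iff.1 hvQ (fun i => φ (g i)) h2 i
  have hspan : Submodule.span ℂ_[p] (Set.range v) = KSC i₀ hL H := by
    apply le_antisymm
    · rw [Submodule.span_le]
      rintro _ ⟨i, rfl⟩
      exact (b i).2.2
    · intro x hx
      have hKQ : ∀ y ∈ KSQ i₀ hL H, y ∈ Submodule.span ℂ_[p] (Set.range v) := by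
        intro y hy
        have h1 := b.sum_repr ⟨y, hy⟩
        have h2 := congrArg (fun z : KSQ i₀ hL H => (z : UM p H)) h1
        simp only at h2
        rw [← h2, Submodule.coe_sum]
        refine Submodule.sum_mem _ fun i _ => ?_
        rw [Submodule.coe_smul, ← algebraMap_smul ℂ_[p]]
        exact Submodule.smul_mem _ _ (Submodule.subset_span ⟨i, rfl⟩)
      obtain ⟨c, hc⟩ := decomp x
      -- a basis of the span of the coefficients
      let B : Submodule ℚ_[p] ℂ_[p] := Submodule.span ℚ_[p] (Set.range c)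
      have hBf : FiniteDimensional ℚ_[p] B := FiniteDimensional.span_of_finite _ (Set.finite_range _)
      let e := finBasis ℚ_[p] B
      choose φ hφ using fun j => LinearMap.exists_extend (e.coord j)
      have hci : ∀ i, c i = ∑ j, algebraMap ℚ_[p] ℂ_[p] (φ j (c i)) * (e j : ℂ_[p]) := by
        intro i
        have hi : c i ∈ B := Submodule.subset_span ⟨i, rfl⟩
        have h1 := e.sum_repr ⟨c i, hi⟩
        have h2 := congrArg (fun z : B => (z : ℂ_[p])) h1
        simp only at h2
        conv_lhs => rw [← h2]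
        rw [Submodule.coe_sum]
        refine Finset.sum_congr rfl fun j _ => ?_
        have h3 : φ j (c i) = e.repr ⟨c i, hi⟩ j := by
          have h4 := congrArg (fun f : B →ₗ[ℚ_[p]] ℚ_[p] => f ⟨c i, hi⟩) (hφ j)
          exact h4
        rw [h3, Submodule.coe_smul, Algebra.smul_def]
      have hx' : x = ∑ j, (e j : ℂ_[p]) • fmap (φ j) x := by
        have h1 : ∀ j, fmap (φ j) x = ∑ i, φ j (c i) • ((1 : ℂ_[p]) ⊗ₜ[ℤ] fu H i : UM p H) := by
          intro j
          rw [hc, map_sum]
          refine Finset.sum_congr rfl fun i _ => ?_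
          exact fmap_smul (Submodule.subset_span ⟨_, rfl⟩) _ _
        simp only [h1, Finset.smul_sum]
        rw [Finset.sum_comm]
        conv_lhs => rw [hc]
        refine Finset.sum_congr rfl fun i _ => ?_
        conv_lhs => rw [hci i, Finset.sum_smul]
        refine Finset.sum_congr rfl fun j _ => ?_
        rw [← algebraMap_smul ℂ_[p] (φ j (c i)), smul_smul, mul_comm]
      rw [hx']
      refine Submodule.sum_mem _ fun j _ => Submodule.smul_mem _ _ (hKQ _ ⟨fmap_mem _ _, ?_⟩)
      exact kerS_fmap i₀ hL hx (φ j)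
  rw [← hspan, finrank_span_eq_card hvC, Fintype.card_fin]

end Pool.Agent.X156.LD
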