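import Pool.Agent.X156.LD.Sg
import Pool.Agent.X328.LP.Sig4

/-!
# The sum over the characters
-/

set_option autoImplicit false
set_option linter.unusedSectionVars false
set_option maxHeartbeats 1000000

namespace Pool.Agent.X156.LD

open NumberField Module TensorProduct Pool.Agent.W289.SL Pool.Agent.W332.SL6
  Pool.Agent.X328.LP MonoidAlgebra

variable {p : ℕ} [hp : Fact p.Prime]
variable {k H : Type} [Field k] [NumberField k] [Field H] [NumberField H] [Algebra k H]

lemma over_comp (i₀ : k →+* ℚ_[p]) {σ : H →+* ℂ_[p]} (hσ : Over i₀ H σ) (f : H →+* H)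
    (hf : ∀ x : k, f (algebraMap k H x) = algebraMap k H x) : Over i₀ H (σ.comp f) := by
  unfold Over at hσ ⊢
  refine RingHom.ext fun x => ?_
  have h1 := congrArg (fun g : k →+* ℂ_[p] => g x) hσ
  change σ (f (algebraMap k H x)) = _
  rw [hf]
  exact h1

lemma kerS_rho (i₀ : k →+* ℚ_[p]) {L : ℂ_[p] → ℂ_[p]} (hL : IsIwasawaLog p L) {x : UM p H}
    (hx : KerS i₀ hL x) (g : H ≃ₐ[k] H) : KerS i₀ hL (rho p k H g x) := by
  intro σ hσ
  rw [logLin_rho]
  exact hx _ (over_comp i₀ hσ (g : H →+* H) fun y => g.commutes y)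

lemma kerS_act' (i₀ : k →+* ℚ_[p]) {L : ℂ_[p] → ℂ_[p]} (hL : IsIwasawaLog p L) {x : UM p H}
    (hx : KerS i₀ hL x) (a : MonoidAlgebra ℚ_[p] (H ≃ₐ[k] H)) : KerS i₀ hL (act p k H a x) := by
  intro σ hσ
  induction a using MonoidAlgebra.induction_linear with
  | zero => rw [map_zero, LinearMap.zero_apply, map_zero]
  | add a b ha hb => rw [map_add, LinearMap.add_apply, map_add, ha, hb, add_zero]
  | single g c => rw [act_single, logLin_smulQ, kerS_rho i₀ hL hx g σ hσ, mul_zero]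

/-- the representation on the kernel -/
noncomputable def kerRepS (i₀ : k →+* ℚ_[p]) {L : ℂ_[p] → ℂ_[p]} (hL : IsIwasawaLog p L)
    (H : Type) [Field H] [NumberField H] [Algebra k H] :
    Representation ℚ_[p] (H ≃ₐ[k] H) (KSQ i₀ hL H) :=
  (⟨KSQ i₀ hL H, fun g x hx => by
    refine ⟨?_, kerS_rho i₀ hL hx.2 g⟩
    have h2 : UQ p H ≤ (UQ p H).comap (rho p k H g) := by
      unfold UQ
      rw [Submodule.span_le]
      rintro _ ⟨u, rfl⟩
      exact Submodule.subset_span ⟨gu g u, rfl⟩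
    exact h2 hx.1⟩ : Subrepresentation (rho p k H)).toRepresentation

lemma act_coeS (i₀ : k →+* ℚ_[p]) {L : ℂ_[p] → ℂ_[p]} (hL : IsIwasawaLog p L)
    (r : MonoidAlgebra ℚ_[p] (H ≃ₐ[k] H)) (s : KSQ i₀ hL H) :
    (((kerRepS i₀ hL H).asAlgebraHom r s : KSQ i₀ hL H) : UM p H) = act p k H r (s : UM p H) := by
  induction r using MonoidAlgebra.induction_linear with
  | zero => rw [map_zero, map_zero, LinearMap.zero_apply, LinearMap.zero_apply]; rfl
  | add a b ha hb =>
    rw [map_add, map_add, LinearMap.add_apply, LinearMap.add_apply, ← ha, ← hb]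
    rfl
  | single g c =>
    rw [Representation.asAlgebraHom_single, act_single]
    rfl

variable [IsGalois k H]

/-- **The irreducible parts of the kernel.** -/
theorem ker_partS (i₀ : k →+* ℚ_[p]) {L : ℂ_[p] → ℂ_[p]} (hL : IsIwasawaLog p L)
    (hk : Units.rank k = 0) {z' : MonoidAlgebra ℚ_[p] (H ≃ₐ[k] H)}
    (hz'z' : z' * z' = z') (hz'c : ∀ r, z' * r = r * z')
    (hred : ∀ x, (z' * avg ℚ_[p] (⊥ : Subgroup (H ≃ₐ[k] H))) * x *
      (z' * avg ℚ_[p] (⊥ : Subgroup (H ≃ₐ[k] H))) = x → x * x = 0 → x = 0)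
    {v : UM p H} (hv : v ∈ UQ p H) (hvk : KerS i₀ hL v) (hzv : act p k H z' v = v) : v = 0 := by
  classical
  have hfd : FiniteDimensional k H := Module.Finite.of_restrictScalars_finite ℚ k H
  have : NeZero (Nat.card (H ≃ₐ[k] H) : ℚ_[p]) := ⟨Nat.cast_ne_zero.2 Nat.card_pos.ne'⟩
  set e := avg ℚ_[p] (⊥ : Subgroup (H ≃ₐ[k] H)) with he
  have hee : e * e = e := avg_mul_self _
  set e' := z' * e with he'
  have he'e' : e' * e' = e' := by
    rw [he', mul_assoc, ← mul_assoc e, ← hz'c e, mul_assoc z' e e, hee, ← mul_assoc, hz'z']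
  obtain ⟨u, hu, hspan⟩ := exists_minkowski (k := k) (F := H) hk (Classical.arbitrary _)
  set η : UM p H := (1 : ℂ_[p]) ⊗ₜ[ℤ] u with hη
  have heη : act p k H e η = η := by
    refine act_avg_of_fixed fun d hd => ?_
    rw [Subgroup.mem_bot] at hd
    rw [hd, map_one]
    rfl
  let N : Ideal (MonoidAlgebra ℚ_[p] (H ≃ₐ[k] H)) :=
    { carrier := {a | KerS i₀ hL (act p k H a η)}
      add_mem' := by
        intro a b ha hb σ hσ
        rw [map_add, LinearMap.add_apply, map_add, ha σ hσ, hb σ hσ, add_zero]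
      zero_mem' := by
        intro σ _
        rw [map_zero, LinearMap.zero_apply, map_zero]
      smul_mem' := by
        intro c a ha
        change KerS i₀ hL (act p k H (c * a) η)
        rw [act_mul]
        exact kerS_act' i₀ hL ha c }
  obtain ⟨z, hz, hzc, ⟨x0, hx0, hx0'⟩, hN⟩ := exists_central_of_hecke he'e' hred N
  have hzz : (z * z') * (z * z') = z * z' := by
    rw [mul_assoc, ← mul_assoc z', hz'c z, mul_assoc z z' z', hz'z', ← mul_assoc, hz]
  have hzzc : ∀ r, (z * z') * r = r * (z * z') := by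
    intro r
    rw [mul_assoc, hz'c, ← mul_assoc, hzc, mul_assoc]
  have hzη : act p k H (z * z') η = 0 := by
    have h1 : KerS i₀ hL (act p k H (z * z') η) := by
      have h2 : act p k H (z * z') η = act p k H z' (act p k H x0 η) := by
        calc act p k H (z * z') η = act p k H (z * z' * e) η := by rw [act_mul (z * z'), heη]
          _ = act p k H (x0 * z' * e) η := by
              rw [mul_assoc z, ← he', ← hx0', he', mul_assoc x0]
          _ = act p k H (z' * x0) η := by rw [act_mul (x0 * z'), heη, hz'c]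
          _ = act p k H z' (act p k H x0 η) := by rw [act_mul]
      rw [h2]
      exact kerS_act' i₀ hL hx0 z'
    have h2 : act p k H (z * z') η ∈ AU p H := act_mem_AU (coeff_alg hzz hzzc) u
    obtain ⟨σ, hσ⟩ := exists_over (H := H) i₀
    exact eq_zero_of_log hL σ h2 (h1 σ hσ)
  obtain ⟨x, hx⟩ : ∃ x, act p k H x η = v := by
    have h1 : UQ p H ≤ LinearMap.range ((act p k H).toLinearMap.flip η) := by
      unfold UQ
      rw [Submodule.span_le]
      rintro _ ⟨u', rfl⟩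
      obtain ⟨m, x, hm, hx⟩ := hspan u'
      have hm' : (m : ℚ_[p]) ≠ 0 := by exact_mod_cast hm
      refine ⟨(m : ℚ_[p])⁻¹ • ∑ g, single g (x g : ℚ_[p]), ?_⟩
      change act p k H ((m : ℚ_[p])⁻¹ • ∑ g, single g (x g : ℚ_[p])) η = _
      have h2 : act p k H (∑ g, single g (x g : ℚ_[p])) η = (m : ℚ_[p]) • ((1 : ℂ_[p]) ⊗ₜ[ℤ] u') := by
        rw [← tmul_zsmul', hx, TensorProduct.tmul_sum, map_sum, LinearMap.sum_apply]
        refine Finset.sum_congr rfl fun g _ => ?_
        rw [act_single, tmul_zsmul', rho_tmul]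
      rw [map_smul, LinearMap.smul_apply, h2, smul_smul, inv_mul_cancel₀ hm', one_smul]
    obtain ⟨x, hx⟩ := h1 hv
    exact ⟨x, hx⟩
  have hxN : x ∈ N := by
    change KerS i₀ hL (act p k H x η)
    rw [hx]
    exact hvk
  calc v = act p k H z' (act p k H x η) := by rw [hx, hzv]
    _ = act p k H (x * z' * e) η := by rw [← act_mul, hz'c, act_mul (x * z') e, heη]
    _ = act p k H (x * e' * z) η := by rw [mul_assoc x z' e, ← he', hN x hxN]
    _ = act p k H (x * (z * z')) η := by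
        rw [he']
        have h3 : x * (z' * e) * z = x * (z * z') * e := by
          calc x * (z' * e) * z = x * (z' * (e * z)) := by simp only [mul_assoc]
            _ = x * (z' * (z * e)) := by rw [hzc e]
            _ = x * (z' * z) * e := by simp only [mul_assoc]
            _ = x * (z * z') * e := by rw [hz'c z]
        rw [h3, act_mul _ e, heη]
    _ = 0 := by rw [act_mul, hzη, map_zero]

/-- **The dimension of the kernel.** -/
theorem mem_sigma (i₀ : k →+* ℚ_[p]) {L : ℂ_[p] → ℂ_[p]} (hL : IsIwasawaLog p L)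
    (hk : Units.rank k = 0) (P : Subgroup (H ≃ₐ[k] H)) (M : AddSubmonoid ℕ)
    (hd : IrrMem ℚ_[p] (⊥ : Subgroup (H ≃ₐ[k] H)) P M) :
    finrank ℚ_[p] (fixed (kerRepS i₀ hL H) P) ∈ M := by
  have hfd : FiniteDimensional k H := Module.Finite.of_restrictScalars_finite ℚ k H
  refine mem_general (kerRepS i₀ hL H) ⊥ P M hd ?_
  intro z h1 h2 h3 v h4
  apply Subtype.ext
  refine ker_partS i₀ hL hk h1 h2 h3 v.2.1 v.2.2 ?_
  rw [← act_coeS i₀ hL, h4]

theorem mem_sigma' (i₀ : k →+* ℚ_[p]) {L : ℂ_[p] → ℂ_[p]} (hL : IsIwasawaLog p L)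
    (hk : Units.rank k = 0) (M : AddSubmonoid ℕ)
    (hd : IrrMem ℚ_[p] (⊥ : Subgroup (H ≃ₐ[k] H)) ⊥ M) : finrank ℚ_[p] (KSQ i₀ hL H) ∈ M := by
  have h3 := mem_sigma i₀ hL hk ⊥ M hd
  have h4 : fixed (kerRepS i₀ hL H) (⊥ : Subgroup (H ≃ₐ[k] H)) = ⊤ := by
    rw [eq_top_iff]
    intro x _ h hh
    rw [Subgroup.mem_bot] at hh
    rw [hh, map_one]
    rfl
  rw [h4, finrank_top] at h3
  exact h3

theorem sigma_pgroup (i₀ : k →+* ℚ_[p]) {L : ℂ_[p] → ℂ_[p]} (hL : IsIwasawaLog p L)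
    (hk : Units.rank k = 0) {q : ℕ} [hq : Fact q.Prime]
    (hG : IsPGroup q (H ≃ₐ[k] H)) {ζ : ℂ_[p]} (hζ : IsPrimitiveRoot ζ q) :
    q * (minpoly ℚ_[p] ζ).natDegree ∣ finrank ℚ_[p] (KSQ i₀ hL H) := by
  have hfd : FiniteDimensional k H := Module.Finite.of_restrictScalars_finite ℚ k H
  have h1 := pgroup_modEq hG (kerRepS i₀ hL H) hζ
  have h2 := mem_sigma i₀ hL hk (commutator (H ≃ₐ[k] H)) ⊥ (irrMem_comm _)
  rw [AddSubmonoid.mem_bot] at h2
  rw [h2] at h1
  exact (Nat.modEq_zero_iff_dvd).1 h1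

section chars

variable {K : Type} [Field K] [NumberField K] [Algebra k K] [Algebra K H] [IsScalarTower k K H]

omit [IsGalois k H]

/-- the kernel of the logarithms on the part of a character -/
noncomputable def sigmaKernel {L : ℂ_[p] → ℂ_[p]} (hL : IsIwasawaLog p L) (K H : Type) [Field K]
    [NumberField K] [Field H] [NumberField H] [Algebra K H] (S : Set (K →+* ℂ_[p]))
    (χ : (H ≃ₐ[K] H) →* ℂ_[p]ˣ) : Submodule ℂ_[p] (UM p H) where
  carrier := {x | (∀ τ : H ≃ₐ[K] H, actLin p (τ : H →+* H) x = ((χ τ : ℂ_[p]ˣ) : ℂ_[p]) • x) ∧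
    ∀ σ : H →+* ℂ_[p], σ.comp (algebraMap K H) ∈ S → logLin hL σ x = 0}
  add_mem' := by
    rintro a b ⟨ha, ha'⟩ ⟨hb, hb'⟩
    refine ⟨fun τ => ?_, fun σ hσ => ?_⟩
    · rw [map_add, ha, hb, smul_add]
    · rw [map_add, ha' σ hσ, hb' σ hσ, add_zero]
  zero_mem' := ⟨fun τ => by rw [map_zero, smul_zero], fun σ _ => map_zero _⟩
  smul_mem' := by
    rintro c a ⟨ha, ha'⟩
    refine ⟨fun τ => ?_, fun σ hσ => ?_⟩
    · rw [map_smul, ha, smul_comm]
    · rw [map_smul, ha' σ hσ, smul_zero]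

/-- the action over `ℂ_p` -/
noncomputable def rhoC (p : ℕ) [Fact p.Prime] (K H : Type) [Field K] [NumberField K] [Field H]
    [NumberField H] [Algebra K H] : Representation ℂ_[p] (H ≃ₐ[K] H) (UM p H) where
  toFun g := actLin p (g : H →+* H)
  map_one' := by
    refine LinearMap.ext fun x => ?_
    have h := congrArg (fun f => f x) (map_one (rho p K H))
    exact h
  map_mul' g h := by
    refine LinearMap.ext fun x => ?_
    have h := congrArg (fun f => f x) (map_mul (rho p K H) g h)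
    exact h

/-- **The sum over the characters.** -/
theorem sum_sigma (i₀ : k →+* ℚ_[p]) {L : ℂ_[p] → ℂ_[p]} (hL : IsIwasawaLog p L)
    (S : Set (K →+* ℂ_[p])) (hS : ∀ τ : K →+* ℂ_[p], τ ∈ S ↔
      τ.comp (algebraMap k K) = (algebraMap ℚ_[p] ℂ_[p]).comp i₀)
    (hA : ∀ g h : H ≃ₐ[K] H, g * h = h * g) :
    ∑ᶠ χ : (H ≃ₐ[K] H) →* ℂ_[p]ˣ, finrank ℂ_[p] (sigmaKernel hL K H S χ) =
      finrank ℚ_[p] (KSQ i₀ hL H) := by
  classical
  have hfd : FiniteDimensional K H := Module.Finite.of_restrictScalars_finite ℚ K H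
  have hft : Fintype ((H ≃ₐ[K] H) →* ℂ_[p]ˣ) := Fintype.ofFinite _
  rw [finsum_eq_sum_of_fintype, ← finrank_KSC]
  have hover : ∀ σ : H →+* ℂ_[p], σ.comp (algebraMap K H) ∈ S ↔ Over i₀ H σ := by
    intro σ
    rw [hS]
    unfold Over
    rw [RingHom.comp_assoc, ← IsScalarTower.algebraMap_eq k K H]
  have hst : Stable (rhoC p K H) (KSC i₀ hL H) := by
    intro τ x hx σ hσ
    change logLin hL σ (rho p K H τ x) = 0
    rw [logLin_rho]
    refine hx _ (over_comp i₀ hσ (τ : H →+* H) fun y => ?_)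
    rw [IsScalarTower.algebraMap_apply k K H]
    exact τ.commutes _
  rw [← sum_eig hA (rhoC p K H) _ (KSC i₀ hL H) rfl hst]
  refine Finset.sum_congr rfl fun χ _ => ?_
  have h1 : sigmaKernel hL K H S χ = KSC i₀ hL H ⊓ eig (rhoC p K H) χ := by
    ext x
    constructor
    · rintro ⟨h1, h2⟩
      exact ⟨fun σ hσ => h2 σ ((hover σ).2 hσ), fun τ => h1 τ⟩
    · rintro ⟨h1, h2⟩
      exact ⟨fun τ => h2 τ, fun σ hσ => h1 σ ((hover σ).1 hσ)⟩
  rw [h1]

end chars

end Pool.Agent.X156.LD
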