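import Pool.Agent.X156.LD.Cong

/-!
# Representations of groups of prime power order and the derived series

An irreducible representation over an algebraically closed field of characteristic zero of a
`q`-group which is nontrivial on the `a`-th derived subgroup has degree divisible by `q ^ a`.
-/

set_option autoImplicit false
set_option linter.unusedSectionVars false
set_option maxHeartbeats 1000000

namespace Pool.Agent.X156.LD

open Module Pool.Agent.X156.SD

universe u v

/-- irreducible representations -/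
def Irred {K : Type*} [Field K] {G : Type*} [Group G] {V : Type*} [AddCommGroup V] [Module K V]
    (ρ : Representation K G V) : Prop :=
  Nontrivial V ∧ ∀ T : Submodule K V, Stable ρ T → T = ⊥ ∨ T = ⊤

section

variable {K : Type*} [Field K] [IsAlgClosed K] {G : Type*} [Group G] [Finite G]
  {V : Type*} [AddCommGroup V] [Module K V] [FiniteDimensional K V]

lemma eig_exists [Nontrivial V] (B : V →ₗ[K] V) :
    ∃ b : K, Module.End.eigenspace B b ≠ ⊥ := by
  obtain ⟨b, hb⟩ := Module.End.exists_eigenvalue B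
  obtain ⟨v, hv⟩ := hb.exists_hasEigenvector
  refine ⟨b, fun h => hv.2 ?_⟩
  have h1 := hv.1
  have h2 : v ∈ Module.End.eigenspace B b := h1
  rw [h] at h2
  exact h2

lemma schur {ρ : Representation K G V} (h : Irred ρ) (B : V →ₗ[K] V)
    (hB : ∀ g x, B (ρ g x) = ρ g (B x)) : ∃ b : K, ∀ x, B x = b • x := by
  have hnt := h.1
  obtain ⟨b, hb⟩ := eig_exists (K := K) B
  have hst : Stable ρ (Module.End.eigenspace B b) := by
    intro g x hx
    rw [Module.End.mem_eigenspace_iff] at hx ⊢
    rw [hB, hx, map_smul]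
  rcases h.2 _ hst with h1 | h1
  · exact absurd h1 hb
  · refine ⟨b, fun x => ?_⟩
    have h2 : x ∈ Module.End.eigenspace B b := by
      rw [h1]
      trivial
    exact Module.End.mem_eigenspace_iff.1 h2

/-- the elements acting as scalars -/
def scal (ρ : Representation K G V) : Subgroup G where
  carrier := {g | ∃ b : K, ∀ x, ρ g x = b • x}
  mul_mem' := by
    rintro g h ⟨a, ha⟩ ⟨b, hb⟩
    refine ⟨b * a, fun x => ?_⟩
    rw [map_mul]
    change ρ g (ρ h x) = _
    rw [hb, map_smul, ha, smul_smul]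
  one_mem' := ⟨1, fun x => by rw [map_one, one_smul]; rfl⟩
  inv_mem' := by
    rintro g ⟨b, hb⟩
    by_cases hb0 : b = 0
    · refine ⟨1, fun x => ?_⟩
      have h1 : x = 0 := by
        have h2 : ρ g⁻¹ (ρ g x) = x := by
          change (ρ g⁻¹ * ρ g) x = x
          rw [← map_mul, inv_mul_cancel, map_one]
          rfl
        rw [← h2, hb, hb0, zero_smul, map_zero]
      rw [h1, map_zero, smul_zero]
    · refine ⟨b⁻¹, fun x => ?_⟩
      have h2 : ρ g⁻¹ (ρ g x) = x := by
        change (ρ g⁻¹ * ρ g) x = x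
        rw [← map_mul, inv_mul_cancel, map_one]
        rfl
      have h3 : b • ρ g⁻¹ x = x := by
        rw [← map_smul, ← hb, h2]
      calc ρ g⁻¹ x = b⁻¹ • (b • ρ g⁻¹ x) := by rw [smul_smul, inv_mul_cancel₀ hb0, one_smul]
        _ = b⁻¹ • x := by rw [h3]

lemma rho_mul (ρ : Representation K G V) (g h : G) (x : V) : ρ (g * h) x = ρ g (ρ h x) := by
  rw [map_mul]
  rfl

lemma rho_inv (ρ : Representation K G V) (g : G) (x : V) : ρ g⁻¹ (ρ g x) = x := by
  rw [← rho_mul, inv_mul_cancel, map_one]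
  rfl

lemma rho_inv' (ρ : Representation K G V) (g : G) (x : V) : ρ g (ρ g⁻¹ x) = x := by
  rw [← rho_mul, mul_inv_cancel, map_one]
  rfl

instance scal_normal (ρ : Representation K G V) : (scal ρ).Normal where
  conj_mem := by
    rintro g ⟨b, hb⟩ h
    refine ⟨b, fun x => ?_⟩
    rw [rho_mul, rho_mul, hb, map_smul, rho_inv']

lemma commutator_of_scal {ρ : Representation K G V} (h : scal ρ = ⊤) (g : G)
    (hg : g ∈ commutator G) : ρ g = 1 := by
  have h1 : commutator G ≤ (MonoidHom.ker ρ) := by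
    rw [commutator_def, Subgroup.commutator_le]
    intro x _ y _
    rw [MonoidHom.mem_ker]
    apply LinearMap.ext
    intro v
    have hy : y ∈ scal ρ := by
      rw [h]
      trivial
    obtain ⟨b, hb⟩ := hy
    rw [commutatorElement_def, rho_mul, rho_mul, rho_mul, hb, map_smul, rho_inv', ← hb, rho_inv']
    rfl
  exact h1 hg

/-- **A twisting element**: an element `z` which the group multiplies by a character of order
`q` -/
theorem exists_twist {q : ℕ} [hq : Fact q.Prime] (hG : IsPGroup q G) {ρ : Representation K G V}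
    (h : Irred ρ) (hna : ∃ g ∈ commutator G, ρ g ≠ 1) :
    ∃ (μ : G →* K) (z : G), (∃ g, μ g ≠ 1) ∧ (∀ g, μ g ^ q = 1) ∧
      ∀ g x, ρ g (ρ z x) = μ g • ρ z (ρ g x) := by
  have hnt := h.1
  have hne : scal ρ ≠ ⊤ := by
    intro h1
    obtain ⟨g, hg, hg2⟩ := hna
    exact hg2 (commutator_of_scal h1 g hg)
  have hpq : IsPGroup q (G ⧸ scal ρ) := hG.to_quotient _
  have hntq : Nontrivial (G ⧸ scal ρ) := QuotientGroup.nontrivial_iff.2 hne
  have hcen : Nontrivial (Subgroup.center (G ⧸ scal ρ)) := hpq.center_nontrivial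
  obtain ⟨⟨y, hy⟩, hy1⟩ := exists_ne (1 : Subgroup.center (G ⧸ scal ρ))
  obtain ⟨z, rfl⟩ := QuotientGroup.mk_surjective y
  have hz : z ∉ scal ρ := by
    intro h1
    apply hy1
    apply Subtype.ext
    exact (QuotientGroup.eq_one_iff z).2 h1
  have hcomm : ∀ g, ∃ b : K, ∀ x, ρ g (ρ z x) = b • ρ z (ρ g x) := by
    intro g
    have h1 : g * z * (z * g)⁻¹ ∈ scal ρ := by
      rw [← QuotientGroup.eq_one_iff]
      have h2 := Subgroup.mem_center_iff.1 hy (g : G ⧸ scal ρ)
      rw [QuotientGroup.mk_mul, QuotientGroup.mk_inv, QuotientGroup.mk_mul, QuotientGroup.mk_mul,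
        h2, mul_inv_cancel]
    obtain ⟨b, hb⟩ := h1
    refine ⟨b, fun x => ?_⟩
    rw [← rho_mul, ← rho_mul, ← hb, ← rho_mul, inv_mul_cancel_right]
  choose l hl using hcomm
  have hinj : ∀ (w : G) (x : V), ρ w x = 0 → x = 0 := by
    intro w x hx
    rw [← rho_inv ρ w x, hx, map_zero]
  obtain ⟨v, hv⟩ := exists_ne (0 : V)
  have huniq : ∀ (w g : G) (a b : K), a • ρ w (ρ g v) = b • ρ w (ρ g v) → a = b := by
    intro w g a b hab
    have h1 : (a - b) • ρ w (ρ g v) = 0 := by rw [sub_smul, hab, sub_self]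
    rcases smul_eq_zero.1 h1 with h2 | h2
    · exact sub_eq_zero.1 h2
    · exact absurd (hinj _ _ (hinj _ _ h2)) hv
  have hl1 : l 1 = 1 := by
    apply huniq z 1
    rw [← hl, map_one]
    change ρ z v = (1 : K) • ρ z v
    rw [one_smul]
  have hlm : ∀ g g', l (g * g') = l g * l g' := by
    intro g g'
    apply huniq z (g * g')
    rw [← hl, rho_mul, hl g', map_smul, hl g, ← rho_mul ρ g g', smul_smul, mul_comm]
  set lam : G →* K := { toFun := l, map_one' := hl1, map_mul' := hlm } with hlam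
  have hlam' : ∀ g x, ρ g (ρ z x) = lam g • ρ z (ρ g x) := hl
  -- powers
  have hpow : ∀ (m : ℕ) (g : G) (x : V), ρ g (ρ (z ^ m) x) = (lam g) ^ m • ρ (z ^ m) (ρ g x) := by
    intro m
    induction m with
    | zero =>
      intro g x
      rw [pow_zero, pow_zero, map_one, one_smul]
      rfl
    | succ m ih =>
      intro g x
      rw [pow_succ, rho_mul, ih, hlam', map_smul, smul_smul, ← rho_mul ρ (z ^ m) z, pow_succ]
  obtain ⟨n, hn⟩ := IsPGroup.iff_card.1 hG
  have hex : ∃ k, ∀ g, lam g ^ q ^ k = 1 := by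
    refine ⟨n, fun g => ?_⟩
    rw [← map_pow, ← hn, pow_card_eq_one', map_one]
  classical
  have hk := Nat.find_spec hex
  set k := Nat.find hex with hkdef
  have hk0 : k ≠ 0 := by
    intro h0
    rw [h0] at hk
    have h1 : ∀ g x, ρ z (ρ g x) = ρ g (ρ z x) := by
      intro g x
      have h2 := hk g
      rw [pow_zero, pow_one] at h2
      rw [hlam', h2, one_smul]
    obtain ⟨b, hb⟩ := schur h (ρ z) h1
    exact hz ⟨b, hb⟩
  obtain ⟨j, hj⟩ := Nat.exists_eq_succ_of_ne_zero hk0
  have hmin : ¬ ∀ g, lam g ^ q ^ j = 1 := Nat.find_min hex (by rw [← hkdef, hj]; exact j.lt_succ_self)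
  push Not at hmin
  refine ⟨(powMonoidHom (q ^ j)).comp lam, z ^ q ^ j, hmin, fun g => ?_, fun g x => hpow _ g x⟩
  change (lam g ^ q ^ j) ^ q = 1
  rw [← pow_mul, ← pow_succ]
  have h1 := hk g
  rw [hj] at h1
  exact h1

end

section

variable {K : Type*} [Field K] {G : Type*} [Group G] [Finite G]
  {V : Type*} [AddCommGroup V] [Module K V] [FiniteDimensional K V]

lemma rho_mul_any (ρ : Representation K G V) (g h : G) (x : V) : ρ (g * h) x = ρ g (ρ h x) := by
  rw [map_mul]
  rfl

/-- the sum of the translates of a subspace by the powers of an element -/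
noncomputable def spread (ρ : Representation K G V) (g₀ : G) (q : ℕ) (T : Submodule K V) :
    (Fin q → T) →ₗ[K] V :=
  ∑ j : Fin q, (ρ (g₀ ^ (j : ℕ))) ∘ₗ T.subtype ∘ₗ LinearMap.proj j

lemma spread_apply (ρ : Representation K G V) (g₀ : G) (q : ℕ) (T : Submodule K V)
    (f : Fin q → T) : spread ρ g₀ q T f = ∑ j : Fin q, ρ (g₀ ^ (j : ℕ)) (f j : V) := by
  unfold spread
  rw [LinearMap.sum_apply]
  rfl

lemma finrank_spread_le (ρ : Representation K G V) (g₀ : G) (q : ℕ) (T : Submodule K V) :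
    finrank K (LinearMap.range (spread ρ g₀ q T)) ≤ q * finrank K T := by
  refine (LinearMap.finrank_range_le _).trans ?_
  rw [Module.finrank_pi_fintype, Finset.sum_const, Finset.card_univ, Fintype.card_fin, smul_eq_mul]

lemma mem_spread (ρ : Representation K G V) (g₀ : G) {q : ℕ} (T : Submodule K V) (j : Fin q)
    {x : V} (hx : x ∈ T) : ρ (g₀ ^ (j : ℕ)) x ∈ LinearMap.range (spread ρ g₀ q T) := by
  classical
  refine ⟨Pi.single j ⟨x, hx⟩, ?_⟩
  rw [spread_apply, Finset.sum_eq_single j]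
  · rw [Pi.single_eq_same]
  · intro i _ hij
    rw [Pi.single_eq_of_ne hij]
    exact map_zero _
  · intro hj
    exact absurd (Finset.mem_univ j) hj

/-- the sum of the translates is invariant -/
lemma spread_stable {q : ℕ} [hq : Fact q.Prime] (ρ : Representation K G V) (μ : G →* K)
    (hμ : ∀ g, μ g ^ q = 1) {g₀ : G} (hg₀ : IsPrimitiveRoot (μ g₀) q) (T : Submodule K V)
    (hT : ∀ g, μ g = 1 → ∀ x ∈ T, ρ g x ∈ T) :
    Stable ρ (LinearMap.range (spread ρ g₀ q T)) := by
  rintro g _ ⟨f, rfl⟩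
  rw [spread_apply, map_sum]
  refine Submodule.sum_mem _ fun j _ => ?_
  have hne : NeZero q := ⟨hq.1.ne_zero⟩
  obtain ⟨i, hi, hi2⟩ := hg₀.eq_pow_of_pow_eq_one (hμ (g * g₀ ^ (j : ℕ)))
  have h1 : μ ((g₀ ^ i)⁻¹ * (g * g₀ ^ (j : ℕ))) = 1 := by
    have h2 : μ (g₀ ^ i) * μ ((g₀ ^ i)⁻¹ * (g * g₀ ^ (j : ℕ))) = μ (g₀ ^ i) := by
      rw [← map_mul, mul_inv_cancel_left, map_pow, hi2]
    have h3 : μ (g₀ ^ i) ≠ 0 := by
      intro h0
      have h4 := hμ (g₀ ^ i)
      rw [h0, zero_pow hq.1.ne_zero] at h4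
      exact zero_ne_one h4
    exact mul_left_cancel₀ h3 (by rw [h2, mul_one])
  have h2 := hT _ h1 (f j) (f j).2
  have h3 := mem_spread ρ g₀ T ⟨i, hi⟩ h2
  change ρ (g₀ ^ i) (ρ ((g₀ ^ i)⁻¹ * (g * g₀ ^ (j : ℕ))) (f j : V)) ∈ _ at h3
  rw [← rho_mul_any, mul_inv_cancel_left, rho_mul_any] at h3
  exact h3

variable [IsAlgClosed K]

/-- **Blocks.** -/
theorem blocks {q : ℕ} [hq : Fact q.Prime] {ρ : Representation K G V} (h : Irred ρ) (μ : G →* K)
    (z : G) (hμ1 : ∃ g, μ g ≠ 1) (hμ : ∀ g, μ g ^ q = 1)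
    (htw : ∀ g x, ρ g (ρ z x) = μ g • ρ z (ρ g x)) :
    ∃ T : Submodule K V, T ≠ ⊥ ∧ (∀ g, μ g = 1 → ∀ x ∈ T, ρ g x ∈ T) ∧
      finrank K V = q * finrank K T ∧
      ∀ T' ≤ T, (∀ g, μ g = 1 → ∀ x ∈ T', ρ g x ∈ T') → T' = ⊥ ∨ T' = T := by
  have hnt := h.1
  obtain ⟨β, hβ⟩ := eig_exists (K := K) (ρ z)
  obtain ⟨g₀, hg₀⟩ := hμ1
  have hprim : IsPrimitiveRoot (μ g₀) q := by
    have h1 := orderOf_eq_prime (hμ g₀) hg₀
    have h2 := IsPrimitiveRoot.orderOf (μ g₀)
    rwa [h1] at h2
  have hinj : ∀ (w : G) (x : V), ρ w x = 0 → x = 0 := by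
    intro w x hx
    rw [← rho_inv ρ w x, hx, map_zero]
  set T := Module.End.eigenspace (ρ z) β with hT
  have hTst : ∀ g, μ g = 1 → ∀ x ∈ T, ρ g x ∈ T := by
    intro g hg x hx
    rw [hT, Module.End.mem_eigenspace_iff] at hx ⊢
    have h1 := htw g x
    rw [hx, hg, one_smul, map_smul] at h1
    exact h1.symm
  have htop : ∀ T' : Submodule K V, T' ≠ ⊥ → (∀ g, μ g = 1 → ∀ x ∈ T', ρ g x ∈ T') →
      finrank K V ≤ q * finrank K T' := by
    intro T' hT' hst
    rcases h.2 _ (spread_stable ρ μ hμ hprim T' hst) with h1 | h1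
    · exfalso
      apply hT'
      rw [eq_bot_iff]
      intro x hx
      have h2 := mem_spread ρ g₀ T' (⟨0, hq.1.pos⟩ : Fin q) hx
      rw [h1] at h2
      have h3 : ρ (g₀ ^ 0) x = 0 := h2
      rw [pow_zero, map_one] at h3
      exact h3
    · have h2 := finrank_spread_le ρ g₀ q T'
      rw [h1, finrank_top] at h2
      exact h2
  have hβ0 : β ≠ 0 := by
    rintro rfl
    apply hβ
    rw [eq_bot_iff]
    intro x hx
    rw [Module.End.mem_eigenspace_iff, zero_smul] at hx
    exact hinj _ _ hx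
  have hζ0 : μ g₀ ≠ 0 := hprim.ne_zero hq.1.ne_zero
  have hlow : q * finrank K T ≤ finrank K V := by
    have h1 : Function.Injective (spread ρ g₀ q T) := by
      rw [injective_iff_map_eq_zero]
      intro f hf
      rw [spread_apply] at hf
      have h2 : Function.Injective (fun j : Fin q => (μ g₀ ^ (j : ℕ))⁻¹ * β) := by
        intro i j hij
        have h3 : (μ g₀ ^ (i : ℕ))⁻¹ = (μ g₀ ^ (j : ℕ))⁻¹ := mul_right_cancel₀ hβ0 hij
        have h4 := inv_injective h3
        exact Fin.ext (hprim.pow_inj i.2 j.2 h4)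
      have h3 := (Module.End.eigenspaces_iSupIndep (ρ z)).comp h2
      rw [iSupIndep_iff_finsetSum_eq_zero_imp_eq_zero] at h3
      have h4 := h3 Finset.univ (fun j => ρ (g₀ ^ (j : ℕ)) (f j : V)) (fun j _ => by
        change ρ (g₀ ^ (j : ℕ)) (f j : V) ∈ Module.End.eigenspace (ρ z) ((μ g₀ ^ (j : ℕ))⁻¹ * β)
        rw [Module.End.mem_eigenspace_iff]
        have h5 := htw (g₀ ^ (j : ℕ)) (f j : V)
        have h6 : ρ z (f j : V) = β • (f j : V) := Module.End.mem_eigenspace_iff.1 (f j).2
        rw [h6, map_smul, map_pow μ] at h5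
        rw [mul_smul, h5, smul_smul, inv_mul_cancel₀ (pow_ne_zero _ hζ0), one_smul]) hf
      funext j
      apply Subtype.ext
      exact hinj _ _ (h4 j (Finset.mem_univ j))
    have h2 := LinearMap.finrank_le_finrank_of_injective h1
    rwa [Module.finrank_pi_fintype, Finset.sum_const, Finset.card_univ, Fintype.card_fin,
      smul_eq_mul] at h2
  refine ⟨T, hβ, hTst, le_antisymm (htop T hβ hTst) hlow, fun T' hT' hst => ?_⟩
  by_cases h0 : T' = ⊥
  · exact Or.inl h0
  · right
    apply Submodule.eq_of_le_of_finrank_le hT'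
    exact Nat.le_of_mul_le_mul_left (hlow.trans (htop T' h0 hst)) hq.1.pos

end

lemma derived_le {G : Type*} [Group G] {H : Subgroup G} (h : commutator G ≤ H) (a : ℕ) :
    derivedSeries G (a + 1) ≤ (derivedSeries H a).map H.subtype := by
  induction a with
  | zero =>
    rw [derivedSeries_zero, ← MonoidHom.range_eq_map, Subgroup.range_subtype, zero_add,
      derivedSeries_one]
    exact h
  | succ a ih =>
    have h1 : derivedSeries G (a + 1 + 1) =
        ⁅derivedSeries G (a + 1), derivedSeries G (a + 1)⁆ := derivedSeries_succ G (a + 1)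
    rw [h1, derivedSeries_succ H a, Subgroup.map_commutator]
    exact Subgroup.commutator_mono ih ih

/-- **Degrees of the irreducible representations of a `q`-group nontrivial on the `a`-th derived
subgroup.** -/
theorem tower {K : Type*} [Field K] [IsAlgClosed K] (q : ℕ) [hq : Fact q.Prime] (a : ℕ) :
    ∀ {G : Type u} [Group G] [Finite G] (_ : IsPGroup q G) {V : Type v} [AddCommGroup V]
      [Module K V] [FiniteDimensional K V] (ρ : Representation K G V), Irred ρ →
      (∃ g ∈ derivedSeries G a, ρ g ≠ 1) → q ^ a ∣ finrank K V := by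
  induction a with
  | zero =>
    intro G _ _ _ V _ _ _ ρ _ _
    rw [pow_zero]
    exact one_dvd _
  | succ a ih =>
    intro G _ _ hG V _ _ _ ρ hρ hne
    have hna : ∃ g ∈ commutator G, ρ g ≠ 1 := by
      obtain ⟨g, hg, hg1⟩ := hne
      refine ⟨g, ?_, hg1⟩
      rw [← derivedSeries_one]
      exact derivedSeries_antitone G (by omega : 1 ≤ a + 1) hg
    obtain ⟨μ, z, hμ1, hμq, htw⟩ := exists_twist hG hρ hna
    obtain ⟨T, hT0, hTst, hfin, hirr⟩ := blocks hρ μ z hμ1 hμq htw
    have hcomm : commutator G ≤ μ.ker := by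
      rw [commutator_def, Subgroup.commutator_le]
      intro x _ y _
      rw [MonoidHom.mem_ker, commutatorElement_def]
      have h1 : μ (x * y * x⁻¹ * y⁻¹) * μ (y * x) = μ (y * x) := by
        rw [← map_mul]
        have h2 : x * y * x⁻¹ * y⁻¹ * (y * x) = x * y := by group
        rw [h2, map_mul, map_mul, mul_comm]
      have h3 : μ (y * x) ≠ 0 := by
        intro h0
        have h4 := hμq (y * x)
        rw [h0, zero_pow hq.1.ne_zero] at h4
        exact zero_ne_one h4
      exact mul_right_cancel₀ h3 (by rw [h1, one_mul])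
    have hst : Stable (ρ.comp (μ.ker).subtype : Representation K μ.ker V) T :=
      fun g x hx => hTst g.1 (MonoidHom.mem_ker.1 g.2) x hx
    have hD : ∃ g ∈ derivedSeries μ.ker a,
        subRep (ρ.comp (μ.ker).subtype : Representation K μ.ker V) hst g ≠ 1 := by
      by_contra hcon
      push Not at hcon
      have h1 : T ≤ fixed ρ ((derivedSeries μ.ker a).map (μ.ker).subtype) := by
        rintro x hx _ ⟨g, hg, rfl⟩
        have h2 := congrArg (fun f : T →ₗ[K] T => ((f ⟨x, hx⟩ : T) : V)) (hcon g hg)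
        exact h2
      rcases hρ.2 _ (fixed_stable ρ ((derivedSeries μ.ker a).map (μ.ker).subtype)) with h2 | h2
      · rw [h2] at h1
        exact hT0 (le_bot_iff.1 h1)
      · obtain ⟨g, hg, hg1⟩ := hne
        apply hg1
        apply LinearMap.ext
        intro x
        have h3 : x ∈ fixed ρ ((derivedSeries μ.ker a).map (μ.ker).subtype) := by
          rw [h2]
          trivial
        exact h3 g (derived_le hcomm a hg)
    have h1 := ih (hG.to_subgroup μ.ker) (V := T)
      (subRep (ρ.comp (μ.ker).subtype : Representation K μ.ker V) hst) ⟨?_, ?_⟩ hD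
    · rw [hfin, pow_succ, mul_comm]
      exact mul_dvd_mul_left q h1
    · exact Submodule.nontrivial_iff_ne_bot.2 hT0
    · intro T' hT'
      refine subRep_min (ρ.comp (μ.ker).subtype : Representation K μ.ker V) hst ?_ T' hT'
      intro S hS hSt
      exact hirr S hS fun g hg x hx => hSt ⟨g, MonoidHom.mem_ker.2 hg⟩ x hx

/-- **Invariants of the derived subgroups.** -/
theorem pgroup_derived {K : Type*} [Field K] [IsAlgClosed K] [CharZero K] {G : Type*} [Group G]
    [Finite G] {V : Type*} [AddCommGroup V] [Module K V] [FiniteDimensional K V] {q : ℕ}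
    [hq : Fact q.Prime] (hG : IsPGroup q G) (ρ : Representation K G V) (a : ℕ) :
    finrank K V ≡ finrank K (fixed ρ (derivedSeries G a)) [MOD q ^ a] := by
  have hst : Stable ρ (fixed ρ (derivedSeries G a)) := fixed_stable ρ _
  obtain ⟨C, hC, -, h1, h2⟩ := exists_compl ρ hst (X := ⊤) (fun _ _ _ => trivial) le_top
  have h3 : q ^ a ∣ finrank K C := by
    have hfix : (fixed ρ (⊥ : Subgroup G)) = ⊤ := by
      rw [eq_top_iff]
      intro x _ h hh
      rw [Subgroup.mem_bot] at hh
      rw [hh, map_one]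
      rfl
    have h4 := mem_of_irr ρ (⊥ : Subgroup G) (mults (q ^ a)) _ C rfl hC ?_
    · rw [hfix, inf_top_eq] at h4
      exact h4
    · intro S hSC hS hS0 hmin
      rw [hfix, inf_top_eq]
      refine tower q a hG (subRep ρ hS) ⟨Submodule.nontrivial_iff_ne_bot.2 hS0, fun T' hT' =>
        subRep_min ρ hS hmin T' hT'⟩ ?_
      by_contra hcon
      push Not at hcon
      apply hS0
      rw [eq_bot_iff, ← h1]
      refine le_inf (fun x hx g hg => ?_) hSC
      have h5 := congrArg (fun f : S →ₗ[K] S => ((f ⟨x, hx⟩ : S) : V)) (hcon g hg)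
      exact h5
  have h5 := Submodule.finrank_sup_add_finrank_inf_eq (fixed ρ (derivedSeries G a)) C
  rw [h1, h2, finrank_bot, add_zero, finrank_top] at h5
  rw [h5]
  obtain ⟨c, hc⟩ := h3
  rw [hc]
  exact (Nat.modEq_iff_dvd' (Nat.le_add_right _ _)).2
    (by rw [Nat.add_sub_cancel_left]; exact ⟨c, rfl⟩) |>.symm

end Pool.Agent.X156.LD
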